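import Mathlib

/-! MP_c645a0_an, section 5: functionals on the dual which are weak* continuous on the ball. -/

set_option autoImplicit false
open Filter Topology

namespace Pool.Agent.H8.WHS5a

variable {X : Type*} [NormedAddCommGroup X] [NormedSpace ℝ X]

theorem J_apply (x : X) (φ : StrongDual ℝ X) :
    (NormedSpace.inclusionInDoubleDualLi ℝ x : StrongDual ℝ (StrongDual ℝ X)) φ = φ x := rfl

/-- a functional which is small on the unit ball of a finite-codimensional annihilator is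
near the image of `X` in the bidual -/
theorem exists_near (U : StrongDual ℝ (StrongDual ℝ X)) (ε : ℝ) (hε : 0 ≤ ε)
    (A : Finset X) (h : ∀ φ : StrongDual ℝ X, ‖φ‖ ≤ 1 → (∀ a ∈ A, φ a = 0) → |U φ| ≤ ε) :
    ∃ x : X, ∀ φ : StrongDual ℝ X, |U φ - φ x| ≤ ε * ‖φ‖ := by
  classical
  let N : Submodule ℝ (StrongDual ℝ X) :=
    { carrier := {φ | ∀ a ∈ A, φ a = 0}
      add_mem' := by
        intro p q hp hq a ha
        simp [hp a ha, hq a ha]
      zero_mem' := by intro a _; simp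
      smul_mem' := by
        intro c p hp a ha
        simp [hp a ha] }
  have hbd : ∀ φ ∈ N, |U φ| ≤ ε * ‖φ‖ := by
    intro φ hφ
    rcases eq_or_ne φ 0 with h0 | h0
    · simp [h0]
    · have hn : 0 < ‖φ‖ := norm_pos_iff.2 h0
      have h1 := h (‖φ‖⁻¹ • φ) (by rw [norm_smul, norm_inv, norm_norm, inv_mul_cancel₀ hn.ne'])
        (fun a ha => by simp [hφ a ha])
      rw [map_smul, smul_eq_mul, abs_mul, abs_of_pos (inv_pos.2 hn)] at h1
      rw [inv_mul_le_iff₀ hn] at h1
      linarith [mul_comm ε ‖φ‖]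
  obtain ⟨g, hg, hgn⟩ := exists_extension_norm_eq N (U.comp N.subtypeL)
  have hgle : ‖g‖ ≤ ε := by
    rw [hgn]
    refine ContinuousLinearMap.opNorm_le_bound _ hε fun φ => ?_
    have := hbd φ φ.2
    simpa [Real.norm_eq_abs] using this
  have hker : ⨅ i : A, LinearMap.ker
      ((NormedSpace.inclusionInDoubleDualLi ℝ (i : X) : StrongDual ℝ (StrongDual ℝ X)) :
        StrongDual ℝ X →ₗ[ℝ] ℝ) ≤
      LinearMap.ker ((U - g : StrongDual ℝ (StrongDual ℝ X)) : StrongDual ℝ X →ₗ[ℝ] ℝ) := by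
    intro φ hφ
    have hφN : φ ∈ N := by
      intro a ha
      have := (Submodule.mem_iInf _).1 hφ ⟨a, ha⟩
      exact this
    have h1 := hg ⟨φ, hφN⟩
    simp only [LinearMap.mem_ker]
    change U φ - g φ = 0
    rw [sub_eq_zero]
    simpa using h1.symm
  have hspan := mem_span_of_iInf_ker_le_ker hker
  have himg : ∃ x : X, NormedSpace.inclusionInDoubleDualLi ℝ x = U - g := by
    rw [Submodule.mem_span_range_iff_exists_fun] at hspan
    obtain ⟨c, hc⟩ := hspan
    refine ⟨∑ i, c i • (i : X), ?_⟩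
    ext φ
    have h2 := LinearMap.congr_fun hc φ
    rw [J_apply, map_sum]
    have h3 : ((U - g : StrongDual ℝ (StrongDual ℝ X)) : StrongDual ℝ X →ₗ[ℝ] ℝ) φ =
        (U - g) φ := rfl
    rw [← h3, ← h2, LinearMap.sum_apply]
    refine Finset.sum_congr rfl fun i _ => ?_
    rw [map_smul]
    rfl
  obtain ⟨x, hx⟩ := himg
  refine ⟨x, fun φ => ?_⟩
  have h1 : φ x = U φ - g φ := by
    rw [← J_apply x φ, hx]
    rfl
  rw [h1, sub_sub_cancel, ← Real.norm_eq_abs]
  exact (g.le_opNorm φ).trans (mul_le_mul_of_nonneg_right hgle (norm_nonneg _))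

/-- A functional on the dual of a Banach space, which is weak* continuous at `0` on the unit
ball, is the evaluation at a point. -/
theorem exists_point [CompleteSpace X] (U : StrongDual ℝ (StrongDual ℝ X))
    (h : ∀ ε : ℝ, 0 < ε → ∃ A : Finset X, ∀ φ : StrongDual ℝ X, ‖φ‖ ≤ 1 →
      (∀ a ∈ A, φ a = 0) → |U φ| ≤ ε) : ∃ x : X, ∀ φ : StrongDual ℝ X, U φ = φ x := by
  have hx : ∀ n : ℕ, ∃ x : X, ∀ φ : StrongDual ℝ X,
      |U φ - φ x| ≤ 1 / ((n : ℝ) + 1) * ‖φ‖ := by
    intro n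
    have hn : (0 : ℝ) < 1 / ((n : ℝ) + 1) := by positivity
    obtain ⟨A, hA⟩ := h _ hn
    exact exists_near U _ hn.le A hA
  choose x hx using hx
  have hb : Tendsto (fun n : ℕ => 2 * (1 / ((n : ℝ) + 1))) atTop (𝓝 0) := by
    have := (tendsto_one_div_add_atTop_nhds_zero_nat (𝕜 := ℝ)).const_mul 2
    simpa using this
  have hmono : ∀ n N : ℕ, N ≤ n → (1 : ℝ) / ((n : ℝ) + 1) ≤ 1 / ((N : ℝ) + 1) := by
    intro n N h
    exact one_div_le_one_div_of_le (by positivity) (by exact_mod_cast Nat.succ_le_succ h)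
  have hcau : CauchySeq x := by
    refine cauchySeq_of_le_tendsto_0 _ (fun n m N hn hm => ?_) hb
    rw [dist_eq_norm]
    have hN : (0 : ℝ) < 1 / ((N : ℝ) + 1) := by positivity
    refine NormedSpace.norm_le_dual_bound ℝ _ (by positivity) fun φ => ?_
    have h1 := (hx n φ).trans (mul_le_mul_of_nonneg_right (hmono n N hn) (norm_nonneg φ))
    have h2 := (hx m φ).trans (mul_le_mul_of_nonneg_right (hmono m N hm) (norm_nonneg φ))
    rw [map_sub, Real.norm_eq_abs]
    rw [abs_le] at h1 h2 ⊢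
    constructor <;> linarith [h1.1, h1.2, h2.1, h2.2]
  obtain ⟨y, hy⟩ := cauchySeq_tendsto_of_complete hcau
  refine ⟨y, fun φ => ?_⟩
  have h1 : Tendsto (fun n => φ (x n)) atTop (𝓝 (φ y)) := (φ.continuous.tendsto y).comp hy
  have h2 : Tendsto (fun n => φ (x n)) atTop (𝓝 (U φ)) := by
    rw [tendsto_iff_norm_sub_tendsto_zero]
    have h3 : Tendsto (fun n : ℕ => 1 / ((n : ℝ) + 1) * ‖φ‖) atTop (𝓝 0) := by
      have := (tendsto_one_div_add_atTop_nhds_zero_nat (𝕜 := ℝ)).mul_const ‖φ‖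
      simpa using this
    refine squeeze_zero (fun _ => norm_nonneg _) (fun n => ?_) h3
    rw [Real.norm_eq_abs, abs_sub_comm]
    exact hx n φ
  exact tendsto_nhds_unique h2 h1

end Pool.Agent.H8.WHS5a
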