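import Pool.Agent.H8.IETDefs

open Topology Filter Set

namespace Pool.Agent.H8.IET

universe u

/-! ### Swaps of a set with a translate -/

open Classical in
/-- The map exchanging `A` and `A + t` by translation. -/
noncomputable def swapFun (A : Set Circ) (t x : Circ) : Circ :=
  if x ∈ A then x + t else if x - t ∈ A then x - t else x

lemma swapFun_mem {A : Set Circ} {t x : Circ} (hx : x ∈ A) : swapFun A t x = x + t := by
  simp [swapFun, hx]

lemma swapFun_sub_mem {A : Set Circ} {t x : Circ} (hx : x ∉ A) (hx' : x - t ∈ A) :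
    swapFun A t x = x - t := by
  simp [swapFun, hx, hx']

lemma swapFun_not {A : Set Circ} {t x : Circ} (hx : x ∉ A) (hx' : x - t ∉ A) :
    swapFun A t x = x := by
  simp [swapFun, hx, hx']

lemma swapFun_invol {A : Set Circ} {t : Circ} (h : ∀ x ∈ A, x + t ∉ A) :
    Function.Involutive (swapFun A t) := by
  intro x
  by_cases hx : x ∈ A
  · rw [swapFun_mem hx, swapFun_sub_mem (h x hx) (by simpa using hx)]; simp
  · by_cases hx' : x - t ∈ A
    · rw [swapFun_sub_mem hx hx', swapFun_mem hx']; simp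
    · rw [swapFun_not hx hx', swapFun_not hx hx']

/-- The permutation of the circle exchanging `A` and `A + t` by translation. -/
noncomputable def swp (A : Set Circ) (t : Circ) (h : ∀ x ∈ A, x + t ∉ A) : Equiv.Perm Circ :=
  (swapFun_invol h).toPerm

lemma swp_apply {A : Set Circ} {t : Circ} (h : ∀ x ∈ A, x + t ∉ A) (x : Circ) :
    swp A t h x = swapFun A t x := rfl

lemma swp_mem {A : Set Circ} {t : Circ} (h : ∀ x ∈ A, x + t ∉ A) {x : Circ} (hx : x ∈ A) :
    swp A t h x = x + t := swapFun_mem hx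

lemma swp_sub_mem {A : Set Circ} {t : Circ} (h : ∀ x ∈ A, x + t ∉ A) {x : Circ}
    (hx : x - t ∈ A) : swp A t h x = x - t :=
  swapFun_sub_mem (fun hx' => h _ hx (by simpa using hx')) hx

lemma swp_not {A : Set Circ} {t : Circ} (h : ∀ x ∈ A, x + t ∉ A) {x : Circ} (hx : x ∉ A)
    (hx' : x - t ∉ A) : swp A t h x = x := swapFun_not hx hx'

lemma swp_swp {A : Set Circ} {t : Circ} (h : ∀ x ∈ A, x + t ∉ A) (x : Circ) :
    swp A t h (swp A t h x) = x := swapFun_invol h x

lemma swp_inv {A : Set Circ} {t : Circ} (h : ∀ x ∈ A, x + t ∉ A) :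
    (swp A t h)⁻¹ = swp A t h := by
  ext x
  rw [Equiv.Perm.inv_eq_iff_eq, swp_swp]

lemma inv_apply_self' {β : Type*} (f : Equiv.Perm β) (x : β) : f⁻¹ (f x) = x :=
  f.symm_apply_apply x

/-! ### The abstract setup -/

/-- The data of a lift `Φ` to `Sym(S ⊔ Y)`, near the standard action, trivial on finitely
supported permutations, of a group `H` of permutations of the circle containing the rotation by
`α`, the flip, and the swaps of sets whose frontier is a finite set of multiples of `α`. -/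
structure Setup (Y : Type u) where
  H : Subgroup (Equiv.Perm Circ)
  Φ : H →* Equiv.Perm (Circ ⊕ Y)
  near : ∀ h : H, {z | Φ h z ≠ Equiv.sumCongr (h : Equiv.Perm Circ) (Equiv.refl Y) z}.Finite
  triv : ∀ h : H, {x | (h : Equiv.Perm Circ) x ≠ x}.Finite → Φ h = 1
  α : Circ
  hα : addOrderOf α = 0
  rot : Equiv.addRight α ∈ H
  neg : Equiv.neg Circ ∈ H
  swp_mem : ∀ (A : Set Circ) (t : Circ) (h : ∀ x ∈ A, x + t ∉ A),
    t ∈ AddSubgroup.zmultiples α → (frontier A).Finite →
    frontier A ⊆ AddSubgroup.zmultiples α → swp A t h ∈ H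

namespace Setup

variable {Y : Type u} (D : Setup Y)

lemma zsmul_inj {a b : ℤ} (h : a • D.α = b • D.α) : a = b := by
  have h1 : (a - b) • D.α = 0 := by rw [sub_smul, h, sub_self]
  have h2 := addOrderOf_dvd_iff_zsmul_eq_zero.2 h1
  rw [D.hα] at h2
  have h3 : a - b = 0 := by simpa using h2
  omega

lemma nsmul_inj {a b : ℕ} (h : a • D.α = b • D.α) : a = b := by
  have : (a : ℤ) • D.α = (b : ℤ) • D.α := by simpa using h
  exact_mod_cast D.zsmul_inj this

lemma nsmul_ne_zero {j : ℕ} (hj : j ≠ 0) : j • D.α ≠ 0 := fun h => hj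
  (D.nsmul_inj (by simpa using h))

/-- forward multiples of an element of infinite order meet every open set, arbitrarily late. -/
lemma exists_nsmul_mem_aux {β : Circ} (hβ : addOrderOf β = 0) {O : Set Circ} (hO : IsOpen O)
    (hne : O.Nonempty) (x : Circ) (N : ℕ) : ∃ k ≥ N, x + k • β ∈ O := by
  have h1 : DenseRange (· • β : ℤ → Circ) := AddCircle.denseRange_zsmul_iff.2 hβ
  have h2 : DenseRange (· • β : ℕ → Circ) := denseRange_zsmul_iff_nsmul.1 h1
  obtain ⟨o, ho⟩ := hne
  let O' : Set Circ := (fun y => x + N • β + y) ⁻¹' O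
  have hO' : IsOpen O' := hO.preimage (by fun_prop)
  have hO'ne : O'.Nonempty := ⟨o - (x + N • β), by simp [O', ho]⟩
  obtain ⟨y, hy, k, rfl⟩ := h2.inter_open_nonempty O' hO' hO'ne
  refine ⟨N + k, by omega, ?_⟩
  rw [add_smul, ← add_assoc]
  exact hy

lemma exists_nsmul_mem {O : Set Circ} (hO : IsOpen O)
    (hne : O.Nonempty) (x : Circ) (N : ℕ) : ∃ k ≥ N, x + k • D.α ∈ O :=
  exists_nsmul_mem_aux D.hα hO hne x N

lemma exists_small {ε : ℝ} (hε : 0 < ε) (N : ℕ) : ∃ k ≥ N, 0 < ‖k • D.α‖ ∧ ‖k • D.α‖ < ε := by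
  obtain ⟨k, hk, hk'⟩ := D.exists_nsmul_mem (O := Metric.ball 0 ε) Metric.isOpen_ball
    ⟨0, by simpa using hε⟩ 0 (max N 1)
  refine ⟨k, le_trans (le_max_left _ _) hk, ?_, by simpa using hk'⟩
  rw [norm_pos_iff]
  apply D.nsmul_ne_zero
  have := le_trans (le_max_right _ _) hk
  omega

/-- the rotation as an element of `H` -/
def r : D.H := ⟨Equiv.addRight D.α, D.rot⟩

/-- the flip `x ↦ -x` as an element of `H` -/
def s : D.H := ⟨Equiv.neg Circ, D.neg⟩

lemma r_pow_apply (k : ℕ) (x : Circ) : ((D.r ^ k : D.H) : Equiv.Perm Circ) x = x + k • D.α := by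
  induction k generalizing x with
  | zero => simp
  | succ k ih =>
    rw [pow_succ, Subgroup.coe_mul, Equiv.Perm.mul_apply, ih, add_smul, one_smul]
    show x + D.α + k • D.α = _
    abel

lemma r_pow_inv_apply (k : ℕ) (x : Circ) :
    (((D.r ^ k)⁻¹ : D.H) : Equiv.Perm Circ) x = x - k • D.α := by
  rw [InvMemClass.coe_inv, Equiv.Perm.inv_eq_iff_eq, D.r_pow_apply]
  simp

lemma near_eventually (h : D.H) (x : Circ) : ∃ N : ℕ, ∀ k ≥ N,
    D.Φ h (Sum.inl (x + k • D.α)) = Sum.inl ((h : Equiv.Perm Circ) (x + k • D.α)) := by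
  have hf := D.near h
  have hinj : Function.Injective (fun k : ℕ => (Sum.inl (x + k • D.α) : Circ ⊕ Y)) := by
    intro a b hab
    simp only [Sum.inl.injEq, add_right_inj] at hab
    exact D.nsmul_inj hab
  have hf2 := hf.preimage (hinj.injOn)
  obtain ⟨N, hN⟩ := hf2.bddAbove
  refine ⟨N + 1, fun k hk => ?_⟩
  by_contra hne
  have : k ≤ N := hN (by simpa using hne)
  omega

/-- forward standard points: the forward orbit under the lifted rotation is the standard one. -/
def FS (x : Circ) : Prop := ∀ k : ℕ, D.Φ (D.r ^ k) (Sum.inl x) = Sum.inl (x + k • D.α)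

variable {D}

lemma FS.add {x : Circ} (h : D.FS x) (j : ℕ) : D.FS (x + j • D.α) := by
  intro k
  rw [← h j, ← Equiv.Perm.mul_apply, ← map_mul, ← pow_add, h, add_smul]
  congr 1
  abel

variable (D)

/-- `‖y‖ = ‖b‖` on the circle only if `y = ± b`. -/
lemma norm_eq_norm {y b : Circ} (h : ‖y‖ = ‖b‖) : y = b ∨ y = -b := by
  have key : ∀ c : Circ, ∃ u : ℝ, (u : Circ) = c ∧ ‖c‖ = |u| := by
    intro c
    obtain ⟨v, rfl⟩ := QuotientAddGroup.mk_surjective c
    refine ⟨v - round v, ?_, ?_⟩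
    · have : ((round v : ℝ) : Circ) = 0 := by
        rw [AddCircle.coe_eq_zero_iff]
        exact ⟨round v, by simp⟩
      show ((v - round v : ℝ) : Circ) = (v : Circ)
      rw [AddCircle.coe_sub, this, sub_zero]
    · exact UnitAddCircle.norm_eq
  obtain ⟨u, rfl, hu⟩ := key y
  obtain ⟨v, rfl, hv⟩ := key b
  rw [hu, hv] at h
  rcases abs_eq_abs.1 h with h | h
  · left; rw [h]
  · right; rw [h]; rfl

lemma frontier_ball_subset (x b : Circ) :
    frontier (Metric.ball x ‖b‖) ⊆ {x + b, x - b} := by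
  intro y hy
  have h1 := Metric.frontier_ball_subset_sphere hy
  rw [mem_sphere_iff_norm] at h1
  rcases norm_eq_norm h1 with h | h
  · left; rw [← h]; abel
  · right
    simp only [mem_singleton_iff]
    rw [sub_eq_add_neg, ← h]; abel

lemma add_notMem_ball {x t : Circ} {ρ : ℝ} (h : 2 * ρ ≤ ‖t‖) :
    ∀ y ∈ Metric.ball x ρ, y + t ∉ Metric.ball x ρ := by
  intro y hy hy'
  rw [mem_ball_iff_norm] at hy hy'
  have : ‖t‖ ≤ ‖y + t - x‖ + ‖y - x‖ := by
    have : t = (y + t - x) - (y - x) := by abel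
    calc ‖t‖ = ‖(y + t - x) - (y - x)‖ := by rw [← this]
      _ ≤ _ := norm_sub_le _ _
  linarith

lemma ball_swp_mem {x t : Circ} {m : ℕ} (hx : x ∈ AddSubgroup.zmultiples D.α)
    (ht : t ∈ AddSubgroup.zmultiples D.α) (h : 2 * ‖m • D.α‖ ≤ ‖t‖) :
    swp (Metric.ball x ‖m • D.α‖) t (add_notMem_ball h) ∈ D.H := by
  have hm : m • D.α ∈ AddSubgroup.zmultiples D.α :=
    AddSubgroup.nsmul_mem _ (AddSubgroup.mem_zmultiples _) _
  apply D.swp_mem _ _ _ ht
  · exact (Set.toFinite _).subset (frontier_ball_subset x _)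
  · refine (frontier_ball_subset x _).trans ?_
    rintro y (rfl | rfl)
    · exact add_mem hx hm
    · exact sub_mem hx hm

/-- A small swap that acts in the standard way at some point of the forward orbit of `x`. -/
lemma exists_swap (x : Circ) {j : ℕ} (hj : j ≠ 0) : ∃ (h : D.H) (k : ℕ),
    (∀ᶠ y in 𝓝 (x + k • D.α), (h : Equiv.Perm Circ) y = y + j • D.α) ∧
    D.Φ h (Sum.inl (x + k • D.α)) = Sum.inl (x + k • D.α + j • D.α) ∧
    (∀ y, (h : Equiv.Perm Circ) y ≠ y → dist y (x + k • D.α) < 2 * ‖j • D.α‖) := by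
  have hjpos : 0 < ‖j • D.α‖ := norm_pos_iff.2 (D.nsmul_ne_zero hj)
  obtain ⟨m, -, hm0, hm1⟩ := D.exists_small (ε := ‖j • D.α‖ / 2) (by positivity) 0
  have h2 : 2 * ‖m • D.α‖ ≤ ‖j • D.α‖ := by linarith
  have hjz : j • D.α ∈ AddSubgroup.zmultiples D.α :=
    AddSubgroup.nsmul_mem _ (AddSubgroup.mem_zmultiples _) _
  let h : D.H := ⟨swp (Metric.ball 0 ‖m • D.α‖) (j • D.α) (add_notMem_ball h2),
    D.ball_swp_mem (zero_mem _) hjz h2⟩
  obtain ⟨N, hN⟩ := D.near_eventually h x
  obtain ⟨k, hk, hk'⟩ := D.exists_nsmul_mem (O := Metric.ball 0 ‖m • D.α‖) Metric.isOpen_ball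
    ⟨0, by simpa using hm0⟩ x N
  have hev : ∀ y ∈ Metric.ball (0 : Circ) ‖m • D.α‖,
      (h : Equiv.Perm Circ) y = y + j • D.α := fun y hy => IET.swp_mem (add_notMem_ball h2) hy
  refine ⟨h, k, ?_, ?_, ?_⟩
  · filter_upwards [Metric.isOpen_ball.mem_nhds hk'] with y hy
    exact hev y hy
  · rw [hN k hk, hev _ hk']
  · intro y hy
    have hk2 : ‖x + k • D.α‖ < ‖m • D.α‖ := by simpa using hk'
    by_cases h1 : y ∈ Metric.ball (0 : Circ) ‖m • D.α‖
    · have h1' : ‖y‖ < ‖m • D.α‖ := by simpa using h1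
      rw [dist_eq_norm]
      calc ‖y - (x + k • D.α)‖ ≤ ‖y‖ + ‖x + k • D.α‖ := norm_sub_le _ _
        _ < 2 * ‖j • D.α‖ := by linarith
    · by_cases h3 : y - j • D.α ∈ Metric.ball (0 : Circ) ‖m • D.α‖
      · have h3' : ‖y - j • D.α‖ < ‖m • D.α‖ := by simpa using h3
        rw [dist_eq_norm]
        have : y - (x + k • D.α) = (y - j • D.α) - (x + k • D.α) + j • D.α := by abel
        calc ‖y - (x + k • D.α)‖ = ‖(y - j • D.α) - (x + k • D.α) + j • D.α‖ := by rw [← this]
          _ ≤ ‖(y - j • D.α) - (x + k • D.α)‖ + ‖j • D.α‖ := norm_add_le _ _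
          _ ≤ ‖y - j • D.α‖ + ‖x + k • D.α‖ + ‖j • D.α‖ := by
              gcongr; exact norm_sub_le _ _
          _ < 2 * ‖j • D.α‖ := by linarith
      · exact absurd (IET.swp_not (add_notMem_ball h2) h1 h3) hy

variable {D}

lemma Phi_fix_iff (g : D.H) (a b : Circ ⊕ Y) : D.Φ g a = b ↔ a = D.Φ g⁻¹ b := by
  rw [map_inv, Equiv.Perm.eq_inv_iff_eq]

/-- (d1): an element that is the identity near a forward standard point fixes it. -/
lemma d1 {x : Circ} (hx : D.FS x) (g : D.H) {ε : ℝ} (hε : 0 < ε)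
    (hg : ∀ y ∈ Metric.ball x ε, (g : Equiv.Perm Circ) y = y) :
    D.Φ g (Sum.inl x) = Sum.inl x := by
  obtain ⟨N, hN⟩ := D.near_eventually g x
  obtain ⟨j, hjN, hj0, hj1⟩ := D.exists_small (ε := ε / 2) (by positivity) (max N 1)
  have hj : j ≠ 0 := by
    have := le_trans (le_max_right _ _) hjN
    omega
  have hgj : D.Φ g (Sum.inl (x + j • D.α)) = Sum.inl (x + j • D.α) := by
    rw [hN j (le_trans (le_max_left _ _) hjN), hg]
    rw [mem_ball_iff_norm]
    simp only [add_sub_cancel_left]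
    linarith
  obtain ⟨h, k, -, hk2, hk3⟩ := D.exists_swap x hj
  -- the conjugate of g
  set gk : D.H := D.r ^ k * g * (D.r ^ k)⁻¹ with hgk
  have hgk_fix : ∀ y, dist y (x + k • D.α) < ε → (gk : Equiv.Perm Circ) y = y := by
    intro y hy
    rw [hgk]
    simp only [Subgroup.coe_mul, Equiv.Perm.mul_apply]
    rw [D.r_pow_inv_apply, hg, D.r_pow_apply]
    · simp
    · rw [mem_ball_iff_norm]
      rw [dist_eq_norm] at hy
      have : y - k • D.α - x = y - (x + k • D.α) := by abel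
      rwa [this]
  have hdisj : Equiv.Perm.Disjoint (gk : Equiv.Perm Circ) (h : Equiv.Perm Circ) := by
    intro y
    by_cases hy : (h : Equiv.Perm Circ) y = y
    · right; exact hy
    · left
      apply hgk_fix
      have := hk3 y hy
      linarith
  have hcomm : gk * h = h * gk := Subtype.ext hdisj.commute.eq
  have e1 : D.Φ gk (Sum.inl (x + k • D.α + j • D.α)) = Sum.inl (x + k • D.α + j • D.α) := by
    have e0 : (Sum.inl (x + k • D.α + j • D.α) : Circ ⊕ Y)
        = D.Φ (D.r ^ k) (Sum.inl (x + j • D.α)) := by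
      rw [(hx.add j) k]; congr 1; abel
    rw [e0, hgk, map_mul, map_mul, map_inv, Equiv.Perm.mul_apply, Equiv.Perm.mul_apply,
      inv_apply_self', hgj]
  have e2 : D.Φ h (D.Φ gk (Sum.inl (x + k • D.α))) = D.Φ h (Sum.inl (x + k • D.α)) := by
    rw [← Equiv.Perm.mul_apply, ← map_mul, ← hcomm, map_mul, Equiv.Perm.mul_apply, hk2, e1]
  have e3 := (D.Φ h).injective e2
  rw [← hx k, hgk, map_mul, map_mul, map_inv, Equiv.Perm.mul_apply, Equiv.Perm.mul_apply,
    inv_apply_self'] at e3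
  exact (D.Φ (D.r ^ k)).injective e3

/-- the standard behaviour at interior points of a swapped set -/
lemma d0' {x : Circ} (hx : D.FS x) {j : ℕ} (hj : j ≠ 0) (F : D.H)
    (hF : ∀ᶠ y in 𝓝 x, (F : Equiv.Perm Circ) y = y + j • D.α) :
    D.Φ F (Sum.inl x) = Sum.inl (x + j • D.α) := by
  obtain ⟨h, k, hk1, hk2, -⟩ := D.exists_swap x hj
  set f : D.H := (D.r ^ k)⁻¹ * h * D.r ^ k with hf
  have e1 : D.Φ f (Sum.inl x) = Sum.inl (x + j • D.α) := by
    rw [hf, map_mul, map_mul, map_inv, Equiv.Perm.mul_apply, Equiv.Perm.mul_apply, hx k, hk2,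
      Equiv.Perm.inv_eq_iff_eq, (hx.add j) k]
    congr 1; abel
  have hfx : ∀ᶠ y in 𝓝 x, (f : Equiv.Perm Circ) y = y + j • D.α := by
    have hc : Tendsto (fun y : Circ => y + k • D.α) (𝓝 x) (𝓝 (x + k • D.α)) :=
      (continuous_add_const _).tendsto x
    filter_upwards [hc.eventually hk1] with y hy
    rw [hf]
    simp only [Subgroup.coe_mul, Equiv.Perm.mul_apply]
    rw [D.r_pow_apply, hy, D.r_pow_inv_apply]
    abel
  have hfix : ∀ᶠ y in 𝓝 x, ((f⁻¹ * F : D.H) : Equiv.Perm Circ) y = y := by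
    filter_upwards [hfx, hF] with y h1 h2
    simp only [Subgroup.coe_mul, Equiv.Perm.mul_apply, InvMemClass.coe_inv]
    rw [Equiv.Perm.inv_eq_iff_eq, h1, h2]
  obtain ⟨ε, hε, hball⟩ := Metric.eventually_nhds_iff_ball.1 hfix
  have := d1 hx (f⁻¹ * F) hε hball
  rw [map_mul, map_inv, Equiv.Perm.mul_apply, Equiv.Perm.inv_eq_iff_eq, e1] at this
  exact this

/-- (d0): near a forward standard point there is an element of small support moving it. -/
lemma d0 {x : Circ} (hx : D.FS x) {ε : ℝ} (hε : 0 < ε) :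
    ∃ f : D.H, (∀ y, ε ≤ dist y x → (f : Equiv.Perm Circ) y = y) ∧
      D.Φ f (Sum.inl x) ≠ Sum.inl x := by
  obtain ⟨j, hj, hj0, hj1⟩ := D.exists_small (ε := ε / 2) (by positivity) 1
  obtain ⟨h, k, hk1, hk2, hk3⟩ := D.exists_swap x (j := j) (by omega)
  refine ⟨(D.r ^ k)⁻¹ * h * D.r ^ k, ?_, ?_⟩
  · intro y hy
    simp only [Subgroup.coe_mul, Equiv.Perm.mul_apply]
    rw [D.r_pow_apply, D.r_pow_inv_apply]
    have : (h : Equiv.Perm Circ) (y + k • D.α) = y + k • D.α := by
      by_contra hne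
      have := hk3 _ hne
      rw [dist_add_right] at this
      linarith
    rw [this]; abel
  · rw [map_mul, map_mul, map_inv, Equiv.Perm.mul_apply, Equiv.Perm.mul_apply, hx k, hk2]
    intro hcon
    rw [Equiv.Perm.inv_eq_iff_eq, hx k] at hcon
    simp only [Sum.inl.injEq, add_eq_left] at hcon
    exact D.nsmul_ne_zero (by omega) hcon

/-- position of a point with infinite rotation orbit -/
lemma pos {z : Circ ⊕ Y} (hz : ∀ k : ℕ, k ≠ 0 → D.Φ (D.r ^ k) z ≠ z) :
    ∃ y : Circ, (∀ ε > 0, ∃ f : D.H, (∀ u, ε ≤ dist u y → (f : Equiv.Perm Circ) u = u) ∧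
      D.Φ f z ≠ z) ∧ (D.FS y → z = Sum.inl y) := by
  have hinj : Function.Injective (fun k : ℕ => D.Φ (D.r ^ k) z) := by
    have key : ∀ a b : ℕ, a < b → D.Φ (D.r ^ a) z ≠ D.Φ (D.r ^ b) z := by
      intro a b hab heq
      obtain ⟨c, rfl⟩ := Nat.exists_eq_add_of_lt hab
      have : D.r ^ (a + c + 1) = D.r ^ a * D.r ^ (c + 1) := by rw [← pow_add]; ring_nf
      rw [this, map_mul, Equiv.Perm.mul_apply] at heq
      exact hz (c + 1) (by omega) ((D.Φ (D.r ^ a)).injective heq).symm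
    intro a b hab
    rcases lt_trichotomy a b with h | h | h
    · exact absurd hab (key a b h)
    · exact h
    · exact absurd hab.symm (key b a h)
  have hfin := (D.near D.r).preimage (hinj.injOn)
  obtain ⟨N, hN⟩ := hfin.bddAbove
  set K := N + 1 with hK
  have hstd : ∀ k ≥ K, D.Φ D.r (D.Φ (D.r ^ k) z) =
      Equiv.sumCongr (D.r : Equiv.Perm Circ) (Equiv.refl Y) (D.Φ (D.r ^ k) z) := by
    intro k hk
    by_contra hne
    have : k ≤ N := hN (by simpa using hne)
    omega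
  have hsucc : ∀ k, D.Φ (D.r ^ (k + 1)) z = D.Φ D.r (D.Φ (D.r ^ k) z) := by
    intro k
    rw [pow_succ', map_mul, Equiv.Perm.mul_apply]
  obtain ⟨w, hw⟩ : ∃ w, D.Φ (D.r ^ K) z = Sum.inl w := by
    rcases hzK : D.Φ (D.r ^ K) z with w | v
    · exact ⟨w, rfl⟩
    · exfalso
      have h1 := hstd K le_rfl
      rw [hzK] at h1
      have h2 : D.Φ (D.r ^ (K + 1)) z = D.Φ (D.r ^ K) z := by
        rw [hsucc, hzK, h1]; rfl
      have := hinj h2
      omega
  have hwi : ∀ i : ℕ, D.Φ (D.r ^ (K + i)) z = Sum.inl (w + i • D.α) := by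
    intro i
    induction i with
    | zero => simpa using hw
    | succ i ih =>
      rw [← add_assoc, hsucc, hstd (K + i) (by omega), ih]
      show Sum.inl (((D.r : D.H) : Equiv.Perm Circ) (w + i • D.α)) = _
      have := D.r_pow_apply 1 (w + i • D.α)
      rw [pow_one, one_smul] at this
      rw [this, add_smul, one_smul, add_assoc]
  have hFSw : D.FS w := by
    intro k
    rw [← hw, ← Equiv.Perm.mul_apply, ← map_mul, ← pow_add, add_comm k K, hwi]
  refine ⟨w - K • D.α, ?_, ?_⟩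
  · intro ε hε
    obtain ⟨f, hf1, hf2⟩ := d0 hFSw hε
    refine ⟨(D.r ^ K)⁻¹ * f * D.r ^ K, ?_, ?_⟩
    · intro u hu
      simp only [Subgroup.coe_mul, Equiv.Perm.mul_apply]
      rw [D.r_pow_apply, hf1, D.r_pow_inv_apply]
      · abel
      · have : dist (u + K • D.α) w = dist u (w - K • D.α) := by
          rw [dist_eq_norm, dist_eq_norm]; congr 1; abel
        rw [this]; exact hu
    · rw [map_mul, map_mul, map_inv, Equiv.Perm.mul_apply, Equiv.Perm.mul_apply, hw]
      intro hcon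
      rw [Equiv.Perm.inv_eq_iff_eq, hw] at hcon
      exact hf2 hcon
  · intro hy
    have h1 := hy K
    rw [sub_add_cancel, ← hw] at h1
    exact ((D.Φ (D.r ^ K)).injective h1).symm

end Setup

end Pool.Agent.H8.IET
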