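import Pool.Agent.H8.IETCore

open Topology Filter Set

namespace Pool.Agent.H8.IET

universe u

/-! ### The half circle -/

/-- The open half circle `(0,1/2)`. -/
def halfR : Set Circ := (fun u : ℝ => (u : Circ)) '' Ioo 0 (1 / 2)

lemma halfR_disj {y : Circ} (h : y ∈ halfR) : -y ∉ halfR := by
  rintro ⟨v, ⟨hv0, hv1⟩, hv⟩
  obtain ⟨u, ⟨hu0, hu1⟩, rfl⟩ := h
  have h1 : ((u + v : ℝ) : Circ) = 0 := by
    rw [AddCircle.coe_add]
    have hv' : ((v : ℝ) : Circ) = -(u : Circ) := hv
    rw [hv']; simp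
  exact coe_ne_zero_of_lt_one (by linarith) (by linarith) h1

lemma zero_notMem_halfR : (0 : Circ) ∉ halfR := by
  rintro ⟨v, ⟨hv0, hv1⟩, hv⟩
  exact coe_ne_zero_of_lt_one hv0 (by linarith) hv

lemma halfR_cover {y : Circ} (hy : ‖y‖ < 1 / 2) (h0 : y ≠ 0) : y ∈ halfR ∨ -y ∈ halfR := by
  obtain ⟨v, rfl⟩ := QuotientAddGroup.mk_surjective y
  have hr : ((round v : ℝ) : Circ) = 0 := by
    rw [AddCircle.coe_eq_zero_iff]
    exact ⟨round v, by simp⟩
  have hv : ((v - round v : ℝ) : Circ) = (v : Circ) := by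
    rw [AddCircle.coe_sub, hr, sub_zero]
  have hn : ‖(v : Circ)‖ = |v - round v| := UnitAddCircle.norm_eq
  have hy' : |v - round v| < 1 / 2 := by rw [← hn]; exact hy
  have hne : v - round v ≠ 0 := by
    intro h
    apply h0
    show (v : Circ) = 0
    rw [← hv, h]; rfl
  rw [abs_lt] at hy'
  rcases lt_or_gt_of_ne hne with h | h
  · right
    refine ⟨-(v - round v), ⟨by linarith, by linarith⟩, ?_⟩
    show ((-(v - round v) : ℝ) : Circ) = -(v : Circ)
    rw [AddCircle.coe_neg, hv]
  · left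
    exact ⟨v - round v, ⟨h, by linarith⟩, hv⟩

lemma isOpen_halfR : IsOpen halfR := QuotientAddGroup.isOpenMap_coe _ isOpen_Ioo

lemma frontier_halfR : frontier halfR ⊆ {0, ((1 / 2 : ℝ) : Circ)} := by
  intro y hy
  rw [frontier, isOpen_halfR.interior_eq] at hy
  have hcl : closure halfR ⊆ (fun u : ℝ => (u : Circ)) '' Icc 0 (1 / 2) := by
    apply closure_minimal (image_mono Ioo_subset_Icc_self)
    exact (isCompact_Icc.image (AddCircle.continuous_mk' 1)).isClosed
  obtain ⟨u, ⟨hu0, hu1⟩, rfl⟩ := hcl hy.1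
  rcases hu0.eq_or_lt with h | h
  · left; rw [← h]; rfl
  · rcases hu1.eq_or_lt with h' | h'
    · right; rw [h']; rfl
    · exact absurd ⟨u, ⟨h, h'⟩, rfl⟩ hy.2

lemma norm_half : ‖((1 / 2 : ℝ) : Circ)‖ = 1 / 2 := by
  have := AddCircle.norm_half_period_eq (p := (1 : ℝ))
  simpa using this

/-- the part of the ball around `x` on the positive (`e = 1`) or negative (`e = -1`) side -/
def halfBall (x : Circ) (ρ : ℝ) (e : ℤ) : Set Circ :=
  Metric.ball x ρ ∩ (fun y => e • (y - x)) ⁻¹' halfR

lemma frontier_halfBall {x b : Circ} (hb : ‖b‖ < 1 / 2) {e : ℤ} (he : e = 1 ∨ e = -1) :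
    frontier (halfBall x ‖b‖ e) ⊆ {x, x + b, x - b} := by
  intro y hy
  have h1 := frontier_inter_subset _ _ hy
  rcases h1 with h1 | h1
  · rcases Setup.frontier_ball_subset x b h1.1 with h | h
    · right; left; exact h
    · right; right; exact h
  · left
    have hc : Continuous (fun y : Circ => e • (y - x)) := by fun_prop
    have h2 := hc.frontier_preimage_subset _ h1.2
    have h3 : ‖y - x‖ ≤ ‖b‖ := by
      have := Metric.closure_ball_subset_closedBall h1.1
      rwa [mem_closedBall_iff_norm] at this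
    have hen : ‖e • (y - x)‖ = ‖y - x‖ := by
      rcases he with rfl | rfl
      · rw [one_smul]
      · rw [neg_smul, one_smul, norm_neg]
    rcases frontier_halfR h2 with h | h
    · have h' : e • (y - x) = 0 := h
      have : ‖y - x‖ = 0 := by rw [← hen, h', norm_zero]
      rw [norm_eq_zero, sub_eq_zero] at this
      exact this
    · exfalso
      have h4 : ‖e • (y - x)‖ = 1 / 2 := by
        have h' : e • (y - x) = ((1 / 2 : ℝ) : Circ) := h
        rw [h', norm_half]
      rw [hen] at h4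
      linarith

lemma halfBall_subset {x : Circ} {ρ : ℝ} {e : ℤ} : halfBall x ρ e ⊆ Metric.ball x ρ :=
  inter_subset_left

lemma halfBall_disj {x : Circ} {ρ : ℝ} {y : Circ} (h : y ∈ halfBall x ρ 1) :
    y ∉ halfBall x ρ (-1) := by
  intro h'
  have h1 : (1 : ℤ) • (y - x) ∈ halfR := h.2
  have h2 : (-1 : ℤ) • (y - x) ∈ halfR := h'.2
  rw [one_smul] at h1
  rw [neg_smul, one_smul] at h2
  exact halfR_disj h1 h2

lemma halfBall_cover {x : Circ} {ρ : ℝ} (hρ : ρ ≤ 1 / 2) {y : Circ} (h : y ∈ Metric.ball x ρ)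
    (hne : y ≠ x) : y ∈ halfBall x ρ 1 ∨ y ∈ halfBall x ρ (-1) := by
  have h1 : ‖y - x‖ < ρ := by rwa [mem_ball_iff_norm] at h
  rcases halfR_cover (lt_of_lt_of_le h1 hρ) (sub_ne_zero.2 hne) with h2 | h2
  · left; refine ⟨h, ?_⟩
    show (1 : ℤ) • (y - x) ∈ halfR
    rwa [one_smul]
  · right; refine ⟨h, ?_⟩
    show (-1 : ℤ) • (y - x) ∈ halfR
    rwa [neg_smul, one_smul]

/-- reflection about `x` exchanges the two halves -/
lemma halfBall_refl {x : Circ} {ρ : ℝ} {y : Circ} :
    x + x - y ∈ halfBall x ρ 1 ↔ y ∈ halfBall x ρ (-1) := by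
  unfold halfBall
  simp only [mem_inter_iff, mem_ball_iff_norm, mem_preimage, one_smul, neg_smul]
  have h1 : x + x - y - x = -(y - x) := by abel
  rw [h1, norm_neg]

namespace Setup

variable {Y : Type u} {D : Setup Y}

lemma halfBall_swp_mem {x t : Circ} {m : ℕ} (hx : x ∈ AddSubgroup.zmultiples D.α)
    (ht : t ∈ AddSubgroup.zmultiples D.α) (hm2 : ‖m • D.α‖ < 1 / 2)
    {e : ℤ} (he : e = 1 ∨ e = -1) (h : ∀ y ∈ halfBall x ‖m • D.α‖ e, y + t ∉ halfBall x ‖m • D.α‖ e) :
    swp (halfBall x ‖m • D.α‖ e) t h ∈ D.H := by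
  have hm : m • D.α ∈ AddSubgroup.zmultiples D.α :=
    AddSubgroup.nsmul_mem _ (AddSubgroup.mem_zmultiples _) _
  apply D.swp_mem _ _ _ ht
  · exact (Set.toFinite _).subset (frontier_halfBall hm2 he)
  · refine (frontier_halfBall hm2 he).trans ?_
    rintro y (rfl | rfl | rfl)
    · exact hx
    · exact add_mem hx hm
    · exact sub_mem hx hm

lemma addOrderOf_nsmul_zero (D : Setup Y) {q : ℕ} (hq : q ≠ 0) : addOrderOf (q • D.α) = 0 := by
  rw [addOrderOf_eq_zero_iff']
  intro n hn h
  rw [← mul_smul] at h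
  exact D.nsmul_ne_zero (Nat.mul_ne_zero hn.ne' hq) h

/-- the image of a forward standard point under a small involution that translates by `t` is
`x + t`, if it is not `x`. -/
lemma C1 {x : Circ} (hx : D.FS x) {j : ℕ} (g : D.H) {ρ : ℝ} (hρ : 0 < ρ)
    (hρ1 : ρ < 1 / 16) (ht : ‖j • D.α‖ < 1 / 16) (hg : g * g = 1)
    (hg1 : ∀ y, 1 / 8 ≤ dist y x → (g : Equiv.Perm Circ) y = y)
    (hg2 : ∀ y, dist y x < ρ → (g : Equiv.Perm Circ) y = y ∨
      (g : Equiv.Perm Circ) y = y + j • D.α)
    (hne : D.Φ g (Sum.inl x) ≠ Sum.inl x) : D.Φ g (Sum.inl x) = Sum.inl (x + j • D.α) := by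
  have hgi : g⁻¹ = g := by rw [inv_eq_iff_mul_eq_one, hg]
  have hgg : ∀ y, (g : Equiv.Perm Circ) ((g : Equiv.Perm Circ) y) = y := by
    intro y
    rw [← Equiv.Perm.mul_apply, ← Subgroup.coe_mul, hg]; rfl
  have hΦgg : ∀ y, D.Φ g (D.Φ g y) = y := by
    intro y
    rw [← Equiv.Perm.mul_apply, ← map_mul, hg, map_one]; rfl
  set a := D.Φ g (Sum.inl x) with ha
  have hnear : ∀ y, dist y x < ρ → dist ((g : Equiv.Perm Circ) y) x < 1 / 8 := by
    intro y hy
    rcases hg2 y hy with h | h
    · rw [h]; linarith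
    · rw [h, dist_eq_norm]
      rw [dist_eq_norm] at hy
      have : y + j • D.α - x = (y - x) + j • D.α := by abel
      rw [this]
      calc ‖(y - x) + j • D.α‖ ≤ ‖y - x‖ + ‖j • D.α‖ := norm_add_le _ _
        _ < 1 / 8 := by linarith
  -- (i) the point `a` has infinite rotation orbit
  have hinf : ∀ k : ℕ, k ≠ 0 → D.Φ (D.r ^ k) a ≠ a := by
    intro q hq hcon
    obtain ⟨i, -, hi⟩ := exists_nsmul_mem_aux (D.addOrderOf_nsmul_zero hq)
      (O := Metric.ball ((1 / 2 : ℝ) : Circ) (1 / 8)) Metric.isOpen_ball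
      ⟨_, Metric.mem_ball_self (by norm_num)⟩ 0 0
    rw [zero_add, ← mul_smul, mem_ball_iff_norm] at hi
    set Q := i * q with hQ
    have hQa : D.Φ (D.r ^ Q) a = a := by
      have : ∀ i : ℕ, D.Φ (D.r ^ (i * q)) a = a := by
        intro i
        induction i with
        | zero => simp
        | succ i ih => rw [add_mul, one_mul, pow_add, map_mul, Equiv.Perm.mul_apply, hcon, ih]
      exact this i
    have hQn : 3 / 8 < ‖Q • D.α‖ := by
      have h1 := norm_sub_norm_le ((1 / 2 : ℝ) : Circ) (Q • D.α)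
      rw [norm_half] at h1
      rw [norm_sub_rev] at hi
      linarith
    set T : D.H := g * D.r ^ Q * g with hT
    have hTx : D.Φ T (Sum.inl x) = Sum.inl x := by
      rw [hT, map_mul, map_mul, Equiv.Perm.mul_apply, Equiv.Perm.mul_apply, ← ha, hQa, ha, hΦgg]
    obtain ⟨f, hf1, hf2⟩ := d0 hx hρ
    have hTi : ∀ u, dist u x < ρ → ((T⁻¹ : D.H) : Equiv.Perm Circ) u =
        (g : Equiv.Perm Circ) u - Q • D.α ∧ ρ ≤ dist ((g : Equiv.Perm Circ) u - Q • D.α) x := by
      intro u hu
      have h1 := hnear u hu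
      have h2 : 1 / 4 < dist ((g : Equiv.Perm Circ) u - Q • D.α) x := by
        rw [dist_eq_norm] at h1 ⊢
        have e1 : (g : Equiv.Perm Circ) u - Q • D.α - x = -(Q • D.α - ((g : Equiv.Perm Circ) u - x)) := by
          abel
        rw [e1, norm_neg]
        have := norm_sub_norm_le (Q • D.α) ((g : Equiv.Perm Circ) u - x)
        linarith
      refine ⟨?_, by linarith⟩
      rw [hT, mul_inv_rev, mul_inv_rev, hgi]
      simp only [Subgroup.coe_mul, Equiv.Perm.mul_apply]
      rw [D.r_pow_inv_apply, hg1 _ (by linarith)]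
    have hfix := d1 hx (T * f * T⁻¹) hρ (by
      intro u hu
      obtain ⟨h1, h2⟩ := hTi u hu
      simp only [Subgroup.coe_mul, Equiv.Perm.mul_apply]
      rw [h1, hf1 _ h2, ← h1, ← Equiv.Perm.mul_apply, ← Subgroup.coe_mul, mul_inv_cancel]
      rfl)
    rw [map_mul, map_mul, map_inv, Equiv.Perm.mul_apply, Equiv.Perm.mul_apply] at hfix
    have h3 : (D.Φ T)⁻¹ (Sum.inl x) = Sum.inl x := by
      rw [Equiv.Perm.inv_eq_iff_eq, hTx]
    rw [h3] at hfix
    nth_rewrite 2 [← hTx] at hfix
    exact hf2 ((D.Φ T).injective hfix)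
  obtain ⟨y, hy1, hy2⟩ := pos hinf
  by_cases hyx : y = x
  · exact absurd (hy2 (hyx ▸ hx)) (by rw [hyx]; exact hne)
  by_cases hyxt : y = x + j • D.α
  · rw [← hyxt]; exact hy2 (hyxt ▸ hx.add j)
  exfalso
  -- the remaining case
  have hd1 : 0 < dist x y := dist_pos.2 (Ne.symm hyx)
  have hd2 : 0 < dist (x + j • D.α) y := dist_pos.2 (Ne.symm hyxt)
  set ε := min (dist x y) (dist (x + j • D.α) y) / 2 with hε
  have hεpos : 0 < ε := by positivity
  have hε1 : 2 * ε ≤ dist x y := by rw [hε]; linarith [min_le_left (dist x y) (dist (x + j • D.α) y)]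
  have hε2 : 2 * ε ≤ dist (x + j • D.α) y := by
    rw [hε]; linarith [min_le_right (dist x y) (dist (x + j • D.α) y)]
  obtain ⟨f, hf1, hf2⟩ := hy1 ε hεpos
  have hfix := d1 hx (g * f * g) (ε := min ε ρ) (by positivity) (by
    intro u hu
    rw [Metric.mem_ball] at hu
    have hu1 : dist u x < ε := lt_of_lt_of_le hu (min_le_left _ _)
    have hu2 : dist u x < ρ := lt_of_lt_of_le hu (min_le_right _ _)
    simp only [Subgroup.coe_mul, Equiv.Perm.mul_apply]
    have : (f : Equiv.Perm Circ) ((g : Equiv.Perm Circ) u) = (g : Equiv.Perm Circ) u := by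
      apply hf1
      rcases hg2 u hu2 with h | h
      · rw [h]
        have := dist_triangle x u y
        rw [dist_comm x u] at this
        linarith
      · rw [h]
        have := dist_triangle (x + j • D.α) (u + j • D.α) y
        rw [dist_add_right, dist_comm x u] at this
        linarith
    rw [this, hgg])
  rw [map_mul, map_mul, Equiv.Perm.mul_apply, Equiv.Perm.mul_apply, ← ha] at hfix
  apply hf2
  have h4 : D.Φ g (D.Φ g (D.Φ f a)) = D.Φ g (Sum.inl x) := by rw [hfix]
  rw [hΦgg] at h4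
  exact h4

/-- a good center -/
lemma exists_center (D : Setup Y) : ∃ n : ℕ, D.FS (n • D.α) ∧ ∃ σ : D.H,
    (∀ y, (σ : Equiv.Perm Circ) y = n • D.α + n • D.α - y) ∧
    D.Φ σ (Sum.inl (n • D.α)) = Sum.inl (n • D.α) := by
  have hinj : Function.Injective (fun m : ℤ => (Sum.inl (m • D.α) : Circ ⊕ Y)) := by
    intro a b hab
    simp only [Sum.inl.injEq] at hab
    exact D.zsmul_inj hab
  have hf1 := (D.near D.r).preimage (hinj.injOn)
  have hf2 := (D.near D.s).preimage (hinj.injOn)
  obtain ⟨N, hN⟩ := ((hf1.union hf2).image Int.natAbs).bddAbove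
  have hr : ∀ m : ℤ, N < m.natAbs → D.Φ D.r (Sum.inl (m • D.α)) = Sum.inl ((m + 1) • D.α) := by
    intro m hm
    by_contra hne
    have : m.natAbs ≤ N := by
      apply hN
      refine ⟨m, Or.inl ?_, rfl⟩
      show D.Φ D.r (Sum.inl (m • D.α)) ≠ Sum.inl (((D.r : D.H) : Equiv.Perm Circ) (m • D.α))
      have := D.r_pow_apply 1 (m • D.α)
      rw [pow_one, one_smul] at this
      rw [this]
      rw [add_smul, one_smul] at hne
      exact hne
    omega
  have hs : ∀ m : ℤ, N < m.natAbs → D.Φ D.s (Sum.inl (m • D.α)) = Sum.inl ((-m) • D.α) := by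
    intro m hm
    by_contra hne
    have : m.natAbs ≤ N := by
      apply hN
      refine ⟨m, Or.inr ?_, rfl⟩
      show D.Φ D.s (Sum.inl (m • D.α)) ≠ Sum.inl (((D.s : D.H) : Equiv.Perm Circ) (m • D.α))
      have : ((D.s : D.H) : Equiv.Perm Circ) (m • D.α) = - (m • D.α) := rfl
      rw [this]
      rw [neg_smul] at hne
      exact hne
    omega
  set n := N + 1 with hn
  have hFS : D.FS (n • D.α) := by
    intro k
    induction k with
    | zero => simp
    | succ k ih =>
      rw [pow_succ', map_mul, Equiv.Perm.mul_apply, ih]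
      have h1 := hr (n + k : ℕ) (by omega)
      rw [natCast_zsmul, add_smul] at h1
      rw [h1]
      congr 1
      have e1 : ((n + k : ℕ) : ℤ) + 1 = ((n + (k + 1) : ℕ) : ℤ) := by push_cast; ring
      rw [e1, natCast_zsmul, add_smul]
  -- backward orbit of -n
  have hback : ∀ k : ℕ, D.Φ ((D.r ^ k)⁻¹) (Sum.inl ((-(n : ℤ)) • D.α)) =
      Sum.inl ((-(n : ℤ) - k) • D.α) := by
    intro k
    induction k with
    | zero => simp
    | succ k ih =>
      have e : (D.r ^ (k + 1))⁻¹ = D.r⁻¹ * (D.r ^ k)⁻¹ := by rw [pow_succ]; group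
      rw [e, map_mul, Equiv.Perm.mul_apply, ih, map_inv, Equiv.Perm.inv_eq_iff_eq]
      have h1 := hr (-(n : ℤ) - (k + 1 : ℕ)) (by omega)
      rw [h1]
      congr 2
      push_cast; ring
  set z0 : Circ ⊕ Y := Sum.inl ((-(n : ℤ)) • D.α) with hz0
  have hz0inf : ∀ k : ℕ, k ≠ 0 → D.Φ (D.r ^ k) z0 ≠ z0 := by
    intro k hk hcon
    have h1 : z0 = D.Φ ((D.r ^ k)⁻¹) z0 := by
      rw [map_inv, Equiv.Perm.eq_inv_iff_eq]; exact hcon
    rw [hz0, hback k, Sum.inl.injEq] at h1
    have := D.zsmul_inj h1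
    omega
  let σ : D.H := D.r ^ (n + n) * D.s
  have hσ : ∀ y, (σ : Equiv.Perm Circ) y = n • D.α + n • D.α - y := by
    intro y
    show ((D.r ^ (n + n) : D.H) : Equiv.Perm Circ) (-y) = _
    rw [D.r_pow_apply, add_smul]; abel
  have hσσ : ∀ y, (σ : Equiv.Perm Circ) ((σ : Equiv.Perm Circ) y) = y := by
    intro y; rw [hσ, hσ]; abel
  refine ⟨n, hFS, σ, hσ, ?_⟩
  set z' := D.Φ σ (Sum.inl (n • D.α)) with hz'
  have hz'eq : z' = D.Φ (D.r ^ (n + n)) z0 := by
    rw [hz', hz0]
    have h1 := hs n (by omega)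
    rw [natCast_zsmul] at h1
    rw [← h1, ← Equiv.Perm.mul_apply, ← map_mul]
  have hz'inf : ∀ k : ℕ, k ≠ 0 → D.Φ (D.r ^ k) z' ≠ z' := by
    intro k hk hcon
    rw [hz'eq, ← Equiv.Perm.mul_apply, ← map_mul, ← pow_add, add_comm, pow_add, map_mul,
      Equiv.Perm.mul_apply] at hcon
    exact hz0inf k hk ((D.Φ (D.r ^ (n + n))).injective hcon)
  obtain ⟨y, hy1, hy2⟩ := pos hz'inf
  by_cases hyx : y = n • D.α
  · rw [← hyx]; exact hy2 (hyx ▸ hFS)
  exfalso
  have hd1 : 0 < dist (n • D.α) y := dist_pos.2 (Ne.symm hyx)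
  obtain ⟨f, hf1, hf2⟩ := hy1 (dist (n • D.α) y / 2) (by positivity)
  have hfix := d1 hFS (σ⁻¹ * f * σ) (ε := dist (n • D.α) y / 2) (by positivity) (by
    intro u hu
    rw [Metric.mem_ball] at hu
    simp only [Subgroup.coe_mul, Equiv.Perm.mul_apply]
    have hdist : dist ((σ : Equiv.Perm Circ) u) (n • D.α) = dist u (n • D.α) := by
      rw [hσ, dist_eq_norm, dist_eq_norm]
      have : n • D.α + n • D.α - u - n • D.α = -(u - n • D.α) := by abel
      rw [this, norm_neg]
    have : (f : Equiv.Perm Circ) ((σ : Equiv.Perm Circ) u) = (σ : Equiv.Perm Circ) u := by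
      apply hf1
      have := dist_triangle (n • D.α) ((σ : Equiv.Perm Circ) u) y
      rw [dist_comm (n • D.α) ((σ : Equiv.Perm Circ) u), hdist] at this
      linarith
    rw [this]
    exact inv_apply_self' _ _)
  rw [map_mul, map_mul, map_inv, Equiv.Perm.mul_apply, Equiv.Perm.mul_apply,
    Equiv.Perm.inv_eq_iff_eq, ← hz'] at hfix
  exact hf2 hfix

/-- The contradiction. -/
theorem false_of_setup (D : Setup Y) : False := by
  obtain ⟨n, hFS, σ, hσ, hσx⟩ := D.exists_center
  set x := n • D.α with hx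
  have hxz : x ∈ AddSubgroup.zmultiples D.α :=
    AddSubgroup.nsmul_mem _ (AddSubgroup.mem_zmultiples _) _
  obtain ⟨j, hj, hj0, hj1⟩ := D.exists_small (ε := 1 / 16) (by norm_num) 1
  have hjne : j ≠ 0 := by omega
  set t := j • D.α with ht
  have htz : t ∈ AddSubgroup.zmultiples D.α :=
    AddSubgroup.nsmul_mem _ (AddSubgroup.mem_zmultiples _) _
  have htt : 0 < ‖t + t‖ := by
    rw [norm_pos_iff, ht, ← add_smul]
    exact D.nsmul_ne_zero (by omega)
  obtain ⟨m, -, hm0, hm2⟩ := D.exists_small (ε := min ‖t‖ ‖t + t‖ / 2) (by positivity) 0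
  set ρ := ‖m • D.α‖ with hρ
  have hm1 : ρ < ‖t‖ / 2 := by linarith [min_le_left ‖t‖ ‖t + t‖]
  have hm3 : ρ < ‖t + t‖ / 2 := by linarith [min_le_right ‖t‖ ‖t + t‖]
  have h2ρ : 2 * ρ ≤ ‖t‖ := by linarith
  have hρ16 : ρ < 1 / 16 := by linarith
  -- the half swaps
  have hdj : ∀ e : ℤ, ∀ y ∈ halfBall x ρ e, y + t ∉ halfBall x ρ e := by
    intro e y hy hy'
    exact add_notMem_ball h2ρ y (halfBall_subset hy) (halfBall_subset hy')
  let F : ∀ e : ℤ, (e = 1 ∨ e = -1) → D.H := fun e he =>
    ⟨swp (halfBall x ρ e) t (hdj e), D.halfBall_swp_mem hxz htz (by linarith) he (hdj e)⟩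
  have hFF : ∀ e he, F e he * F e he = 1 := by
    intro e he
    apply Subtype.ext
    ext y
    exact swp_swp (hdj e) y
  have hnotadd : ∀ y, dist y x < ρ → y - t ∉ Metric.ball x ρ := by
    intro y hy hy'
    have := add_notMem_ball h2ρ _ hy'
    rw [sub_add_cancel] at this
    exact this hy
  have hnear : ∀ e he y, dist y x < ρ → ((F e he : D.H) : Equiv.Perm Circ) y = y ∨
      ((F e he : D.H) : Equiv.Perm Circ) y = y + t := by
    intro e he y hy
    by_cases h : y ∈ halfBall x ρ e
    · right; exact IET.swp_mem (hdj e) h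
    · left
      apply swp_not (hdj e) h
      intro h'
      exact hnotadd y hy (halfBall_subset h')
  have hfar : ∀ e he y, 1 / 8 ≤ dist y x → ((F e he : D.H) : Equiv.Perm Circ) y = y := by
    intro e he y hy
    apply swp_not (hdj e)
    · intro h
      have := halfBall_subset h
      rw [Metric.mem_ball] at this
      linarith
    · intro h
      have := halfBall_subset h
      rw [Metric.mem_ball, dist_eq_norm] at this
      rw [dist_eq_norm] at hy
      have e1 : y - x = (y - t - x) + t := by abel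
      rw [e1] at hy
      have := norm_add_le (y - t - x) t
      linarith
  have hC1 : ∀ e he, D.Φ (F e he) (Sum.inl x) ≠ Sum.inl x →
      D.Φ (F e he) (Sum.inl x) = Sum.inl (x + t) := by
    intro e he hne
    exact C1 hFS (F e he) hm0 hρ16 hj1 (hFF e he) (hfar e he) (hnear e he) hne
  -- the full swap
  let G : D.H := ⟨swp (Metric.ball x ρ) t (add_notMem_ball h2ρ), D.ball_swp_mem hxz htz h2ρ⟩
  have hG : D.Φ G (Sum.inl x) = Sum.inl (x + t) := by
    apply d0' hFS hjne
    filter_upwards [Metric.isOpen_ball.mem_nhds (Metric.mem_ball_self (x := x) hm0)] with y hy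
    exact IET.swp_mem (add_notMem_ball h2ρ) hy
  have he1 : (1 : ℤ) = 1 ∨ (1 : ℤ) = -1 := Or.inl rfl
  have he2 : (-1 : ℤ) = 1 ∨ (-1 : ℤ) = -1 := Or.inr rfl
  have hprod : D.Φ G = D.Φ (F 1 he1) * D.Φ (F (-1) he2) := by
    have h1 : D.Φ (G⁻¹ * (F 1 he1 * F (-1) he2)) = 1 := by
      apply D.triv
      apply (Set.toFinite ({x, x + t} : Set Circ)).subset
      intro y hy
      by_contra hny
      simp only [mem_insert_iff, mem_singleton_iff, not_or] at hny
      apply hy
      simp only [Subgroup.coe_mul, Equiv.Perm.mul_apply, InvMemClass.coe_inv]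
      rw [Equiv.Perm.inv_eq_iff_eq]
      show swp (halfBall x ρ 1) t (hdj 1) (swp (halfBall x ρ (-1)) t (hdj (-1)) y) =
        swp (Metric.ball x ρ) t (add_notMem_ball h2ρ) y
      by_cases hb : y ∈ Metric.ball x ρ
      · rw [IET.swp_mem (add_notMem_ball h2ρ) hb]
        rcases halfBall_cover (by linarith) hb hny.1 with h | h
        · rw [swp_not (hdj (-1)) (halfBall_disj h), IET.swp_mem (hdj 1) h]
          intro h'
          exact hnotadd y hb (halfBall_subset h')
        · rw [IET.swp_mem (hdj (-1)) h, swp_not (hdj 1)]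
          · intro h'
            exact add_notMem_ball h2ρ y hb (halfBall_subset h')
          · rw [add_sub_cancel_right]
            intro h'
            exact halfBall_disj h' h
      · by_cases hb' : y - t ∈ Metric.ball x ρ
        · rw [IET.swp_sub_mem (add_notMem_ball h2ρ) hb']
          have hne : y - t ≠ x := by
            intro h
            apply hny.2
            rw [← h]; abel
          rcases halfBall_cover (by linarith) hb' hne with h | h
          · have h5 : y ∉ halfBall x ρ (-1) := fun h' => hb (halfBall_subset h')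
            rw [swp_not (hdj (-1)) h5 (halfBall_disj h), IET.swp_sub_mem (hdj 1) h]
          · rw [IET.swp_sub_mem (hdj (-1)) h, swp_not (hdj 1)]
            · intro h'
              exact halfBall_disj h' h
            · intro h'
              have h6 := halfBall_subset h'
              have h7 := add_notMem_ball h2ρ _ h6
              rw [sub_add_cancel] at h7
              exact h7 hb'
        · have h1 : ∀ e, y ∉ halfBall x ρ e := fun e h => hb (halfBall_subset h)
          have h2 : ∀ e, y - t ∉ halfBall x ρ e := fun e h => hb' (halfBall_subset h)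
          rw [swp_not (hdj (-1)) (h1 _) (h2 _), swp_not (hdj 1) (h1 _) (h2 _),
            swp_not _ hb hb']
    rw [map_mul, map_inv, map_mul, inv_mul_eq_one] at h1
    exact h1
  have hxt : (Sum.inl (x + t) : Circ ⊕ Y) ≠ Sum.inl x := by
    intro h
    simp only [Sum.inl.injEq, add_eq_left] at h
    exact D.nsmul_ne_zero hjne h
  -- Claim 3: one moves iff the other moves
  let U : D.H := σ * F 1 he1 * σ⁻¹
  have hUmove : D.Φ U (Sum.inl x) = Sum.inl x ↔ D.Φ (F 1 he1) (Sum.inl x) = Sum.inl x := by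
    have h1 : (D.Φ σ)⁻¹ (Sum.inl x) = Sum.inl x := by rw [Equiv.Perm.inv_eq_iff_eq, hσx]
    show D.Φ (σ * F 1 he1 * σ⁻¹) (Sum.inl x) = Sum.inl x ↔ _
    rw [map_mul, map_mul, map_inv, Equiv.Perm.mul_apply, Equiv.Perm.mul_apply, h1]
    constructor
    · intro h
      nth_rewrite 2 [← hσx] at h
      exact (D.Φ σ).injective h
    · intro h
      rw [h, hσx]
  -- the element τ
  let B : Set Circ := (fun y => y + t) ⁻¹' halfBall x ρ (-1)
  have hBdj : ∀ y ∈ B, y + (t + t) ∉ B := by
    intro y hy hy'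
    have h1 : y + t ∈ Metric.ball x ρ := halfBall_subset hy
    have h2 : y + (t + t) + t ∈ Metric.ball x ρ := halfBall_subset hy'
    rw [mem_ball_iff_norm] at h1 h2
    have e1 : t + t = (y + (t + t) + t - x) - (y + t - x) := by abel
    have h3 : ‖t + t‖ < 2 * ρ := by
      calc ‖t + t‖ = ‖(y + (t + t) + t - x) - (y + t - x)‖ := by rw [← e1]
        _ ≤ ‖y + (t + t) + t - x‖ + ‖y + t - x‖ := norm_sub_le _ _
        _ < 2 * ρ := by linarith
    linarith
  have hBfr : frontier B ⊆ (fun y => y + t) ⁻¹' (frontier (halfBall x ρ (-1))) :=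
    (continuous_add_const t).frontier_preimage_subset _
  have hfrm : frontier (halfBall x ρ (-1)) ⊆ {x, x + m • D.α, x - m • D.α} :=
    frontier_halfBall (by linarith) he2
  have hmz : m • D.α ∈ AddSubgroup.zmultiples D.α :=
    AddSubgroup.nsmul_mem _ (AddSubgroup.mem_zmultiples _) _
  have hBH : swp B (t + t) hBdj ∈ D.H := by
    apply D.swp_mem _ _ _ (add_mem htz htz)
    · exact (((Set.toFinite _).subset hfrm).preimage (add_left_injective t).injOn).subset hBfr
    · intro y hy
      have h1 := hfrm (hBfr hy)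
      have h2 : y + t ∈ AddSubgroup.zmultiples D.α := by
        rcases h1 with h | h | h
        · have h' : y + t = x := h
          rw [h']; exact hxz
        · have h' : y + t = x + m • D.α := h
          rw [h']; exact add_mem hxz hmz
        · have h' : y + t = x - m • D.α := h
          rw [h']; exact sub_mem hxz hmz
      have h3 := sub_mem h2 htz
      rwa [add_sub_cancel_right] at h3
  let τ : D.H := ⟨swp B (t + t) hBdj, hBH⟩
  have hτx : D.Φ τ (Sum.inl x) = Sum.inl x := by
    apply d1 hFS τ hm0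
    intro y hy
    apply swp_not hBdj
    · intro h
      exact add_notMem_ball h2ρ y hy (halfBall_subset h)
    · intro h
      have h' : y - (t + t) + t ∈ Metric.ball x ρ := halfBall_subset h
      have e1 : y - (t + t) + t = y - t := by abel
      rw [e1] at h'
      exact hnotadd y hy h'
  have hU : ∀ y, (U : Equiv.Perm Circ) y = x + x - swp (halfBall x ρ 1) t (hdj 1) (x + x - y) := by
    intro y
    show (σ : Equiv.Perm Circ) (swp (halfBall x ρ 1) t (hdj 1) ((σ : Equiv.Perm Circ)⁻¹ y)) = _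
    have : (σ : Equiv.Perm Circ)⁻¹ y = x + x - y := by
      rw [Equiv.Perm.inv_eq_iff_eq, hσ]; abel
    rw [this, hσ]
  -- the action of `U`
  have hU1 : ∀ y ∈ halfBall x ρ (-1), (U : Equiv.Perm Circ) y = y - t := by
    intro y hy
    rw [hU, IET.swp_mem (hdj 1) (halfBall_refl.2 hy)]; abel
  have hU2 : ∀ y, y + t ∈ halfBall x ρ (-1) → (U : Equiv.Perm Circ) y = y + t := by
    intro y hy
    have h1 : x + x - y - t ∈ halfBall x ρ 1 := by
      have : x + x - y - t = x + x - (y + t) := by abel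
      rw [this]; exact halfBall_refl.2 hy
    rw [hU, IET.swp_sub_mem (hdj 1) h1]; abel
  have hU3 : ∀ y, y ∉ halfBall x ρ (-1) → y + t ∉ halfBall x ρ (-1) →
      (U : Equiv.Perm Circ) y = y := by
    intro y hy hy'
    have h1 : x + x - y - t ∉ halfBall x ρ 1 := by
      have : x + x - y - t = x + x - (y + t) := by abel
      rw [this]; exact fun h => hy' (halfBall_refl.1 h)
    rw [hU, IET.swp_not (hdj 1) (fun h => hy (halfBall_refl.1 h)) h1]; abel
  have hττ : ∀ y, (τ : Equiv.Perm Circ) ((τ : Equiv.Perm Circ) y) = y := swp_swp hBdj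
  have hτ0 : ∀ y, y ∈ Metric.ball x ρ → (τ : Equiv.Perm Circ) y = y := by
    intro y hy
    apply swp_not hBdj
    · intro h
      exact add_notMem_ball h2ρ y hy (halfBall_subset h)
    · intro h
      have h' : y - (t + t) + t ∈ Metric.ball x ρ := halfBall_subset h
      have e1 : y - (t + t) + t = y - t := by abel
      rw [e1] at h'
      exact hnotadd y hy h'
  have hconj : τ * U * τ = F (-1) he2 := by
    apply Subtype.ext
    ext y
    show (τ : Equiv.Perm Circ) ((U : Equiv.Perm Circ) ((τ : Equiv.Perm Circ) y)) =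
      swp (halfBall x ρ (-1)) t (hdj (-1)) y
    by_cases h1 : y ∈ halfBall x ρ (-1)
    · rw [IET.swp_mem (hdj (-1)) h1, hτ0 y (halfBall_subset h1), hU1 y h1]
      have h2 : y - t ∈ B := by
        show y - t + t ∈ halfBall x ρ (-1)
        rwa [sub_add_cancel]
      show swp B (t + t) hBdj (y - t) = y + t
      rw [IET.swp_mem hBdj h2]; abel
    · by_cases h2 : y - t ∈ halfBall x ρ (-1)
      · rw [IET.swp_sub_mem (hdj (-1)) h2]
        have h3 : y - (t + t) ∈ B := by
          show y - (t + t) + t ∈ halfBall x ρ (-1)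
          have e1 : y - (t + t) + t = y - t := by abel
          rwa [e1]
        have h4 : (τ : Equiv.Perm Circ) y = y - (t + t) := IET.swp_sub_mem hBdj h3
        have h5 : (U : Equiv.Perm Circ) (y - (t + t)) = y - (t + t) + t := hU2 _ h3
        have e1 : y - (t + t) + t = y - t := by abel
        rw [h4, h5, e1, hτ0 _ (halfBall_subset h2)]
      · rw [IET.swp_not (hdj (-1)) h1 h2]
        have h2B : y - (t + t) ∉ B := by
          intro h3
          have h3' : y - (t + t) + t ∈ halfBall x ρ (-1) := h3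
          have e1 : y - (t + t) + t = y - t := by abel
          rw [e1] at h3'
          exact h2 h3'
        by_cases h3 : y ∈ B
        · have h4 : (τ : Equiv.Perm Circ) y = y + (t + t) := IET.swp_mem hBdj h3
          have h5 : (U : Equiv.Perm Circ) (y + (t + t)) = y + (t + t) := by
            apply hU3
            · intro h
              have h6 := hdj (-1) (y + t) h3
              have e1 : y + t + t = y + (t + t) := by abel
              rw [e1] at h6
              exact h6 h
            · exact hBdj y h3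
          rw [h4, h5, ← h4, hττ]
        · have h4 : (τ : Equiv.Perm Circ) y = y := IET.swp_not hBdj h3 h2B
          rw [h4, hU3 y h1 h3, h4]
  have hFU : D.Φ (F (-1) he2) (Sum.inl x) = Sum.inl x ↔ D.Φ U (Sum.inl x) = Sum.inl x := by
    rw [← hconj, map_mul, map_mul, Equiv.Perm.mul_apply, Equiv.Perm.mul_apply, hτx]
    constructor
    · intro h
      nth_rewrite 2 [← hτx] at h
      exact (D.Φ τ).injective h
    · intro h
      rw [h, hτx]
  rw [hprod, Equiv.Perm.mul_apply] at hG
  by_cases hmv : D.Φ (F (-1) he2) (Sum.inl x) = Sum.inl x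
  · have h1 : D.Φ (F 1 he1) (Sum.inl x) = Sum.inl x := hUmove.1 (hFU.1 hmv)
    rw [hmv, h1] at hG
    exact hxt hG.symm
  · have h1 : D.Φ (F 1 he1) (Sum.inl x) ≠ Sum.inl x := fun h => hmv (hFU.2 (hUmove.2 h))
    have h2 := hC1 1 he1 h1
    have h3 := hC1 (-1) he2 hmv
    have h4 : D.Φ (F 1 he1) (D.Φ (F 1 he1) (Sum.inl x)) = Sum.inl x := by
      rw [← Equiv.Perm.mul_apply, ← map_mul, hFF 1 he1, map_one]; rfl
    rw [h2] at h4
    rw [h3, h4] at hG
    exact hxt hG.symm

end Setup

end Pool.Agent.H8.IET
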