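import Mathlib

/-!
# Piecewise continuous permutations of the circle, near actions and realizability

Definitions for problem `MP_ad338c_an`:

* `Circ`      : the circle `S = ℝ/ℤ`;
* `PChat`     : the group of permutations of `S` that are continuous outside a finite subset;
* `finPerm`   : its normal subgroup of finitely supported permutations;
* `PC`, `toPC`: the quotient group and the quotient map;
* `IETflip Λ` : the subgroup of `PC` of elements represented by a permutation that, off a finite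
                subset of `Λ`, is locally of the form `x ↦ ± x + l` with `l ∈ Λ`;
* `Realizable`, `StablyRealizable` : the two notions of the problem.
-/

open Topology Filter Set

namespace Pool.Agent.H8.IET

universe u

/-- The circle `S = ℝ/ℤ`. -/
abbrev Circ : Type := AddCircle (1 : ℝ)

/-! ### Auxiliary facts on the circle -/

lemma coe_ne_zero_of_lt_one {u : ℝ} (h0 : 0 < u) (h1 : u < 1) : (u : Circ) ≠ 0 := by
  intro h
  have := (AddCircle.coe_eq_zero_iff_of_mem_Ico (p := (1 : ℝ)) (a := u) ⟨h0.le, h1⟩).1 h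
  linarith

lemma coe_injOn {a : ℝ} {δ : ℝ} (hδ : 2 * δ < 1) :
    InjOn (fun u : ℝ => (u : Circ)) (Icc (a - δ) (a + δ)) := by
  intro u hu v hv huv
  by_contra hne
  have huv' : ((u : ℝ) : Circ) = ((v : ℝ) : Circ) := huv
  rcases lt_or_gt_of_ne hne with h | h
  · apply coe_ne_zero_of_lt_one (u := v - u) (by linarith) (by linarith [hu.1, hv.2])
    rw [AddCircle.coe_sub, huv', sub_self]
  · apply coe_ne_zero_of_lt_one (u := u - v) (by linarith) (by linarith [hv.1, hu.2])
    rw [AddCircle.coe_sub, huv', sub_self]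

/-- One-dimensional invariance of domain on the circle, at a point. -/
lemma image_mem_nhds_of_injective {f : Circ → Circ} (hf : Function.Injective f) {F : Set Circ}
    (hF : F.Finite) (hc : ∀ x ∉ F, ContinuousAt f x) {x : Circ} (hx : x ∉ F) {N : Set Circ}
    (hN : N ∈ 𝓝 x) : f '' N ∈ 𝓝 (f x) := by
  obtain ⟨a, rfl⟩ := QuotientAddGroup.mk_surjective x
  obtain ⟨b, hb⟩ := QuotientAddGroup.mk_surjective (f (a : Circ))
  let e := AddCircle.openPartialHomeomorphCoe (1 : ℝ) (b - 1 / 2)
  have hbs : b ∈ e.source := by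
    show b ∈ Ioo (b - 1 / 2) (b - 1 / 2 + 1)
    constructor <;> linarith
  have heb : e b = f (a : Circ) := hb
  have hbt : f (a : Circ) ∈ e.target := by rw [← heb]; exact e.map_source hbs
  have hcoe : Continuous (fun u : ℝ => (u : Circ)) := AddCircle.continuous_mk' 1
  -- a small interval around `a`
  have hev : ∀ᶠ u : ℝ in 𝓝 a, (u : Circ) ∉ F ∧ f (u : Circ) ∈ e.target ∧ (u : Circ) ∈ N := by
    have h1 : ∀ᶠ y in 𝓝 (a : Circ), y ∉ F := hF.isClosed.isOpen_compl.mem_nhds hx
    have h2 : ∀ᶠ y in 𝓝 (a : Circ), f y ∈ e.target :=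
      (hc _ hx).eventually (e.open_target.mem_nhds hbt)
    have h3 : ∀ᶠ y in 𝓝 (a : Circ), y ∈ N := hN
    exact (hcoe.tendsto a).eventually (h1.and (h2.and h3))
  obtain ⟨δ', hδ', hball⟩ := Metric.eventually_nhds_iff_ball.1 hev
  set δ := min (δ' / 2) (1 / 4) with hδ
  have hδ0 : 0 < δ := by positivity
  have hδ1 : δ < δ' := by
    have := min_le_left (δ' / 2) (1 / 4)
    linarith
  have hδ2 : 2 * δ < 1 := by
    have := min_le_right (δ' / 2) (1 / 4 : ℝ)
    linarith
  have hin : ∀ u ∈ Icc (a - δ) (a + δ),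
      (u : Circ) ∉ F ∧ f (u : Circ) ∈ e.target ∧ (u : Circ) ∈ N := by
    intro u hu
    apply hball
    rw [Metric.mem_ball, Real.dist_eq, abs_lt]
    constructor <;> linarith [hu.1, hu.2]
  let g : ℝ → ℝ := fun u => e.symm (f (u : Circ))
  have heg : ∀ u ∈ Icc (a - δ) (a + δ), ((g u : ℝ) : Circ) = f (u : Circ) := by
    intro u hu
    exact e.right_inv (hin u hu).2.1
  have hgc : ContinuousOn g (Icc (a - δ) (a + δ)) := by
    intro u hu
    apply ContinuousAt.continuousWithinAt
    apply ContinuousAt.comp (g := e.symm) (f := fun u : ℝ => f (u : Circ))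
    · exact e.symm.continuousAt (hin u hu).2.1
    · exact ContinuousAt.comp (g := f) (f := fun u : ℝ => (u : Circ)) (hc _ (hin u hu).1)
        hcoe.continuousAt
  have hgi : InjOn g (Icc (a - δ) (a + δ)) := by
    intro u hu v hv huv
    have h1 : f (u : Circ) = f (v : Circ) := by rw [← heg u hu, ← heg v hv, huv]
    exact coe_injOn hδ2 hu hv (hf h1)
  have haI : a ∈ Icc (a - δ) (a + δ) := ⟨by linarith, by linarith⟩
  have hlI : a - δ ∈ Icc (a - δ) (a + δ) := ⟨by linarith, by linarith⟩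
  have hrI : a + δ ∈ Icc (a - δ) (a + δ) := ⟨by linarith, by linarith⟩
  have hga : g a = b := by
    show e.symm (f (a : Circ)) = b
    rw [← heb]; exact e.left_inv hbs
  have himg : g '' Icc (a - δ) (a + δ) ∈ 𝓝 b := by
    rcases hgc.strictMonoOn_of_injOn_Icc' (by linarith) hgi with hm | hm
    · have h1 := hm hlI haI (by linarith)
      have h2 := hm haI hrI (by linarith)
      rw [hga] at h1 h2
      exact mem_of_superset (Icc_mem_nhds h1 h2) (intermediate_value_Icc (by linarith) hgc)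
    · have h1 := hm hlI haI (by linarith)
      have h2 := hm haI hrI (by linarith)
      rw [hga] at h1 h2
      exact mem_of_superset (Icc_mem_nhds h2 h1) (intermediate_value_Icc' (by linarith) hgc)
  have h3 : (fun u : ℝ => (u : Circ)) '' (g '' Icc (a - δ) (a + δ)) ∈ 𝓝 (b : Circ) :=
    QuotientAddGroup.isOpenMap_coe.image_mem_nhds himg
  have hb' : (b : Circ) = f (a : Circ) := hb
  rw [hb'] at h3
  refine mem_of_superset h3 ?_
  rintro _ ⟨_, ⟨u, hu, rfl⟩, rfl⟩
  exact ⟨(u : Circ), (hin u hu).2.2, (heg u hu).symm⟩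

/-! ### The group `PC^(S)` and its quotient `PC(S)` -/

/-- A self-map of the circle that is continuous outside a finite subset. -/
def PiecewiseContinuous (f : Circ → Circ) : Prop :=
  ∃ F : Set Circ, F.Finite ∧ ∀ x ∉ F, ContinuousAt f x

lemma PiecewiseContinuous.one : PiecewiseContinuous (1 : Equiv.Perm Circ) :=
  ⟨∅, finite_empty, fun _ _ => continuousAt_id⟩

lemma PiecewiseContinuous.mul {f g : Equiv.Perm Circ} (hf : PiecewiseContinuous f)
    (hg : PiecewiseContinuous g) : PiecewiseContinuous (f * g : Equiv.Perm Circ) := by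
  obtain ⟨F, hF, hf⟩ := hf
  obtain ⟨G, hG, hg⟩ := hg
  refine ⟨G ∪ g ⁻¹' F, hG.union (hF.preimage g.injective.injOn), fun x hx => ?_⟩
  rw [mem_union, not_or] at hx
  exact ContinuousAt.comp (g := f) (f := g) (hf _ hx.2) (hg x hx.1)

lemma PiecewiseContinuous.inv {f : Equiv.Perm Circ} (hf : PiecewiseContinuous f) :
    PiecewiseContinuous (f⁻¹ : Equiv.Perm Circ) := by
  obtain ⟨F, hF, hf⟩ := hf
  refine ⟨f '' F, hF.image f, fun y hy => ?_⟩
  have hx : f⁻¹ y ∉ F := fun h => hy ⟨f⁻¹ y, h, f.apply_symm_apply y⟩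
  intro N hN
  have h1 := image_mem_nhds_of_injective f.injective hF hf hx hN
  have h2 : f (f⁻¹ y) = y := f.apply_symm_apply y
  rw [h2] at h1
  refine mem_map.2 (mem_of_superset h1 ?_)
  rintro _ ⟨x, hx, rfl⟩
  show f⁻¹ (f x) ∈ N
  have h3 : f⁻¹ (f x) = x := f.symm_apply_apply x
  rwa [h3]

/-- The permutations of `S = ℝ/ℤ` that are continuous outside a finite subset, as a subgroup of
the group of all permutations of `S`. -/
def pcSubgroup : Subgroup (Equiv.Perm Circ) where
  carrier := {f | PiecewiseContinuous f}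
  one_mem' := PiecewiseContinuous.one
  mul_mem' := PiecewiseContinuous.mul
  inv_mem' := PiecewiseContinuous.inv

/-- `PC^(S)`: the group of permutations of `S = ℝ/ℤ` that are continuous outside a finite
subset. -/
def PChat : Type := pcSubgroup

/-- The group structure of `PC^(S)` (composition of permutations). -/
instance instGroupPChat : Group PChat := Subgroup.toGroup pcSubgroup

/-- The permutation of `S` underlying an element of `PC^(S)`. -/
def PChat.toPerm (f : PChat) : Equiv.Perm Circ := Subtype.val f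

lemma PChat.toPerm_one : (1 : PChat).toPerm = 1 := rfl

lemma PChat.toPerm_mul (f g : PChat) : (f * g).toPerm = f.toPerm * g.toPerm := rfl

lemma PChat.toPerm_inv (f : PChat) : (f⁻¹).toPerm = f.toPerm⁻¹ := rfl

/-- The element of `PC^(S)` given by a permutation. -/
def PChat.mk (f : Equiv.Perm Circ) (hf : f ∈ pcSubgroup) : PChat := (⟨f, hf⟩ : pcSubgroup)

/-- A permutation in `PC^(S)` is finitely supported. -/
def FinSupp (f : PChat) : Prop := {x | f.toPerm x ≠ x}.Finite

lemma FinSupp.one : FinSupp 1 := by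
  show {x | (1 : PChat).toPerm x ≠ x}.Finite
  rw [PChat.toPerm_one]
  simp

lemma FinSupp.mul {f g : PChat} (hf : FinSupp f) (hg : FinSupp g) : FinSupp (f * g) := by
  refine (Set.Finite.union hf hg).subset fun x hx => ?_
  by_contra hcon
  simp only [mem_union, mem_ofPred_eq, not_or, not_not] at hcon
  apply hx
  show f.toPerm (g.toPerm x) = x
  rw [hcon.2, hcon.1]

lemma FinSupp.inv {f : PChat} (hf : FinSupp f) : FinSupp f⁻¹ := by
  refine Set.Finite.subset hf fun x hx h => hx ?_
  show f.toPerm⁻¹ x = x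
  rw [Equiv.Perm.inv_eq_iff_eq, h]

/-- The normal subgroup of finitely supported permutations. -/
def finPerm : Subgroup PChat where
  carrier := {f | FinSupp f}
  one_mem' := FinSupp.one
  mul_mem' := FinSupp.mul
  inv_mem' := FinSupp.inv

lemma FinSupp.conj {f : PChat} (hf : FinSupp f) (g : PChat) : FinSupp (g * f * g⁻¹) := by
  refine (Set.Finite.preimage (g.toPerm⁻¹.injective.injOn) hf).subset fun x hx h => hx ?_
  show g.toPerm (f.toPerm (g.toPerm⁻¹ x)) = x
  have h2 : f.toPerm (g.toPerm⁻¹ x) = g.toPerm⁻¹ x := h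
  rw [h2]
  exact g.toPerm.apply_symm_apply x

instance finPerm_normal : finPerm.Normal := ⟨fun _ hf g => FinSupp.conj hf g⟩

/-- `PC(S) = PC^(S) / S_fin(S)`. -/
def PC : Type := PChat ⧸ finPerm

/-- The group structure of the quotient `PC(S)`. -/
instance instGroupPC : Group PC := QuotientGroup.Quotient.group finPerm

/-- The quotient map `PC^(S) → PC(S)`. -/
def toPC : PChat →* PC := QuotientGroup.mk' finPerm

/-! ### Interval exchanges with flips over `Λ` -/

/-- Off a finite subset of `Λ`, the map `f` is locally of the form `x ↦ ± x + l` with `l ∈ Λ`. -/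
def IsFlipExchange (Λ : AddSubgroup Circ) (f : Circ → Circ) : Prop :=
  ∃ F : Set Circ, F.Finite ∧ F ⊆ Λ ∧ ∀ x ∉ F, ∃ l ∈ Λ,
    (∀ᶠ y in 𝓝 x, f y = y + l) ∨ (∀ᶠ y in 𝓝 x, f y = -y + l)

lemma coe_continuous : Continuous (fun u : ℝ => (u : Circ)) := AddCircle.continuous_mk' 1

/-- On an interval, a map that is locally `± x + l` is globally so. -/
lemma const_on_Ioo {Λ : AddSubgroup Circ} {b c : ℝ} (hbc : b < c) {G : ℝ → Circ}
    (hG : ∀ u ∈ Ioo b c, ∃ l ∈ Λ,
      (∀ᶠ v : ℝ in 𝓝 u, G v = (v : Circ) + l) ∨ (∀ᶠ v : ℝ in 𝓝 u, G v = -(v : Circ) + l)) :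
    ∃ l ∈ Λ, (∀ u ∈ Ioo b c, G u = (u : Circ) + l) ∨ (∀ u ∈ Ioo b c, G u = -(u : Circ) + l) := by
  -- the open sets where the local form is given
  let V : ℤ → Circ → Set ℝ := fun e l => {u | ∀ᶠ v : ℝ in 𝓝 u, G v = e • (v : Circ) + l}
  have hVo : ∀ e l, IsOpen (V e l) := fun e l => isOpen_setOfPred_eventually_nhds
  have hV : ∀ u ∈ Ioo b c, ∃ e : ℤ, (e = 1 ∨ e = -1) ∧ ∃ l ∈ Λ, u ∈ V e l := by
    intro u hu
    obtain ⟨l, hl, h | h⟩ := hG u hu
    · exact ⟨1, Or.inl rfl, l, hl, by simpa [V] using h⟩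
    · exact ⟨-1, Or.inr rfl, l, hl, by simpa [V] using h⟩
  have hdisj : ∀ e e' : ℤ, (e = 1 ∨ e = -1) → (e' = 1 ∨ e' = -1) → ∀ l l' u,
      u ∈ V e l → u ∈ V e' l' → e = e' ∧ l = l' := by
    intro e e' he he' l l' u h1 h2
    have h3 : ∀ᶠ v : ℝ in 𝓝 u, e • (v : Circ) + l = e' • (v : Circ) + l' := by
      filter_upwards [h1, h2] with v hv hv'
      rw [← hv, ← hv']
    have hee : e = e' := by
      by_contra hne
      -- then `2 v` is constant near `u`
      have h4 : ∀ᶠ v : ℝ in 𝓝 u, (e - e') • (v : Circ) = l' - l := by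
        filter_upwards [h3] with v hv
        rw [sub_smul, sub_eq_sub_iff_add_eq_add, hv]; abel
      have h5 : e - e' = 2 ∨ e - e' = -2 := by omega
      have h6 : ∀ᶠ v : ℝ in 𝓝 u, (2 : ℤ) • (v : Circ) = (2 : ℤ) • (u : Circ) := by
        have h7 := h4.self_of_nhds
        filter_upwards [h4] with v hv
        rw [← h7] at hv
        rcases h5 with h5 | h5
        · rw [h5] at hv; exact hv
        · rw [h5] at hv
          have e2 : (-2 : ℤ) = -(2 : ℤ) := rfl
          rw [e2, neg_smul, neg_smul, neg_inj] at hv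
          exact hv
      obtain ⟨δ, hδ, hb⟩ := Metric.eventually_nhds_iff_ball.1 h6
      set η := min (δ / 2) (1 / 4) with hη
      have hη0 : 0 < η := by positivity
      have hη1 : η ≤ δ / 2 := min_le_left _ _
      have hη2 : η ≤ 1 / 4 := min_le_right _ _
      have h8 := hb (u + η) (by
        rw [Metric.mem_ball, Real.dist_eq, add_sub_cancel_left, abs_of_pos hη0]; linarith)
      rw [AddCircle.coe_add, smul_add, add_eq_left, ← AddCircle.coe_zsmul] at h8
      apply coe_ne_zero_of_lt_one (u := (2 : ℤ) • η) _ _ h8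
      · rw [zsmul_eq_mul]; push_cast; linarith
      · rw [zsmul_eq_mul]; push_cast; linarith
    refine ⟨hee, ?_⟩
    have h9 := h3.self_of_nhds
    rw [hee] at h9
    exact add_left_cancel h9
  have hm : (b + c) / 2 ∈ Ioo b c := ⟨by linarith, by linarith⟩
  obtain ⟨e0, he0, l0, hl0, hu0⟩ := hV _ hm
  let W : Set ℝ := ⋃ (p : ℤ × Circ) (_ : (p.1 = 1 ∨ p.1 = -1) ∧ ¬ (p.1 = e0 ∧ p.2 = l0)), V p.1 p.2
  have hWo : IsOpen W := isOpen_iUnion fun p => isOpen_iUnion fun _ => hVo _ _
  have hdj : Disjoint (V e0 l0) W := by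
    rw [Set.disjoint_left]
    intro u hu huW
    simp only [W, mem_iUnion] at huW
    obtain ⟨p, ⟨hp1, hp2⟩, hp3⟩ := huW
    obtain ⟨h1, h2⟩ := hdisj p.1 e0 hp1 he0 _ _ u hp3 hu
    exact hp2 ⟨h1, h2⟩
  have hcov : Ioo b c ⊆ V e0 l0 ∪ W := by
    intro u hu
    obtain ⟨e, he, l, hl, hul⟩ := hV u hu
    by_cases h : e = e0 ∧ l = l0
    · left; rw [← h.1, ← h.2]; exact hul
    · right
      simp only [W, mem_iUnion]
      exact ⟨(e, l), ⟨he, h⟩, hul⟩
  have hsub := isPreconnected_Ioo.subset_left_of_subset_union (hVo e0 l0) hWo hdj hcov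
    ⟨_, hm, hu0⟩
  refine ⟨l0, hl0, ?_⟩
  rcases he0 with rfl | rfl
  · left
    intro u hu
    have := (hsub hu).self_of_nhds
    rwa [one_smul] at this
  · right
    intro u hu
    have := (hsub hu).self_of_nhds
    rwa [neg_smul, one_smul] at this

lemma IsFlipExchange.one (Λ : AddSubgroup Circ) : IsFlipExchange Λ (1 : Equiv.Perm Circ) :=
  ⟨∅, finite_empty, empty_subset _, fun x _ => ⟨0, zero_mem _, Or.inl (by simp)⟩⟩

lemma IsFlipExchange.mul {Λ : AddSubgroup Circ} {f g : Equiv.Perm Circ}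
    (hf : IsFlipExchange Λ f) (hg : IsFlipExchange Λ g) : IsFlipExchange Λ (f * g) := by
  obtain ⟨F, hF, hFΛ, hf⟩ := hf
  obtain ⟨G, hG, hGΛ, hg⟩ := hg
  refine ⟨G ∪ g ⁻¹' F, hG.union (hF.preimage g.injective.injOn), ?_, fun x hx => ?_⟩
  · rintro x (hx | hx)
    · exact hGΛ hx
    · by_cases hxG : x ∈ G
      · exact hGΛ hxG
      · obtain ⟨l, hl, h | h⟩ := hg x hxG
        · have h1 := h.self_of_nhds
          have h2 : x = g x - l := by rw [h1]; abel
          rw [h2]
          exact sub_mem (hFΛ hx) hl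
        · have h1 := h.self_of_nhds
          have h2 : x = -(g x - l) := by rw [h1]; abel
          rw [h2]
          exact neg_mem (sub_mem (hFΛ hx) hl)
  · rw [mem_union, not_or] at hx
    obtain ⟨l, hl, h⟩ := hg x hx.1
    obtain ⟨m, hm, h'⟩ := hf (g x) hx.2
    have hcont : ContinuousAt g x := by
      rcases h with h | h
      · exact (continuousAt_id.add continuousAt_const : ContinuousAt (fun y => y + l) x).congr
          (h.mono fun y hy => hy.symm)
      · exact (continuousAt_id.neg.add continuousAt_const : ContinuousAt (fun y => -y + l) x).congr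
          (h.mono fun y hy => hy.symm)
    rcases h with h | h
    · rcases h' with h' | h'
      · refine ⟨l + m, add_mem hl hm, Or.inl ?_⟩
        filter_upwards [h, hcont.eventually h'] with y h1 h2
        rw [Equiv.Perm.mul_apply, h2, h1, add_assoc]
      · refine ⟨-l + m, add_mem (neg_mem hl) hm, Or.inr ?_⟩
        filter_upwards [h, hcont.eventually h'] with y h1 h2
        rw [Equiv.Perm.mul_apply, h2, h1]; abel
    · rcases h' with h' | h'
      · refine ⟨l + m, add_mem hl hm, Or.inr ?_⟩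
        filter_upwards [h, hcont.eventually h'] with y h1 h2
        rw [Equiv.Perm.mul_apply, h2, h1, add_assoc]
      · refine ⟨-l + m, add_mem (neg_mem hl) hm, Or.inl ?_⟩
        filter_upwards [h, hcont.eventually h'] with y h1 h2
        rw [Equiv.Perm.mul_apply, h2, h1]; abel

/-- local form of the inverse at the image of a good point -/
lemma inv_local {Λ : AddSubgroup Circ} {f : Equiv.Perm Circ} {x : Circ}
    (h : ∃ l ∈ Λ, (∀ᶠ y in 𝓝 x, f y = y + l) ∨ (∀ᶠ y in 𝓝 x, f y = -y + l)) :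
    ∃ l ∈ Λ, (∀ᶠ y in 𝓝 (f x), f⁻¹ y = y + l) ∨ (∀ᶠ y in 𝓝 (f x), f⁻¹ y = -y + l) := by
  obtain ⟨l, hl, h | h⟩ := h
  · refine ⟨-l, neg_mem hl, Or.inl ?_⟩
    have hx := h.self_of_nhds
    have hc : Tendsto (fun y : Circ => y + -l) (𝓝 (f x)) (𝓝 x) := by
      have := (continuous_add_const (-l)).tendsto (f x)
      have e : f x + -l = x := by rw [hx]; abel
      rwa [e] at this
    filter_upwards [hc.eventually h] with y hy
    rw [Equiv.Perm.inv_eq_iff_eq, hy]; abel
  · refine ⟨l, hl, Or.inr ?_⟩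
    have hx := h.self_of_nhds
    have hc : Tendsto (fun y : Circ => -y + l) (𝓝 (f x)) (𝓝 x) := by
      have hcc : Continuous (fun y : Circ => -y + l) := by fun_prop
      have := hcc.tendsto (f x)
      have e : -(f x) + l = x := by rw [hx]; abel
      rwa [e] at this
    filter_upwards [hc.eventually h] with y hy
    rw [Equiv.Perm.inv_eq_iff_eq, hy]; abel

lemma IsFlipExchange.inv {Λ : AddSubgroup Circ} {f : Equiv.Perm Circ}
    (hf : IsFlipExchange Λ f) : IsFlipExchange Λ (f⁻¹ : Equiv.Perm Circ) := by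
  obtain ⟨F, hF, hFΛ, hf⟩ := hf
  have hloc : ∀ y ∉ f '' F, ∃ l ∈ Λ,
      (∀ᶠ v in 𝓝 y, f⁻¹ v = v + l) ∨ (∀ᶠ v in 𝓝 y, f⁻¹ v = -v + l) := by
    intro y hy
    have hx : f⁻¹ y ∉ F := fun h => hy ⟨f⁻¹ y, h, f.apply_symm_apply y⟩
    have h1 := inv_local (hf _ hx)
    have h2 : f (f⁻¹ y) = y := f.apply_symm_apply y
    rwa [h2] at h1
  refine ⟨f '' F, hF.image f, ?_, hloc⟩
  rintro _ ⟨p, hp, rfl⟩
  by_contra hq
  obtain ⟨b, hb⟩ := QuotientAddGroup.mk_surjective (f p)
  have hb' : (b : Circ) = f p := hb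
  -- a small punctured right neighbourhood of `b` avoiding the bad set
  have hfin : (f '' F \ {f p}).Finite := (hF.image f).subset sdiff_subset
  have hev : ∀ᶠ u : ℝ in 𝓝 b, (u : Circ) ∉ f '' F \ {f p} := by
    have h1 : (f '' F \ {f p})ᶜ ∈ 𝓝 (b : Circ) :=
      hfin.isClosed.isOpen_compl.mem_nhds (fun h => h.2 hb')
    exact (coe_continuous.tendsto b).eventually h1
  obtain ⟨δ', hδ', hball⟩ := Metric.eventually_nhds_iff_ball.1 hev
  set δ := min δ' (1 / 4) with hδ
  have hδ0 : 0 < δ := by positivity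
  have hδ1 : δ ≤ δ' := min_le_left _ _
  have hδ2 : δ ≤ 1 / 4 := min_le_right _ _
  have hgood : ∀ u ∈ Ioo b (b + δ), (u : Circ) ∉ f '' F := by
    intro u hu h
    apply hball u (by
      rw [Metric.mem_ball, Real.dist_eq, abs_of_pos (by linarith [hu.1])]; linarith [hu.2])
    refine ⟨h, ?_⟩
    rw [mem_singleton_iff, ← hb']
    intro huv
    apply coe_ne_zero_of_lt_one (u := u - b) (by linarith [hu.1]) (by linarith [hu.2])
    rw [AddCircle.coe_sub, huv, sub_self]
  obtain ⟨l, hl, hcase⟩ := const_on_Ioo (Λ := Λ) (b := b) (c := b + δ) (by linarith)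
    (G := fun u => f⁻¹ (u : Circ)) (by
      intro u hu
      obtain ⟨l, hl, h | h⟩ := hloc _ (hgood u hu)
      · exact ⟨l, hl, Or.inl ((coe_continuous.tendsto u).eventually h)⟩
      · exact ⟨l, hl, Or.inr ((coe_continuous.tendsto u).eventually h)⟩)
  have hIoo : Ioo b (b + δ) ∈ 𝓝[>] b := Ioo_mem_nhdsGT (by linarith)
  -- the limit point
  obtain ⟨p1, hp1Λ, hlim⟩ : ∃ p1 : Circ, p1 ∉ Λ ∧
      Tendsto (fun u : ℝ => f⁻¹ (u : Circ)) (𝓝[>] b) (𝓝 p1) := by
    rcases hcase with h | h
    · refine ⟨f p + l, fun h1 => hq ?_, ?_⟩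
      · have := sub_mem h1 hl
        rwa [add_sub_cancel_right] at this
      · have h2 : Tendsto (fun u : ℝ => (u : Circ) + l) (𝓝[>] b) (𝓝 (f p + l)) := by
          rw [← hb']
          exact ((coe_continuous.add continuous_const).tendsto b).mono_left nhdsWithin_le_nhds
        exact h2.congr' (by filter_upwards [hIoo] with u hu using (h u hu).symm)
    · refine ⟨-(f p) + l, fun h1 => hq ?_, ?_⟩
      · have := sub_mem h1 hl
        rw [add_sub_cancel_right] at this
        exact neg_mem_iff.1 this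
      · have h2 : Tendsto (fun u : ℝ => -(u : Circ) + l) (𝓝[>] b) (𝓝 (-(f p) + l)) := by
          rw [← hb']
          exact ((coe_continuous.neg.add continuous_const).tendsto b).mono_left nhdsWithin_le_nhds
        exact h2.congr' (by filter_upwards [hIoo] with u hu using (h u hu).symm)
  have hp1F : p1 ∉ F := fun h => hp1Λ (hFΛ h)
  have hcont : ContinuousAt f p1 := by
    obtain ⟨m, hm, h | h⟩ := hf p1 hp1F
    · exact (continuousAt_id.add continuousAt_const : ContinuousAt (fun y => y + m) p1).congr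
        (h.mono fun y hy => hy.symm)
    · exact (continuousAt_id.neg.add continuousAt_const : ContinuousAt (fun y => -y + m) p1).congr
        (h.mono fun y hy => hy.symm)
  have hlim2 : Tendsto (fun u : ℝ => f (f⁻¹ (u : Circ))) (𝓝[>] b) (𝓝 (f p1)) :=
    hcont.tendsto.comp hlim
  have hlim3 : Tendsto (fun u : ℝ => f (f⁻¹ (u : Circ))) (𝓝[>] b) (𝓝 (f p)) := by
    have h3 : Tendsto (fun u : ℝ => (u : Circ)) (𝓝[>] b) (𝓝 (b : Circ)) :=
      (coe_continuous.tendsto b).mono_left nhdsWithin_le_nhds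
    rw [hb'] at h3
    exact h3.congr fun u => (f.apply_symm_apply (u : Circ)).symm
  have h4 : f p1 = f p := tendsto_nhds_unique hlim2 hlim3
  have h5 : p1 = p := f.injective h4
  exact hp1Λ (h5 ▸ hFΛ hp)

lemma IsFlipExchange.mem_pcSubgroup {Λ : AddSubgroup Circ} {f : Equiv.Perm Circ}
    (hf : IsFlipExchange Λ f) : f ∈ pcSubgroup := by
  obtain ⟨F, hF, -, hf⟩ := hf
  refine ⟨F, hF, fun x hx => ?_⟩
  obtain ⟨m, hm, h | h⟩ := hf x hx
  · exact (continuousAt_id.add continuousAt_const : ContinuousAt (fun y => y + m) x).congr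
      (h.mono fun y hy => hy.symm)
  · exact (continuousAt_id.neg.add continuousAt_const : ContinuousAt (fun y => -y + m) x).congr
      (h.mono fun y hy => hy.symm)

/-- An element of `PC(S)` represented by a permutation that, off a finite subset of `Λ`, is
locally of the form `x ↦ ± x + l` with `l ∈ Λ`. -/
def IsRepFlip (Λ : AddSubgroup Circ) (g : PC) : Prop :=
  ∃ f : PChat, toPC f = g ∧ IsFlipExchange Λ f.toPerm

lemma IsRepFlip.one (Λ : AddSubgroup Circ) : IsRepFlip Λ 1 :=
  ⟨1, map_one _, IsFlipExchange.one Λ⟩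

lemma IsRepFlip.mul {Λ : AddSubgroup Circ} {a b : PC} (ha : IsRepFlip Λ a)
    (hb : IsRepFlip Λ b) : IsRepFlip Λ (a * b) := by
  obtain ⟨f, rfl, hf⟩ := ha
  obtain ⟨g, rfl, hg⟩ := hb
  exact ⟨f * g, map_mul _ _ _, hf.mul hg⟩

lemma IsRepFlip.inv {Λ : AddSubgroup Circ} {a : PC} (ha : IsRepFlip Λ a) :
    IsRepFlip Λ a⁻¹ := by
  obtain ⟨f, rfl, hf⟩ := ha
  exact ⟨f⁻¹, map_inv _ _, hf.inv⟩

/-- The group of interval exchanges with flips over `Λ`: the elements of `PC(S)` represented by a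
permutation that, off a finite subset of `Λ`, is locally of the form `x ↦ ± x + l` with
`l ∈ Λ`. -/
def IETflip (Λ : AddSubgroup Circ) : Subgroup PC where
  carrier := {g | IsRepFlip Λ g}
  one_mem' := IsRepFlip.one Λ
  mul_mem' := IsRepFlip.mul
  inv_mem' := IsRepFlip.inv

/-! ### Realizability -/

/-- `Γ ⊆ PC(S)` is realizable: some subgroup of `PC^(S)` is mapped bijectively onto `Γ`. -/
def Realizable (Γ : Subgroup PC) : Prop :=
  ∃ Γ' : Subgroup PChat, BijOn toPC (Γ' : Set PChat) (Γ : Set PC)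

/-- The permutation of `S ⊔ Y` equal to `f` on `S` and to the identity on `Y`. -/
def extendById (Y : Type u) (f : Equiv.Perm Circ) : Equiv.Perm (Circ ⊕ Y) :=
  Equiv.sumCongr f (Equiv.refl Y)

/-- Two permutations of a set agree outside a finite subset. -/
def AgreeOffFinite {X : Type*} (a b : Equiv.Perm X) : Prop := {z | a z ≠ b z}.Finite

/-- `φ : Γ → Sym(S ⊔ Y)` lifts the homomorphism `Γ → Sym(S ⊔ Y) / S_fin(S ⊔ Y)` induced by the
action of `Γ` on `S ⊔ Y` that is trivial on `Y`: for every `f ∈ PC^(S)` whose class `[f]` lies in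
`Γ`, the permutation `φ [f]` agrees, outside a finite set, with the permutation equal to `f` on
`S` and to the identity on `Y`. -/
def IsStableLift {Γ : Subgroup PC} {Y : Type u} (φ : Γ →* Equiv.Perm (Circ ⊕ Y)) : Prop :=
  ∀ (f : PChat) (hf : toPC f ∈ Γ), AgreeOffFinite (φ ⟨toPC f, hf⟩) (extendById Y f.toPerm)

/-- `Γ ⊆ PC(S)` is stably realizable: for some set `Y`, the induced homomorphism
`Γ → Sym(S ⊔ Y) / S_fin(S ⊔ Y)` lifts to a homomorphism `Γ → Sym(S ⊔ Y)`. -/
def StablyRealizable (Γ : Subgroup PC) : Prop :=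
  ∃ (Y : Type u) (φ : Γ →* Equiv.Perm (Circ ⊕ Y)), IsStableLift φ

/-- A realizable subgroup is stably realizable. -/
lemma Realizable.stablyRealizable {Γ : Subgroup PC} (h : Realizable Γ) :
    StablyRealizable.{u} Γ := by
  obtain ⟨Γ', hΓ'⟩ := h
  -- the restriction of `toPC` as an isomorphism
  let ψ : Γ' →* Γ :=
    { toFun := fun g => ⟨toPC g, hΓ'.mapsTo g.2⟩
      map_one' := Subtype.ext (map_one toPC)
      map_mul' := fun a b => Subtype.ext (map_mul toPC (a : PChat) (b : PChat)) }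
  have hψ : Function.Bijective ψ := by
    constructor
    · intro a b hab
      exact Subtype.ext (hΓ'.injOn a.2 b.2 (congrArg Subtype.val hab))
    · rintro ⟨g, hg⟩
      obtain ⟨a, ha, ha'⟩ := hΓ'.surjOn hg
      exact ⟨⟨a, ha⟩, Subtype.ext ha'⟩
  let e : Γ' ≃* Γ := MulEquiv.ofBijective ψ hψ
  let θ : Γ' →* Equiv.Perm (Circ ⊕ PEmpty.{u + 1}) :=
    { toFun := fun g => Equiv.sumCongr (g : PChat).toPerm (Equiv.refl _)
      map_one' := by ext x; rcases x with x | x <;> rfl
      map_mul' := fun a b => by ext x; rcases x with x | x <;> rfl }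
  refine ⟨PEmpty.{u + 1}, θ.comp e.symm.toMonoidHom, fun f hf => ?_⟩
  set f' : Γ' := e.symm ⟨toPC f, hf⟩ with hf'
  have h1 : toPC (f' : PChat) = toPC f := by
    have : e f' = ⟨toPC f, hf⟩ := by rw [hf']; exact e.apply_symm_apply _
    exact congrArg Subtype.val this
  have h2 : (f' : PChat)⁻¹ * f ∈ finPerm := QuotientGroup.eq.1 h1
  have h3 : {x | ((f' : PChat)⁻¹ * f).toPerm x ≠ x}.Finite := h2
  refine (h3.image Sum.inl).subset ?_
  rintro (x | x) hx
  · refine ⟨x, fun hx' => hx ?_, rfl⟩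
    have h4 : ((f' : PChat).toPerm)⁻¹ (f.toPerm x) = x := hx'
    rw [Equiv.Perm.inv_eq_iff_eq] at h4
    show Sum.inl ((f' : PChat).toPerm x) = Sum.inl (f.toPerm x)
    rw [h4]
  · exact x.elim

end Pool.Agent.H8.IET
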