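import Mathlib

/-!
# Directed polymers over a finite-range Markov chain: moments and the martingale
-/

open MeasureTheory ProbabilityTheory Filter Topology

set_option linter.unusedSectionVars false
set_option linter.unusedDecidableInType false

namespace Pool.Agent.H8.Polymer

/-- A Markov kernel on `V` with finite rows. -/
structure Kern (V : Type*) where
  p : V → V → ℝ
  nb : V → Finset V
  nonneg : ∀ x y, 0 ≤ p x y
  zero : ∀ x y, y ∉ nb x → p x y = 0
  sum_one : ∀ x, ∑ y ∈ nb x, p x y = 1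

variable {V : Type*} [DecidableEq V]

namespace Kern

variable (K : Kern V)

/-- vertices reachable in exactly `n` steps (superset) -/
def reach (x : V) : ℕ → Finset V
  | 0 => {x}
  | n + 1 => (reach x n).biUnion K.nb

/-- `n`-step transition probabilities -/
noncomputable def q (x : V) : ℕ → V → ℝ
  | 0, y => if y = x then 1 else 0
  | n + 1, y => ∑ z ∈ K.reach x n, q x n z * K.p z y

lemma nb_subset_reach {x : V} {n : ℕ} {z : V} (hz : z ∈ K.reach x n) :
    K.nb z ⊆ K.reach x (n + 1) := by
  intro y hy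
  exact Finset.mem_biUnion.2 ⟨z, hz, hy⟩

lemma sum_reach {x : V} {n : ℕ} {z : V} (hz : z ∈ K.reach x n) :
    ∑ y ∈ K.reach x (n + 1), K.p z y = 1 := by
  rw [← K.sum_one z]
  exact (Finset.sum_subset (K.nb_subset_reach hz) (fun y _ hy => K.zero z y hy)).symm

lemma q_nonneg (x : V) (n : ℕ) (y : V) : 0 ≤ K.q x n y := by
  induction n generalizing y with
  | zero => unfold q; split_ifs <;> norm_num
  | succ n ih => exact Finset.sum_nonneg fun z _ => mul_nonneg (ih z) (K.nonneg z y)

lemma q_zero {x : V} {n : ℕ} {y : V} (hy : y ∉ K.reach x n) : K.q x n y = 0 := by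
  cases n with
  | zero =>
    have : y ≠ x := fun h => hy (by simp [reach, h])
    simp [q, this]
  | succ n =>
    apply Finset.sum_eq_zero
    intro z hz
    rw [K.zero z y (fun h => hy (K.nb_subset_reach hz h)), mul_zero]

lemma q_sum (x : V) (n : ℕ) : ∑ y ∈ K.reach x n, K.q x n y = 1 := by
  induction n with
  | zero => simp [reach, q]
  | succ n ih =>
    simp only [q]
    rw [Finset.sum_comm]
    rw [← ih]
    apply Finset.sum_congr rfl
    intro z hz
    rw [← Finset.mul_sum, K.sum_reach hz, mul_one]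

end Kern

/-- The noise `1 + η = exp (β ω - Λ(β))` of a directed polymer. -/
structure Noise {Ω : Type*} [MeasurableSpace Ω] (P : Measure Ω) (V : Type*) where
  η : ℕ → V → Ω → ℝ
  meas : ∀ i x, Measurable (η i x)
  indep : iIndepFun (fun q : ℕ × V => η q.1 q.2) P
  pos : ∀ i x e, 0 ≤ 1 + η i x e
  int1 : ∀ i x, Integrable (η i x) P
  mean : ∀ i x, ∫ e, η i x e ∂P = 0
  int2 : ∀ i x, Integrable (fun e => (η i x e) ^ 2) P
  int3 : ∀ i x, Integrable (fun e => (η i x e) ^ 3) P
  γ : ℝ
  γpos : 0 < γ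
  var : ∀ i x, ∫ e, (η i x e) ^ 2 ∂P = γ
  C : ℝ
  third : ∀ i x, ∫ e, (1 + η i x e) * (η i x e) ^ 2 ∂P ≤ C
  γC : γ ≤ C

variable {Ω : Type*} {mΩ : MeasurableSpace Ω} {P : Measure Ω} [IsProbabilityMeasure P]

namespace Noise

variable (N : Noise P V)

/-- σ-algebra generated by the noise variables indexed by `S` -/
@[reducible] def sig (S : Set (ℕ × V)) : MeasurableSpace Ω :=
  ⨆ q ∈ S, MeasurableSpace.comap (N.η q.1 q.2) inferInstance

lemma sig_le (S : Set (ℕ × V)) : N.sig S ≤ mΩ :=
  iSup₂_le fun q _ => (N.meas q.1 q.2).comap_le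

lemma sig_mono {S T : Set (ℕ × V)} (h : S ⊆ T) : N.sig S ≤ N.sig T :=
  biSup_mono h

lemma meas_sig {S : Set (ℕ × V)} {i : ℕ} {x : V} (h : (i, x) ∈ S) :
    Measurable[N.sig S] (N.η i x) := by
  have h1 : MeasurableSpace.comap (N.η i x) inferInstance ≤ N.sig S :=
    le_iSup₂_of_le (i, x) h le_rfl
  exact Measurable.mono (comap_measurable (N.η i x)) h1 le_rfl

lemma indep_sig {S T : Set (ℕ × V)} (h : Disjoint S T) : Indep (N.sig S) (N.sig T) P :=
  indep_iSup_of_disjoint (m := fun q : ℕ × V => MeasurableSpace.comap (N.η q.1 q.2) inferInstance)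
    (fun q => (N.meas q.1 q.2).comap_le) N.indep.iIndep h

/-- times `≤ m` -/
@[reducible] def past (m : ℕ) : MeasurableSpace Ω := N.sig {q | q.1 ≤ m}

/-- times `> m` -/
@[reducible] def fut (m : ℕ) : MeasurableSpace Ω := N.sig {q | m < q.1}

lemma past_le (m : ℕ) : N.past m ≤ mΩ := N.sig_le _

lemma fut_le (m : ℕ) : N.fut m ≤ mΩ := N.sig_le _

lemma past_mono {m n : ℕ} (h : m ≤ n) : N.past m ≤ N.past n :=
  N.sig_mono fun _ hq => le_trans hq h

lemma indep_past_fut (m : ℕ) : Indep (N.past m) (N.fut m) P :=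
  N.indep_sig (Set.disjoint_left.2 fun q (h1 : q.1 ≤ m) (h2 : m < q.1) => absurd h1 (not_le.2 h2))

lemma indepFun_of {m : ℕ} {A B : Ω → ℝ} (hA : Measurable[N.past m] A)
    (hB : Measurable[N.fut m] B) : IndepFun A B P := by
  rw [IndepFun_iff_Indep]
  exact indep_of_indep_of_le_right (indep_of_indep_of_le_left (N.indep_past_fut m) hA.comap_le)
    hB.comap_le

lemma int_mul {m : ℕ} {A B : Ω → ℝ} (hA : Measurable[N.past m] A)
    (hB : Measurable[N.fut m] B) (hAi : Integrable A P) (hBi : Integrable B P) :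
    Integrable (fun e => A e * B e) P := (N.indepFun_of hA hB).integrable_mul hAi hBi

lemma integral_mul {m : ℕ} {A B : Ω → ℝ} (hA : Measurable[N.past m] A)
    (hB : Measurable[N.fut m] B) :
    ∫ e, A e * B e ∂P = (∫ e, A e ∂P) * ∫ e, B e ∂P :=
  (N.indepFun_of hA hB).integral_fun_mul_eq_mul_integral
    (hA.mono (N.past_le m) le_rfl).aestronglyMeasurable
    (hB.mono (N.fut_le m) le_rfl).aestronglyMeasurable

lemma indep_pair {i : ℕ} {x y : V} (h : y ≠ x) : IndepFun (N.η i y) (N.η i x) P := by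
  have := N.indep.indepFun (i := (i, y)) (j := (i, x)) (by
    intro h'
    exact h (Prod.mk.inj h').2)
  exact this

/-- `(1 + η_y) η_x ^ j` -/
def G (i : ℕ) (x y : V) (j : ℕ) (e : Ω) : ℝ := (1 + N.η i y e) * (N.η i x e) ^ j

lemma G_meas (m i : ℕ) (hm : m < i) (x y : V) (j : ℕ) : Measurable[N.fut m] (N.G i x y j) := by
  have h1 : Measurable[N.fut m] (N.η i y) := N.meas_sig hm
  have h2 : Measurable[N.fut m] (N.η i x) := N.meas_sig hm
  exact (measurable_const.add h1).mul (h2.pow_const j)

lemma G_int (i : ℕ) (x y : V) (j : ℕ) (hj : j ≤ 2) : Integrable (N.G i x y j) P := by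
  have hpow : ∀ z : V, ∀ j ≤ 3, Integrable (fun e => (N.η i z e) ^ j) P := by
    intro z j hj
    interval_cases j
    · simp
    · simpa using N.int1 i z
    · exact N.int2 i z
    · exact N.int3 i z
  by_cases h : y = x
  · subst h
    have : N.G i y y j = fun e => (N.η i y e) ^ j + (N.η i y e) ^ (j + 1) := by
      ext e; unfold G; ring
    rw [this]
    exact (hpow y j (by omega)).add (hpow y (j + 1) (by omega))
  · have h1 : IndepFun (fun e => 1 + N.η i y e) (fun e => (N.η i x e) ^ j) P :=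
      (N.indep_pair h).comp (measurable_const.add measurable_id) (measurable_id.pow_const j)
    exact h1.integrable_mul ((integrable_const 1).add (N.int1 i y)) (hpow x j (by omega))

lemma G_zero (i : ℕ) (x y : V) : ∫ e, N.G i x y 0 e ∂P = 1 := by
  have : N.G i x y 0 = fun e => 1 + N.η i y e := by ext e; simp [G]
  rw [this, integral_add (integrable_const 1) (N.int1 i y), N.mean]
  simp

lemma G_one (i : ℕ) (x y : V) : ∫ e, N.G i x y 1 e ∂P = if y = x then N.γ else 0 := by
  by_cases h : y = x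
  · subst h
    have : N.G i y y 1 = fun e => N.η i y e + (N.η i y e) ^ 2 := by ext e; unfold G; ring
    rw [this, integral_add (N.int1 i y) (N.int2 i y), N.mean, N.var]
    simp
  · have h1 : IndepFun (fun e => 1 + N.η i y e) (fun e => (N.η i x e)) P :=
      (N.indep_pair h).comp (measurable_const.add measurable_id) measurable_id
    have h2 := h1.integral_fun_mul_eq_mul_integral
      ((measurable_const.add (N.meas i y)).aestronglyMeasurable)
      ((N.meas i x).aestronglyMeasurable)
    have h3 : N.G i x y 1 = fun e => (1 + N.η i y e) * N.η i x e := by ext e; simp [G]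
    rw [h3, h2, N.mean]
    simp [h]

lemma G_two (i : ℕ) (x y : V) : ∫ e, N.G i x y 2 e ∂P ≤ N.C := by
  by_cases h : y = x
  · subst h
    exact N.third i y
  · have h1 : IndepFun (fun e => 1 + N.η i y e) (fun e => (N.η i x e) ^ 2) P :=
      (N.indep_pair h).comp (measurable_const.add measurable_id) (measurable_id.pow_const 2)
    have h2 := h1.integral_fun_mul_eq_mul_integral
      ((measurable_const.add (N.meas i y)).aestronglyMeasurable)
      (((N.meas i x).pow_const 2).aestronglyMeasurable)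
    have h3 : N.G i x y 2 = fun e => (1 + N.η i y e) * (N.η i x e) ^ 2 := rfl
    have h4 : ∫ e, (1 + N.η i y e) ∂P = 1 := by
      rw [integral_add (integrable_const 1) (N.int1 i y), N.mean]; simp
    rw [h3, h2, h4, N.var, one_mul]
    exact N.γC

lemma G_two_nonneg (i : ℕ) (x y : V) : 0 ≤ ∫ e, N.G i x y 2 e ∂P :=
  integral_nonneg fun e => mul_nonneg (N.pos i y e) (sq_nonneg _)

end Noise

section Poly

variable (K : Kern V) (N : Noise P V)

/-- point-to-point partition functions started at time `k` at the site `x` -/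
noncomputable def Z (k : ℕ) (x : V) : ℕ → V → Ω → ℝ
  | 0, y, _ => if y = x then 1 else 0
  | n + 1, y, e => (1 + N.η (k + n + 1) y e) * ∑ z ∈ K.reach x n, Z k x n z e * K.p z y

/-- partition functions -/
noncomputable def W (k : ℕ) (x : V) (n : ℕ) (e : Ω) : ℝ := ∑ y ∈ K.reach x n, Z K N k x n y e

/-- `∑_z Z_n(z) p(z,y)` -/
noncomputable def cc (k : ℕ) (x : V) (n : ℕ) (y : V) (e : Ω) : ℝ :=
  ∑ z ∈ K.reach x n, Z K N k x n z e * K.p z y

lemma Z_succ (k : ℕ) (x : V) (n : ℕ) (y : V) (e : Ω) :
    Z K N k x (n + 1) y e = (1 + N.η (k + n + 1) y e) * cc K N k x n y e := rfl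

lemma Z_nonneg (k : ℕ) (x : V) (n : ℕ) (y : V) (e : Ω) : 0 ≤ Z K N k x n y e := by
  induction n generalizing y with
  | zero => unfold Z; split_ifs <;> norm_num
  | succ n ih =>
    exact mul_nonneg (N.pos _ _ _) (Finset.sum_nonneg fun z _ => mul_nonneg (ih z) (K.nonneg z y))

lemma W_nonneg (k : ℕ) (x : V) (n : ℕ) (e : Ω) : 0 ≤ W K N k x n e :=
  Finset.sum_nonneg fun y _ => Z_nonneg K N k x n y e

lemma Z_zero' {k : ℕ} {x : V} {n : ℕ} {y : V} (hy : y ∉ K.reach x n) (e : Ω) :
    Z K N k x n y e = 0 := by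
  cases n with
  | zero =>
    have : y ≠ x := fun h => hy (by simp [Kern.reach, h])
    simp [Z, this]
  | succ n =>
    rw [Z_succ]
    unfold cc
    rw [Finset.sum_eq_zero, mul_zero]
    intro z hz
    rw [K.zero z y (fun h => hy (K.nb_subset_reach hz h)), mul_zero]

lemma Z_meas_sig (k : ℕ) (x : V) (n : ℕ) (y : V) :
    Measurable[N.sig {q | k < q.1 ∧ q.1 ≤ k + n}] (Z K N k x n y) := by
  induction n generalizing y with
  | zero => exact measurable_const
  | succ n ih =>
    have hle : N.sig {q | k < q.1 ∧ q.1 ≤ k + n} ≤ N.sig {q | k < q.1 ∧ q.1 ≤ k + (n + 1)} :=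
      N.sig_mono fun q hq => ⟨hq.1, by have := hq.2; omega⟩
    have h1 : Measurable[N.sig {q | k < q.1 ∧ q.1 ≤ k + (n + 1)}] (N.η (k + n + 1) y) :=
      N.meas_sig ⟨by show k < k + n + 1; omega, by show k + n + 1 ≤ k + (n + 1); omega⟩
    have h2 : Measurable[N.sig {q | k < q.1 ∧ q.1 ≤ k + (n + 1)}]
        (fun e => ∑ z ∈ K.reach x n, Z K N k x n z e * K.p z y) :=
      Finset.measurable_fun_sum _ fun z _ => ((ih z).mono hle le_rfl).mul_const _
    exact (measurable_const.add h1).mul h2

lemma Z_meas_past (k : ℕ) (x : V) (n : ℕ) (y : V) :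
    Measurable[N.past (k + n)] (Z K N k x n y) :=
  (Z_meas_sig K N k x n y).mono (N.sig_mono fun _ hq => hq.2) le_rfl

lemma Z_meas_fut (k : ℕ) (x : V) (n : ℕ) (y : V) :
    Measurable[N.fut k] (Z K N k x n y) :=
  (Z_meas_sig K N k x n y).mono (N.sig_mono fun _ hq => hq.1) le_rfl

lemma W_meas_past (k : ℕ) (x : V) (n : ℕ) : Measurable[N.past (k + n)] (W K N k x n) :=
  Finset.measurable_fun_sum _ fun y _ => Z_meas_past K N k x n y

lemma W_meas_fut (k : ℕ) (x : V) (n : ℕ) : Measurable[N.fut k] (W K N k x n) :=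
  Finset.measurable_fun_sum _ fun y _ => Z_meas_fut K N k x n y

lemma cc_meas (k : ℕ) (x : V) (n : ℕ) (y : V) : Measurable[N.past (k + n)] (cc K N k x n y) :=
  Finset.measurable_fun_sum _ fun z _ => (Z_meas_past K N k x n z).mul_const _

/-- the test statistic -/
noncomputable def X (k : ℕ) (x : V) (w : ℕ → ℝ) (n : ℕ) (e : Ω) : ℝ :=
  ∑ i ∈ Finset.range n, w (i + 1) * N.η (k + i + 1) x e

lemma X_meas (k : ℕ) (x : V) (w : ℕ → ℝ) (n : ℕ) : Measurable[N.past (k + n)] (X N k x w n) := by
  apply Finset.measurable_fun_sum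
  intro i hi
  rw [Finset.mem_range] at hi
  have h1 : Measurable[N.past (k + n)] (N.η (k + i + 1) x) :=
    N.meas_sig (by show k + i + 1 ≤ k + n; omega)
  exact h1.const_mul _

lemma X_succ (k : ℕ) (x : V) (w : ℕ → ℝ) (n : ℕ) (e : Ω) :
    X N k x w (n + 1) e = X N k x w n e + w (n + 1) * N.η (k + n + 1) x e := by
  simp [X, Finset.sum_range_succ]

/-- integrability of `Z_n(y) X_n ^ l` -/
lemma ZX_int (k : ℕ) (x : V) (w : ℕ → ℝ) (n : ℕ) :
    ∀ y, ∀ l ≤ 2, Integrable (fun e => Z K N k x n y e * (X N k x w n e) ^ l) P := by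
  induction n with
  | zero =>
    intro y l _
    simp only [Z, X, Finset.range_zero, Finset.sum_empty]
    exact integrable_const _
  | succ n ih =>
    intro y l hl
    have hcX : ∀ l ≤ 2, Integrable (fun e => cc K N k x n y e * (X N k x w n e) ^ l) P := by
      intro l hl
      have : (fun e => cc K N k x n y e * (X N k x w n e) ^ l) = fun e =>
          ∑ z ∈ K.reach x n, (Z K N k x n z e * (X N k x w n e) ^ l) * K.p z y := by
        ext e
        unfold cc
        rw [Finset.sum_mul]
        apply Finset.sum_congr rfl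
        intro z _
        ring
      rw [this]
      exact integrable_finsetSum _ fun z _ => (ih z l hl).mul_const _
    have hprod : ∀ l ≤ 2, ∀ j ≤ 2, Integrable (fun e =>
        (cc K N k x n y e * (X N k x w n e) ^ l) * N.G (k + n + 1) x y j e) P := by
      intro l hl j hj
      apply N.int_mul (m := k + n)
      · exact (cc_meas K N k x n y).mul ((X_meas N k x w n).pow_const l)
      · exact N.G_meas _ _ (by omega) _ _ _
      · exact hcX l hl
      · exact N.G_int _ _ _ _ hj
    interval_cases l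
    · refine (hprod 0 (by norm_num) 0 (by norm_num)).congr (ae_of_all _ fun e => ?_)
      simp only [Z_succ, Noise.G]; ring
    · refine ((hprod 1 (by norm_num) 0 (by norm_num)).add
        ((hprod 0 (by norm_num) 1 (by norm_num)).const_mul (w (n + 1)))).congr
        (ae_of_all _ fun e => ?_)
      simp only [Z_succ, X_succ, Noise.G, Pi.add_apply]; ring
    · refine (((hprod 2 (by norm_num) 0 (by norm_num)).add
        ((hprod 1 (by norm_num) 1 (by norm_num)).const_mul (2 * w (n + 1)))).add
        ((hprod 0 (by norm_num) 2 (by norm_num)).const_mul (w (n + 1) ^ 2))).congr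
        (ae_of_all _ fun e => ?_)
      simp only [Z_succ, X_succ, Noise.G, Pi.add_apply]; ring

end Poly

end Pool.Agent.H8.Polymer
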