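import Pool.Agent.H8.Polymer1

open MeasureTheory ProbabilityTheory Filter Topology

set_option linter.unusedSectionVars false
set_option linter.unusedDecidableInType false

namespace Pool.Agent.H8.Polymer

variable {V : Type*} [DecidableEq V]
variable {Ω : Type*} {mΩ : MeasurableSpace Ω} {P : Measure Ω} [IsProbabilityMeasure P]
variable (K : Kern V) (N : Noise P V)

lemma Kern.reach_add {x z : V} {i : ℕ} (hz : z ∈ K.reach x i) (m : ℕ) :
    K.reach z m ⊆ K.reach x (i + m) := by
  induction m with
  | zero => intro y hy; simp only [Kern.reach, Finset.mem_singleton] at hy; rw [hy]; exact hz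
  | succ m ih =>
    intro y hy
    obtain ⟨v, hv, hvy⟩ := Finset.mem_biUnion.1 hy
    exact Finset.mem_biUnion.2 ⟨v, ih hv, hvy⟩

/-- one more step of the transition probabilities, summed over a larger set -/
lemma Kern.q_step {x : V} {i m : ℕ} (h : K.q x i x ≠ 0) (y : V) :
    ∑ z ∈ K.reach x (i + m), K.q x m z * K.p z y = K.q x (m + 1) y := by
  have hx : x ∈ K.reach x i := by
    by_contra h'
    exact h (K.q_zero h')
  symm
  show ∑ z ∈ K.reach x m, K.q x m z * K.p z y = _
  apply Finset.sum_subset (K.reach_add hx m)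
  intro z _ hz
  rw [K.q_zero hz, zero_mul]

lemma Z_int (k : ℕ) (x : V) (n : ℕ) (y : V) : Integrable (Z K N k x n y) P := by
  have := ZX_int K N k x (fun _ => 0) n y 0 (by norm_num)
  simpa using this

lemma W_int (k : ℕ) (x : V) (n : ℕ) : Integrable (W K N k x n) P :=
  integrable_finsetSum _ fun y _ => Z_int K N k x n y

lemma ccX_int (k : ℕ) (x : V) (w : ℕ → ℝ) (n : ℕ) (y : V) (l : ℕ) (hl : l ≤ 2) :
    Integrable (fun e => cc K N k x n y e * (X N k x w n e) ^ l) P := by
  have : (fun e => cc K N k x n y e * (X N k x w n e) ^ l) = fun e =>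
      ∑ z ∈ K.reach x n, (Z K N k x n z e * (X N k x w n e) ^ l) * K.p z y := by
    ext e
    unfold cc
    rw [Finset.sum_mul]
    apply Finset.sum_congr rfl
    intro z _
    ring
  rw [this]
  exact integrable_finsetSum _ fun z _ => (ZX_int K N k x w n z l hl).mul_const _

lemma ccX_integral (k : ℕ) (x : V) (w : ℕ → ℝ) (n : ℕ) (y : V) (l : ℕ) (hl : l ≤ 2) :
    ∫ e, cc K N k x n y e * (X N k x w n e) ^ l ∂P =
      ∑ z ∈ K.reach x n, (∫ e, Z K N k x n z e * (X N k x w n e) ^ l ∂P) * K.p z y := by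
  have : (fun e => cc K N k x n y e * (X N k x w n e) ^ l) = fun e =>
      ∑ z ∈ K.reach x n, (Z K N k x n z e * (X N k x w n e) ^ l) * K.p z y := by
    ext e
    unfold cc
    rw [Finset.sum_mul]
    apply Finset.sum_congr rfl
    intro z _
    ring
  rw [this, integral_finsetSum _ fun z _ => (ZX_int K N k x w n z l hl).mul_const _]
  apply Finset.sum_congr rfl
  intro z _
  rw [integral_mul_const]

lemma ccXG_int (k : ℕ) (x : V) (w : ℕ → ℝ) (n : ℕ) (y : V) (l j : ℕ) (hl : l ≤ 2) (hj : j ≤ 2) :
    Integrable (fun e =>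
        (cc K N k x n y e * (X N k x w n e) ^ l) * N.G (k + n + 1) x y j e) P := by
  apply N.int_mul (m := k + n)
  · exact (cc_meas K N k x n y).mul ((X_meas N k x w n).pow_const l)
  · exact N.G_meas _ _ (by omega) _ _ _
  · exact ccX_int K N k x w n y l hl
  · exact N.G_int _ _ _ _ hj

lemma ccXG_integral (k : ℕ) (x : V) (w : ℕ → ℝ) (n : ℕ) (y : V) (l j : ℕ) :
    ∫ e, (cc K N k x n y e * (X N k x w n e) ^ l) * N.G (k + n + 1) x y j e ∂P =
      (∫ e, cc K N k x n y e * (X N k x w n e) ^ l ∂P) * ∫ e, N.G (k + n + 1) x y j e ∂P := by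
  apply N.integral_mul (m := k + n)
  · exact (cc_meas K N k x n y).mul ((X_meas N k x w n).pow_const l)
  · exact N.G_meas _ _ (by omega) _ _ _

/-- expectations of the point-to-point partition functions -/
lemma Z_integral (k : ℕ) (x : V) (n : ℕ) (y : V) : ∫ e, Z K N k x n y e ∂P = K.q x n y := by
  induction n generalizing y with
  | zero => simp only [Z, Kern.q]; simp
  | succ n ih =>
    have h1 : ∀ e, Z K N k x (n + 1) y e =
        (cc K N k x n y e * (X N k x 0 n e) ^ 0) * N.G (k + n + 1) x y 0 e := by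
      intro e; simp only [Z_succ, Noise.G]; ring
    rw [integral_congr_ae (ae_of_all _ h1), ccXG_integral, N.G_zero, mul_one,
      ccX_integral K N k x 0 n y 0 (by norm_num)]
    simp only [pow_zero, mul_one, ih]
    rfl

lemma cc_integral (k : ℕ) (x : V) (n : ℕ) (y : V) :
    ∫ e, cc K N k x n y e ∂P = K.q x (n + 1) y := by
  have := ccX_integral K N k x 0 n y 0 (by norm_num)
  simp only [pow_zero, mul_one, Z_integral] at this
  exact this

lemma W_integral (k : ℕ) (x : V) (n : ℕ) : ∫ e, W K N k x n e ∂P = 1 := by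
  unfold W
  rw [integral_finsetSum _ fun y _ => Z_int K N k x n y]
  simp only [Z_integral]
  exact K.q_sum x n

/-- first mixed moments -/
lemma ZX_integral (k : ℕ) (x : V) (w : ℕ → ℝ) (n : ℕ) (y : V) :
    ∫ e, Z K N k x n y e * X N k x w n e ∂P =
      N.γ * ∑ i ∈ Finset.range n, w (i + 1) * K.q x (i + 1) x * K.q x (n - (i + 1)) y := by
  induction n generalizing y with
  | zero => simp [X]
  | succ n ih =>
    have h1 : ∀ e, Z K N k x (n + 1) y e * X N k x w (n + 1) e =
        (cc K N k x n y e * (X N k x w n e) ^ 1) * N.G (k + n + 1) x y 0 e +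
        w (n + 1) * ((cc K N k x n y e * (X N k x w n e) ^ 0) * N.G (k + n + 1) x y 1 e) := by
      intro e; simp only [Z_succ, X_succ, Noise.G]; ring
    rw [integral_congr_ae (ae_of_all _ h1), integral_add
      (ccXG_int K N k x w n y 1 0 (by norm_num) (by norm_num))
      ((ccXG_int K N k x w n y 0 1 (by norm_num) (by norm_num)).const_mul _),
      integral_const_mul, ccXG_integral, ccXG_integral, N.G_zero, N.G_one, mul_one,
      ccX_integral K N k x w n y 1 (by norm_num)]
    simp only [pow_one, pow_zero, mul_one, cc_integral, ih]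
    rw [Finset.sum_range_succ, mul_add]
    congr 1
    · -- the transported part
      have h2 : ∀ z ∈ K.reach x n, (N.γ * ∑ i ∈ Finset.range n,
          w (i + 1) * K.q x (i + 1) x * K.q x (n - (i + 1)) z) * K.p z y =
          ∑ i ∈ Finset.range n, N.γ * (w (i + 1) * K.q x (i + 1) x) *
            (K.q x (n - (i + 1)) z * K.p z y) := by
        intro z _
        rw [Finset.mul_sum, Finset.sum_mul]
        apply Finset.sum_congr rfl
        intro i _
        ring
      rw [Finset.sum_congr rfl h2, Finset.sum_comm, Finset.mul_sum]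
      apply Finset.sum_congr rfl
      intro i hi
      rw [Finset.mem_range] at hi
      rw [← Finset.mul_sum]
      by_cases hq : K.q x (i + 1) x = 0
      · rw [hq]; ring
      have h3 : n + 1 - (i + 1) = (n - (i + 1)) + 1 := by omega
      have h5 : (i + 1) + (n - (i + 1)) = n := by omega
      have h4 := K.q_step (m := n - (i + 1)) hq y
      rw [h5] at h4
      rw [h4, h3]
      ring
    · rw [Nat.sub_self]
      by_cases h : y = x
      · subst h
        simp [Kern.q]
        ring
      · simp [Kern.q, h]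

lemma WX_integral (k : ℕ) (x : V) (w : ℕ → ℝ) (n : ℕ) :
    ∫ e, W K N k x n e * X N k x w n e ∂P =
      N.γ * ∑ i ∈ Finset.range n, w (i + 1) * K.q x (i + 1) x := by
  have h1 : ∀ e, W K N k x n e * X N k x w n e =
      ∑ y ∈ K.reach x n, Z K N k x n y e * X N k x w n e := by
    intro e; unfold W; rw [Finset.sum_mul]
  have hint : ∀ y, Integrable (fun e => Z K N k x n y e * X N k x w n e) P := by
    intro y
    have := ZX_int K N k x w n y 1 (by norm_num)
    simpa using this
  rw [integral_congr_ae (ae_of_all _ h1), integral_finsetSum _ fun y _ => hint y]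
  simp only [ZX_integral]
  rw [← Finset.mul_sum, Finset.sum_comm]
  congr 1
  apply Finset.sum_congr rfl
  intro i hi
  rw [Finset.mem_range] at hi
  rw [← Finset.mul_sum]
  by_cases hq : K.q x (i + 1) x = 0
  · rw [hq]; ring
  have hx : x ∈ K.reach x (i + 1) := by
    by_contra h'
    exact hq (K.q_zero h')
  have h5 : (i + 1) + (n - (i + 1)) = n := by omega
  have h6 : K.reach x (n - (i + 1)) ⊆ K.reach x n := by
    have := K.reach_add hx (n - (i + 1))
    rwa [h5] at this
  have h7 : ∑ y ∈ K.reach x n, K.q x (n - (i + 1)) y = 1 := by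
    rw [← K.q_sum x (n - (i + 1))]
    exact (Finset.sum_subset h6 (fun z _ hz => K.q_zero hz)).symm
  rw [h7, mul_one]

/-- second mixed moments -/
lemma WX2_succ (k : ℕ) (x : V) (w : ℕ → ℝ) (n : ℕ) :
    ∫ e, W K N k x (n + 1) e * (X N k x w (n + 1) e) ^ 2 ∂P ≤
      ∫ e, W K N k x n e * (X N k x w n e) ^ 2 ∂P +
      2 * N.γ ^ 2 * (w (n + 1) * ∑ i ∈ Finset.range n,
        w (i + 1) * K.q x (i + 1) x * K.q x (n + 1 - (i + 1)) x) +
      N.C * w (n + 1) ^ 2 := by
  -- expand over the end point
  have h1 : ∀ e, W K N k x (n + 1) e * (X N k x w (n + 1) e) ^ 2 =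
      ∑ y ∈ K.reach x (n + 1), ((cc K N k x n y e * (X N k x w n e) ^ 2) *
        N.G (k + n + 1) x y 0 e + (2 * w (n + 1) * ((cc K N k x n y e * (X N k x w n e) ^ 1) *
        N.G (k + n + 1) x y 1 e) + w (n + 1) ^ 2 * ((cc K N k x n y e * (X N k x w n e) ^ 0) *
        N.G (k + n + 1) x y 2 e))) := by
    intro e
    unfold W
    rw [Finset.sum_mul]
    apply Finset.sum_congr rfl
    intro y _
    simp only [Z_succ, X_succ, Noise.G]; ring
  have hi0 : ∀ y, Integrable (fun e => (cc K N k x n y e * (X N k x w n e) ^ 2) *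
        N.G (k + n + 1) x y 0 e) P :=
    fun y => ccXG_int K N k x w n y 2 0 (by norm_num) (by norm_num)
  have hi1 : ∀ y, Integrable (fun e => 2 * w (n + 1) * ((cc K N k x n y e *
      (X N k x w n e) ^ 1) * N.G (k + n + 1) x y 1 e)) P :=
    fun y => (ccXG_int K N k x w n y 1 1 (by norm_num) (by norm_num)).const_mul _
  have hi2 : ∀ y, Integrable (fun e => w (n + 1) ^ 2 * ((cc K N k x n y e *
      (X N k x w n e) ^ 0) * N.G (k + n + 1) x y 2 e)) P :=
    fun y => (ccXG_int K N k x w n y 0 2 (by norm_num) (by norm_num)).const_mul _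
  rw [integral_congr_ae (ae_of_all _ h1),
    integral_finsetSum _ fun y _ => (hi0 y).fun_add ((hi1 y).fun_add (hi2 y))]
  have h2 : ∀ y ∈ K.reach x (n + 1), ∫ e, ((cc K N k x n y e * (X N k x w n e) ^ 2) *
        N.G (k + n + 1) x y 0 e + (2 * w (n + 1) * ((cc K N k x n y e * (X N k x w n e) ^ 1) *
        N.G (k + n + 1) x y 1 e) + w (n + 1) ^ 2 * ((cc K N k x n y e * (X N k x w n e) ^ 0) *
        N.G (k + n + 1) x y 2 e))) ∂P ≤
      (∑ z ∈ K.reach x n, (∫ e, Z K N k x n z e * (X N k x w n e) ^ 2 ∂P) * K.p z y) +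
      ((if y = x then 2 * w (n + 1) * N.γ * ∫ e, cc K N k x n x e * (X N k x w n e) ^ 1 ∂P
        else 0) + w (n + 1) ^ 2 * (K.q x (n + 1) y * N.C)) := by
    intro y _
    rw [integral_add (hi0 y) ((hi1 y).fun_add (hi2 y)), integral_add (hi1 y) (hi2 y),
      integral_const_mul, integral_const_mul, ccXG_integral, ccXG_integral, ccXG_integral,
      N.G_zero, N.G_one, mul_one, ccX_integral K N k x w n y 2 (by norm_num)]
    have hq : ∫ e, cc K N k x n y e * (X N k x w n e) ^ 0 ∂P = K.q x (n + 1) y := by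
      simp only [pow_zero, mul_one]
      exact cc_integral K N k x n y
    rw [hq]
    have h3 : w (n + 1) ^ 2 * (K.q x (n + 1) y * ∫ e, N.G (k + n + 1) x y 2 e ∂P) ≤
        w (n + 1) ^ 2 * (K.q x (n + 1) y * N.C) :=
      mul_le_mul_of_nonneg_left (mul_le_mul_of_nonneg_left (N.G_two _ _ _)
        (K.q_nonneg _ _ _)) (sq_nonneg _)
    have h4 : 2 * w (n + 1) * ((∫ e, cc K N k x n y e * (X N k x w n e) ^ 1 ∂P) *
        if y = x then N.γ else 0) =
        if y = x then 2 * w (n + 1) * N.γ * ∫ e, cc K N k x n x e * (X N k x w n e) ^ 1 ∂P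
        else 0 := by
      by_cases h : y = x
      · subst h; simp; ring
      · simp [h]
    rw [h4]
    linarith
  refine (Finset.sum_le_sum h2).trans ?_
  rw [Finset.sum_add_distrib, Finset.sum_add_distrib, ← Finset.mul_sum, ← Finset.sum_mul,
    K.q_sum, one_mul]
  have h5 : ∑ y ∈ K.reach x (n + 1), ∑ z ∈ K.reach x n,
      (∫ e, Z K N k x n z e * (X N k x w n e) ^ 2 ∂P) * K.p z y =
      ∫ e, W K N k x n e * (X N k x w n e) ^ 2 ∂P := by
    rw [Finset.sum_comm]
    have h6 : ∀ e, W K N k x n e * (X N k x w n e) ^ 2 =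
        ∑ z ∈ K.reach x n, Z K N k x n z e * (X N k x w n e) ^ 2 := by
      intro e; unfold W; rw [Finset.sum_mul]
    rw [integral_congr_ae (ae_of_all _ h6),
      integral_finsetSum _ fun z _ => ZX_int K N k x w n z 2 (by norm_num)]
    apply Finset.sum_congr rfl
    intro z hz
    rw [← Finset.mul_sum, K.sum_reach hz, mul_one]
  have h7 : ∫ e, cc K N k x n x e * (X N k x w n e) ^ 1 ∂P =
      N.γ * ∑ i ∈ Finset.range n,
        w (i + 1) * K.q x (i + 1) x * K.q x (n + 1 - (i + 1)) x := by
    rw [ccX_integral K N k x w n x 1 (by norm_num)]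
    simp only [pow_one, ZX_integral]
    have h2 : ∀ z ∈ K.reach x n, (N.γ * ∑ i ∈ Finset.range n,
        w (i + 1) * K.q x (i + 1) x * K.q x (n - (i + 1)) z) * K.p z x =
        ∑ i ∈ Finset.range n, N.γ * (w (i + 1) * K.q x (i + 1) x) *
          (K.q x (n - (i + 1)) z * K.p z x) := by
      intro z _
      rw [Finset.mul_sum, Finset.sum_mul]
      apply Finset.sum_congr rfl
      intro i _
      ring
    rw [Finset.sum_congr rfl h2, Finset.sum_comm, Finset.mul_sum]
    apply Finset.sum_congr rfl
    intro i hi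
    rw [Finset.mem_range] at hi
    rw [← Finset.mul_sum]
    by_cases hq : K.q x (i + 1) x = 0
    · rw [hq]; ring
    have h3 : n + 1 - (i + 1) = (n - (i + 1)) + 1 := by omega
    have h5 : (i + 1) + (n - (i + 1)) = n := by omega
    have h4 := K.q_step (m := n - (i + 1)) hq x
    rw [h5] at h4
    rw [h4, h3]
    ring
  have h8 : ∑ y ∈ K.reach x (n + 1), (if y = x then 2 * w (n + 1) * N.γ *
      ∫ e, cc K N k x n x e * (X N k x w n e) ^ 1 ∂P else 0) =
      if x ∈ K.reach x (n + 1) then 2 * w (n + 1) * N.γ *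
      ∫ e, cc K N k x n x e * (X N k x w n e) ^ 1 ∂P else 0 := by
    rw [Finset.sum_ite_eq' (K.reach x (n + 1)) x]
  have h9 : (if x ∈ K.reach x (n + 1) then 2 * w (n + 1) * N.γ *
      ∫ e, cc K N k x n x e * (X N k x w n e) ^ 1 ∂P else 0) = 2 * w (n + 1) * N.γ *
      ∫ e, cc K N k x n x e * (X N k x w n e) ^ 1 ∂P := by
    split_ifs with h
    · rfl
    · -- then the integrand vanishes
      have h10 : ∀ e, cc K N k x n x e * (X N k x w n e) ^ 1 = 0 := by
        intro e
        unfold cc
        rw [Finset.sum_eq_zero, zero_mul]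
        intro z hz
        rw [K.zero z x (fun h' => h (K.nb_subset_reach hz h')), mul_zero]
      simp only [h10, integral_zero, mul_zero]
  rw [h8, h9, h7, h5]
  apply le_of_eq
  ring

/-- second moment of the statistic -/
lemma X2_integral (k : ℕ) (x : V) (w : ℕ → ℝ) (n : ℕ) :
    Integrable (X N k x w n) P ∧ Integrable (fun e => (X N k x w n e) ^ 2) P ∧
    ∫ e, (X N k x w n e) ^ 2 ∂P = N.γ * ∑ i ∈ Finset.range n, w (i + 1) ^ 2 := by
  induction n with
  | zero =>
    have h1 : X N k x w 0 = fun _ => 0 := by ext e; simp [X]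
    rw [h1]
    refine ⟨integrable_const _, ?_, ?_⟩
    · simp
    · simp
  | succ n ih =>
    obtain ⟨i1, i2, i3⟩ := ih
    have hη : Measurable[N.fut (k + n)] (N.η (k + n + 1) x) :=
      N.meas_sig (by show k + n < k + n + 1; omega)
    have hX := X_meas N k x w n
    have hXη := N.int_mul hX hη i1 (N.int1 _ _)
    have hXη' := N.integral_mul hX hη
    rw [N.mean, mul_zero] at hXη'
    have h1 : ∀ e, (X N k x w (n + 1) e) ^ 2 = (X N k x w n e) ^ 2 +
        (2 * w (n + 1) * (X N k x w n e * N.η (k + n + 1) x e) +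
        w (n + 1) ^ 2 * (N.η (k + n + 1) x e) ^ 2) := by
      intro e; rw [X_succ]; ring
    refine ⟨?_, ?_, ?_⟩
    · have : X N k x w (n + 1) = fun e => X N k x w n e + w (n + 1) * N.η (k + n + 1) x e := by
        ext e; exact X_succ N k x w n e
      rw [this]
      exact i1.add ((N.int1 _ _).const_mul _)
    · simp only [h1]
      exact i2.add ((hXη.const_mul _).add ((N.int2 _ _).const_mul _))
    · simp only [h1]
      rw [integral_add i2 ((hXη.const_mul _).fun_add ((N.int2 _ _).const_mul _)),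
        integral_add (hXη.const_mul _) ((N.int2 _ _).const_mul _), integral_const_mul,
        integral_const_mul, hXη', i3, N.var, Finset.sum_range_succ]
      ring

end Pool.Agent.H8.Polymer
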