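import Pool.Agent.H8.Polymer2

open MeasureTheory ProbabilityTheory Filter Topology

set_option linter.unusedSectionVars false
set_option linter.unusedDecidableInType false

namespace Pool.Agent.H8.Polymer

variable {V : Type*} [DecidableEq V]
variable {Ω : Type*} {mΩ : MeasurableSpace Ω} {P : Measure Ω} [IsProbabilityMeasure P]
variable (K : Kern V) (N : Noise P V)

/-- return probabilities -/
noncomputable def Kern.u (x : V) (n : ℕ) : ℝ := K.q x n x

/-- partial sums of the squares of the return probabilities -/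
noncomputable def Kern.D (x : V) (n : ℕ) : ℝ := ∑ i ∈ Finset.range n, K.u x (i + 1) ^ 2

lemma Kern.D_nonneg (x : V) (n : ℕ) : 0 ≤ K.D x n := Finset.sum_nonneg fun _ _ => sq_nonneg _

/-- `X_n` with the weights `u` -/
noncomputable def XX (k : ℕ) (x : V) (n : ℕ) (e : Ω) : ℝ := X N k x (K.u x) n e

lemma WXX_integral (k : ℕ) (x : V) (n : ℕ) :
    ∫ e, W K N k x n e * XX K N k x n e ∂P = N.γ * K.D x n := by
  unfold XX
  rw [WX_integral]
  congr 1
  apply Finset.sum_congr rfl
  intro i _
  unfold Kern.u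
  ring

/-- the double sum -/
lemma double_sum (f : ℕ → ℝ) (n : ℕ) :
    ∑ m ∈ Finset.range n, f (m + 1) * ∑ i ∈ Finset.range m,
      f (i + 1) ^ 2 * f (m - i) ≤ (∑ i ∈ Finset.range n, f (i + 1) ^ 2) ^ 2 := by
  have h1 : ∑ m ∈ Finset.range n, f (m + 1) * ∑ i ∈ Finset.range m,
      f (i + 1) ^ 2 * f (m - i) = ∑ i ∈ Finset.range n, ∑ m ∈ Finset.Ico (i + 1) n,
      f (i + 1) ^ 2 * (f (m + 1) * f (m - i)) := by
    simp only [Finset.mul_sum]
    rw [Finset.sum_comm' (t' := Finset.range n) (s' := fun i => Finset.Ico (i + 1) n)]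
    · apply Finset.sum_congr rfl
      intro i _
      apply Finset.sum_congr rfl
      intro m _
      ring
    · intro m i
      simp only [Finset.mem_range, Finset.mem_Ico]
      omega
  rw [h1, sq, Finset.sum_mul]
  apply Finset.sum_le_sum
  intro i hi
  rw [Finset.mem_range] at hi
  rw [← Finset.mul_sum]
  apply mul_le_mul_of_nonneg_left _ (sq_nonneg _)
  have h2 : ∑ m ∈ Finset.Ico (i + 1) n, f (m + 1) * f (m - i) ≤
      ∑ m ∈ Finset.Ico (i + 1) n, (1 / 2 * f (m + 1) ^ 2 + 1 / 2 * f (m - i) ^ 2) := by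
    apply Finset.sum_le_sum
    intro m _
    nlinarith [sq_nonneg (f (m + 1) - f (m - i))]
  refine h2.trans ?_
  rw [Finset.sum_add_distrib, ← Finset.mul_sum, ← Finset.mul_sum]
  have h3 : ∑ m ∈ Finset.Ico (i + 1) n, f (m + 1) ^ 2 ≤ ∑ m ∈ Finset.range n, f (m + 1) ^ 2 := by
    apply Finset.sum_le_sum_of_subset_of_nonneg
    · intro m hm
      rw [Finset.mem_Ico] at hm
      exact Finset.mem_range.2 hm.2
    · intro _ _ _; exact sq_nonneg _
  have h4 : ∑ m ∈ Finset.Ico (i + 1) n, f (m - i) ^ 2 ≤ ∑ m ∈ Finset.range n, f (m + 1) ^ 2 := by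
    rw [Finset.sum_Ico_eq_sum_range]
    have : ∀ l, i + 1 + l - i = l + 1 := fun l => by omega
    simp only [this]
    apply Finset.sum_le_sum_of_subset_of_nonneg
    · intro m hm
      rw [Finset.mem_range] at hm ⊢
      omega
    · intro _ _ _; exact sq_nonneg _
  linarith

lemma WXX2_integral (k : ℕ) (x : V) (n : ℕ) :
    ∫ e, W K N k x n e * (XX K N k x n e) ^ 2 ∂P ≤
      2 * N.γ ^ 2 * K.D x n ^ 2 + N.C * K.D x n := by
  have key : ∫ e, W K N k x n e * (XX K N k x n e) ^ 2 ∂P ≤
      2 * N.γ ^ 2 * (∑ m ∈ Finset.range n, K.u x (m + 1) * ∑ i ∈ Finset.range m,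
        K.u x (i + 1) ^ 2 * K.u x (m - i)) + N.C * K.D x n := by
    induction n with
    | zero => simp [XX, X, Kern.D]
    | succ n ih =>
      have h := WX2_succ K N k x (K.u x) n
      have h1 : ∑ i ∈ Finset.range n, K.u x (i + 1) * K.q x (i + 1) x * K.q x (n + 1 - (i + 1)) x
          = ∑ i ∈ Finset.range n, K.u x (i + 1) ^ 2 * K.u x (n - i) := by
        apply Finset.sum_congr rfl
        intro i _
        have : n + 1 - (i + 1) = n - i := by omega
        rw [this]
        unfold Kern.u
        ring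
      rw [h1] at h
      rw [Finset.sum_range_succ]
      have h2 : K.D x (n + 1) = K.D x n + K.u x (n + 1) ^ 2 := Finset.sum_range_succ _ _
      rw [h2]
      unfold XX at ih ⊢
      nlinarith [h, ih]
  refine key.trans ?_
  have := double_sum (K.u x) n
  have h3 : (∑ i ∈ Finset.range n, K.u x (i + 1) ^ 2) = K.D x n := rfl
  rw [h3] at this
  have h4 : 0 ≤ 2 * N.γ ^ 2 := by positivity
  nlinarith [mul_le_mul_of_nonneg_left this h4]

lemma XX_meas (k : ℕ) (x : V) (n : ℕ) : Measurable[N.past (k + n)] (XX K N k x n) :=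
  X_meas N k x _ n

lemma WXX_int (k : ℕ) (x : V) (n : ℕ) (l : ℕ) (hl : l ≤ 2) :
    Integrable (fun e => W K N k x n e * (XX K N k x n e) ^ l) P := by
  have : (fun e => W K N k x n e * (XX K N k x n e) ^ l) = fun e =>
      ∑ z ∈ K.reach x n, (Z K N k x n z e * (XX K N k x n e) ^ l) := by
    ext e
    unfold W
    rw [Finset.sum_mul]
  rw [this]
  exact integrable_finsetSum _ fun z _ => (ZX_int K N k x _ n z l hl)

/-- Paley–Zygmund type estimate under the size-biased law -/
lemma pz (k : ℕ) (x : V) (n : ℕ) (hD : 0 < K.D x n) (hD2 : N.C ≤ N.γ ^ 2 * K.D x n) :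
    ∫ e in {e | XX K N k x n e < N.γ * K.D x n / 2}, W K N k x n e ∂P ≤ 11 / 12 := by
  set a := N.γ * K.D x n with ha
  have hapos : 0 < a := mul_pos N.γpos hD
  set A : Set Ω := {e | XX K N k x n e < a / 2} with hA
  have hXm : Measurable (XX K N k x n) := (XX_meas K N k x n).mono (N.past_le _) le_rfl
  have hAm : MeasurableSet A := measurableSet_lt hXm measurable_const
  have hWi := W_int K N k x n
  have hWX : Integrable (fun e => W K N k x n e * XX K N k x n e) P := by
    simpa using WXX_int K N k x n 1 (by norm_num)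
  have hWX2 := WXX_int K N k x n 2 (by norm_num)
  have hsplit : ∫ e in A, W K N k x n e ∂P + ∫ e in Aᶜ, W K N k x n e ∂P = 1 := by
    rw [integral_add_compl hAm hWi, W_integral]
  have hM2 : ∫ e, W K N k x n e * (XX K N k x n e) ^ 2 ∂P ≤ 3 * a ^ 2 := by
    refine (WXX2_integral K N k x n).trans ?_
    have : N.C * K.D x n ≤ N.γ ^ 2 * K.D x n * K.D x n :=
      mul_le_mul_of_nonneg_right hD2 hD.le
    rw [ha]; nlinarith
  -- split the first moment
  have h1 : ∫ e in A, W K N k x n e * XX K N k x n e ∂P ≤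
      a / 2 * ∫ e in A, W K N k x n e ∂P := by
    rw [← integral_const_mul]
    apply setIntegral_mono_on hWX.integrableOn (hWi.const_mul _).integrableOn hAm
    intro e he
    have he' : XX K N k x n e < a / 2 := he
    have := W_nonneg K N k x n e
    nlinarith
  have h2 : ∫ e in Aᶜ, W K N k x n e * XX K N k x n e ∂P ≤
      ∫ e in Aᶜ, (1 / (12 * a) * (W K N k x n e * (XX K N k x n e) ^ 2) +
        3 * a * W K N k x n e) ∂P := by
    apply setIntegral_mono_on hWX.integrableOn
      ((hWX2.const_mul _).fun_add (hWi.const_mul _)).integrableOn hAm.compl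
    intro e _
    have h3 : XX K N k x n e ≤ 1 / (12 * a) * (XX K N k x n e) ^ 2 + 3 * a := by
      have h4 : 1 / (12 * a) * (XX K N k x n e) ^ 2 + 3 * a - XX K N k x n e =
          (XX K N k x n e - 6 * a) ^ 2 / (12 * a) := by
        field_simp
        ring
      have h5 : 0 ≤ (XX K N k x n e - 6 * a) ^ 2 / (12 * a) := by positivity
      linarith
    have := mul_le_mul_of_nonneg_left h3 (W_nonneg K N k x n e)
    linarith
  have h6 : ∫ e in Aᶜ, (1 / (12 * a) * (W K N k x n e * (XX K N k x n e) ^ 2) +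
        3 * a * W K N k x n e) ∂P ≤ a / 4 + 3 * a * ∫ e in Aᶜ, W K N k x n e ∂P := by
    rw [integral_add (hWX2.const_mul _).integrableOn (hWi.const_mul _).integrableOn,
      integral_const_mul, integral_const_mul]
    have h7 : ∫ e in Aᶜ, W K N k x n e * (XX K N k x n e) ^ 2 ∂P ≤ 3 * a ^ 2 := by
      refine le_trans (setIntegral_le_integral hWX2 (ae_of_all _ fun e => ?_)) hM2
      exact mul_nonneg (W_nonneg K N k x n e) (sq_nonneg _)
    have h8 : 1 / (12 * a) * ∫ e in Aᶜ, W K N k x n e * (XX K N k x n e) ^ 2 ∂P ≤ a / 4 := by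
      calc _ ≤ 1 / (12 * a) * (3 * a ^ 2) := by
            apply mul_le_mul_of_nonneg_left h7; positivity
        _ = a / 4 := by field_simp; ring
    linarith
  have h9 : ∫ e in A, W K N k x n e * XX K N k x n e ∂P +
      ∫ e in Aᶜ, W K N k x n e * XX K N k x n e ∂P = a := by
    rw [integral_add_compl hAm hWX, WXX_integral]
  have h10 : 0 ≤ ∫ e in A, W K N k x n e ∂P :=
    setIntegral_nonneg hAm fun e _ => W_nonneg K N k x n e
  -- combine
  have h11 : a ≤ a / 2 * (∫ e in A, W K N k x n e ∂P) + a / 4 +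
      3 * a * ∫ e in Aᶜ, W K N k x n e ∂P := by linarith
  set s := ∫ e in A, W K N k x n e ∂P
  set t := ∫ e in Aᶜ, W K N k x n e ∂P
  have h12 : 1 ≤ s / 2 + 1 / 4 + 3 * t := by
    by_contra hcon
    push Not at hcon
    have := mul_lt_mul_of_pos_left hcon hapos
    linarith
  linarith

/-- The statistic is rarely large under the original law -/
lemma cheb (k : ℕ) (x : V) (n : ℕ) (hD : 0 < K.D x n) :
    P.real {e | N.γ * K.D x n / 2 ≤ XX K N k x n e} ≤ 4 / (N.γ * K.D x n) := by
  set a := N.γ * K.D x n with ha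
  have hapos : 0 < a := mul_pos N.γpos hD
  obtain ⟨-, i2, i3⟩ := X2_integral N k x (K.u x) n
  have h1 := mul_meas_ge_le_integral_of_nonneg (μ := P) (f := fun e => (XX K N k x n e) ^ 2)
    (ae_of_all _ fun e => sq_nonneg _) i2 ((a / 2) ^ 2)
  have h2 : ∫ e, (XX K N k x n e) ^ 2 ∂P = a := i3
  rw [h2] at h1
  have h3 : P.real {e | a / 2 ≤ XX K N k x n e} ≤
      P.real {e | (a / 2) ^ 2 ≤ (XX K N k x n e) ^ 2} := by
    apply measureReal_mono
    · intro e he
      have he' : a / 2 ≤ XX K N k x n e := he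
      show (a / 2) ^ 2 ≤ (XX K N k x n e) ^ 2
      exact pow_le_pow_left₀ (by positivity) he' 2
    · exact measure_ne_top _ _
  have h4 : P.real {e | (a / 2) ^ 2 ≤ (XX K N k x n e) ^ 2} ≤ a / (a / 2) ^ 2 := by
    rw [le_div_iff₀ (by positivity), mul_comm]; exact h1
  refine h3.trans (h4.trans (le_of_eq ?_))
  field_simp
  ring

/-! ### The martingale -/

lemma sum_cc (k : ℕ) (x : V) (n : ℕ) (e : Ω) :
    ∑ y ∈ K.reach x (n + 1), cc K N k x n y e = W K N k x n e := by
  unfold cc W
  rw [Finset.sum_comm]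
  apply Finset.sum_congr rfl
  intro z hz
  rw [← Finset.mul_sum, K.sum_reach hz, mul_one]

lemma cc_int (k : ℕ) (x : V) (n : ℕ) (y : V) : Integrable (cc K N k x n y) P := by
  have := ccX_int K N k x (fun _ => 0) n y 0 (by norm_num)
  simpa using this

lemma setIntegral_W_succ (k : ℕ) (x : V) (n : ℕ) {s : Set Ω}
    (hs : MeasurableSet[N.past (k + n)] s) :
    ∫ e in s, W K N k x (n + 1) e ∂P = ∫ e in s, W K N k x n e ∂P := by
  have hs' : MeasurableSet s := N.past_le _ s hs
  have h1 : ∀ y, ∫ e in s, Z K N k x (n + 1) y e ∂P = ∫ e in s, cc K N k x n y e ∂P := by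
    intro y
    rw [← integral_indicator hs', ← integral_indicator hs']
    have h2 : ∀ e, s.indicator (Z K N k x (n + 1) y) e =
        s.indicator (cc K N k x n y) e * N.G (k + n + 1) x y 0 e := by
      intro e
      by_cases he : e ∈ s
      · simp only [Set.indicator_of_mem he, Z_succ, Noise.G]; ring
      · simp only [Set.indicator_of_notMem he, zero_mul]
    rw [integral_congr_ae (ae_of_all _ h2), N.integral_mul (m := k + n), N.G_zero, mul_one]
    · exact (cc_meas K N k x n y).indicator hs
    · exact N.G_meas _ _ (by omega) _ _ _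
  have h3 : ∫ e in s, W K N k x (n + 1) e ∂P =
      ∑ y ∈ K.reach x (n + 1), ∫ e in s, Z K N k x (n + 1) y e ∂P := by
    unfold W
    exact integral_finsetSum _ fun y _ => (Z_int K N k x (n + 1) y).integrableOn
  rw [h3]
  simp only [h1]
  rw [← integral_finsetSum _ fun y _ => (cc_int K N k x n y).integrableOn]
  apply integral_congr_ae
  exact ae_of_all _ fun e => sum_cc K N k x n e

lemma setIntegral_W (k : ℕ) (x : V) {n m : ℕ} (hnm : n ≤ m) {s : Set Ω}
    (hs : MeasurableSet[N.past (k + n)] s) :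
    ∫ e in s, W K N k x m e ∂P = ∫ e in s, W K N k x n e ∂P := by
  induction m, hnm using Nat.le_induction with
  | base => rfl
  | succ m hm ih =>
    rw [setIntegral_W_succ K N k x m (N.past_mono (by omega) s hs), ih]

/-- the filtration of the noise started at time `k` -/
def filt (k : ℕ) : Filtration ℕ mΩ where
  seq n := N.past (k + n)
  mono' := fun _ _ h => N.past_mono (by omega)
  le' := fun _ => N.past_le _

lemma W_martingale (k : ℕ) (x : V) : Martingale (W K N k x) (filt N k) P := by
  apply martingale_nat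
  · intro n
    exact (W_meas_past K N k x n).stronglyMeasurable
  · exact W_int K N k x
  · intro n
    apply ae_eq_condExp_of_forall_setIntegral_eq (N.past_le (k + n)) (W_int K N k x (n + 1))
    · intro s _ _
      exact (W_int K N k x n).integrableOn
    · intro s hs _
      exact (setIntegral_W_succ K N k x n hs).symm
    · exact (W_meas_past K N k x n).stronglyMeasurable.aestronglyMeasurable

lemma W_converges (k : ℕ) (x : V) :
    ∀ᵐ e ∂P, ∃ c, Tendsto (fun n => W K N k x n e) atTop (𝓝 c) := by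
  apply (W_martingale K N k x).submartingale.exists_ae_tendsto_of_bdd (R := 1)
  intro n
  rw [eLpNorm_one_eq_lintegral_enorm]
  have h1 : ∀ e, ‖W K N k x n e‖ₑ = ENNReal.ofReal (W K N k x n e) := fun e =>
    Real.enorm_of_nonneg (W_nonneg K N k x n e)
  simp only [h1]
  rw [← ofReal_integral_eq_lintegral_ofReal (W_int K N k x n)
    (ae_of_all _ (W_nonneg K N k x n)), W_integral]
  simp

/-- the limit -/
noncomputable def Linf (k : ℕ) (x : V) (e : Ω) : ENNReal :=
  liminf (fun n => ENNReal.ofReal (W K N k x n e)) atTop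

/-- the limit as a real number -/
noncomputable def Rinf (k : ℕ) (x : V) (e : Ω) : ℝ := (Linf K N k x e).toReal

lemma Linf_meas (k : ℕ) (x : V) : Measurable (Linf K N k x) := by
  apply Measurable.liminf
  intro n
  exact ((W_meas_past K N k x n).mono (N.past_le _) le_rfl).ennreal_ofReal

lemma Linf_meas_fut (k : ℕ) (x : V) : Measurable[N.fut k] (Linf K N k x) := by
  apply Measurable.liminf
  intro n
  exact (W_meas_fut K N k x n).ennreal_ofReal

lemma Linf_meas_past (k : ℕ) (x : V) : Measurable[⨆ n, filt N k n] (Linf K N k x) := by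
  apply Measurable.liminf
  intro n
  have h1 : filt N k n ≤ ⨆ n, filt N k n := le_iSup (fun n => (filt N k : ℕ → MeasurableSpace Ω) n) n
  exact ((W_meas_past K N k x n).mono h1 le_rfl).ennreal_ofReal

lemma Rinf_tendsto (k : ℕ) (x : V) :
    ∀ᵐ e ∂P, Tendsto (fun n => W K N k x n e) atTop (𝓝 (Rinf K N k x e)) := by
  filter_upwards [W_converges K N k x] with e he
  obtain ⟨c, hc⟩ := he
  have hc0 : 0 ≤ c := ge_of_tendsto' hc (W_nonneg K N k x · e)
  have h1 : Tendsto (fun n => ENNReal.ofReal (W K N k x n e)) atTop (𝓝 (ENNReal.ofReal c)) :=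
    ENNReal.tendsto_ofReal hc
  have h2 : Rinf K N k x e = c := by
    unfold Rinf Linf
    rw [h1.liminf_eq, ENNReal.toReal_ofReal hc0]
  rw [h2]
  exact hc

lemma setLIntegral_Linf_le (k : ℕ) (x : V) (n : ℕ) {s : Set Ω}
    (hs : MeasurableSet[N.past (k + n)] s) :
    ∫⁻ e in s, Linf K N k x e ∂P ≤ ENNReal.ofReal (∫ e in s, W K N k x n e ∂P) := by
  unfold Linf
  refine (lintegral_liminf_le fun m =>
    ((W_meas_past K N k x m).mono (N.past_le _) le_rfl).ennreal_ofReal).trans ?_
  have h1 : ∀ m ≥ n, ∫⁻ e in s, ENNReal.ofReal (W K N k x m e) ∂P =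
      ENNReal.ofReal (∫ e in s, W K N k x n e ∂P) := by
    intro m hm
    rw [← ofReal_integral_eq_lintegral_ofReal (W_int K N k x m).integrableOn
      (ae_of_all _ (W_nonneg K N k x m)), setIntegral_W K N k x hm hs]
  have h2 : (fun m => ∫⁻ e in s, ENNReal.ofReal (W K N k x m e) ∂P) =ᶠ[atTop]
      fun _ => ENNReal.ofReal (∫ e in s, W K N k x n e ∂P) := by
    filter_upwards [eventually_ge_atTop n] with m hm using h1 m hm
  rw [liminf_congr h2, liminf_const]

lemma lintegral_Linf_le_one (k : ℕ) (x : V) : ∫⁻ e, Linf K N k x e ∂P ≤ 1 := by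
  have := setLIntegral_Linf_le K N k x 0 (s := Set.univ) MeasurableSet.univ
  rw [setLIntegral_univ, setIntegral_univ, W_integral] at this
  simpa using this

/-- The key bound -/
lemma lintegral_Linf_le (k : ℕ) (x : V) (hdiv : ¬ Summable fun i => K.u x (i + 1) ^ 2) :
    ∫⁻ e, Linf K N k x e ∂P ≤ ENNReal.ofReal (11 / 12) := by
  have hDtop : Tendsto (K.D x) atTop atTop :=
    (not_summable_iff_tendsto_nat_atTop_of_nonneg fun i => sq_nonneg _).1 hdiv
  let A : ℕ → Set Ω := fun n => {e | N.γ * K.D x n / 2 ≤ XX K N k x n e}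
  have hAm : ∀ n, MeasurableSet[N.past (k + n)] (A n) := fun n =>
    (XX_meas K N k x n) measurableSet_Ici
  have hγD : Tendsto (fun n => N.γ * K.D x n) atTop atTop := hDtop.const_mul_atTop N.γpos
  have hPA : Tendsto (fun n => P (A n)) atTop (𝓝 0) := by
    have h1 : Tendsto (fun n => 4 / (N.γ * K.D x n)) atTop (𝓝 0) :=
      tendsto_const_nhds.div_atTop hγD
    have h2 : Tendsto (fun n => P.real (A n)) atTop (𝓝 0) := by
      apply squeeze_zero' (Eventually.of_forall fun n => measureReal_nonneg) _ h1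
      filter_upwards [hDtop.eventually_gt_atTop 0] with n hn
      exact cheb K N k x n hn
    have h3 := ENNReal.tendsto_ofReal h2
    simpa [measureReal_def, measure_ne_top] using h3
  have hlim : Tendsto (fun n => ∫⁻ e in A n, Linf K N k x e ∂P) atTop (𝓝 0) :=
    tendsto_setLIntegral_zero
      ((lintegral_Linf_le_one K N k x).trans_lt ENNReal.one_lt_top).ne hPA
  have hbound : ∀ᶠ n in atTop, ∫⁻ e, Linf K N k x e ∂P ≤
      ∫⁻ e in A n, Linf K N k x e ∂P + ENNReal.ofReal (11 / 12) := by
    filter_upwards [hDtop.eventually_gt_atTop 0,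
      hDtop.eventually_ge_atTop (N.C / N.γ ^ 2)] with n hn hn2
    have hA' : MeasurableSet (A n) := N.past_le _ _ (hAm n)
    rw [← lintegral_add_compl _ hA']
    gcongr
    refine (setLIntegral_Linf_le K N k x n (hAm n).compl).trans ?_
    apply ENNReal.ofReal_le_ofReal
    have hc : (A n)ᶜ = {e | XX K N k x n e < N.γ * K.D x n / 2} := by
      ext e; simp [A]
    rw [hc]
    apply pz K N k x n hn
    rw [div_le_iff₀ (by have := N.γpos; positivity)] at hn2
    linarith
  have hlim2 : Tendsto (fun n => ∫⁻ e in A n, Linf K N k x e ∂P + ENNReal.ofReal (11 / 12))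
      atTop (𝓝 (0 + ENNReal.ofReal (11 / 12))) := hlim.add tendsto_const_nhds
  rw [zero_add] at hlim2
  exact ge_of_tendsto hlim2 hbound

lemma Rinf_integrable (k : ℕ) (x : V) : Integrable (Rinf K N k x) P :=
  integrable_toReal_of_lintegral_ne_top (Linf_meas K N k x).aemeasurable
    ((lintegral_Linf_le_one K N k x).trans_lt ENNReal.one_lt_top).ne

lemma Rinf_nonneg (k : ℕ) (x : V) (e : Ω) : 0 ≤ Rinf K N k x e := ENNReal.toReal_nonneg

lemma Rinf_integral_le (k : ℕ) (x : V) (hdiv : ¬ Summable fun i => K.u x (i + 1) ^ 2) :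
    ∫ e, Rinf K N k x e ∂P ≤ 11 / 12 := by
  have hne : ∫⁻ e, Linf K N k x e ∂P ≠ ⊤ :=
    ((lintegral_Linf_le_one K N k x).trans_lt ENNReal.one_lt_top).ne
  have h1 : ∫ e, Rinf K N k x e ∂P = (∫⁻ e, Linf K N k x e ∂P).toReal :=
    integral_toReal (Linf_meas K N k x).aemeasurable
      (ae_lt_top (Linf_meas K N k x) hne)
  rw [h1]
  have := ENNReal.toReal_mono ENNReal.ofReal_ne_top (lintegral_Linf_le K N k x hdiv)
  rwa [ENNReal.toReal_ofReal (by norm_num)] at this

/-! ### Chapman–Kolmogorov -/

lemma Z_add (s : ℕ) (x : V) (k n : ℕ) (y : V) (e : Ω) :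
    Z K N s x (k + n) y e = ∑ z ∈ K.reach x k, Z K N s x k z e * Z K N (s + k) z n y e := by
  induction n generalizing y with
  | zero =>
    simp only [add_zero, Z, mul_ite, mul_one, mul_zero]
    rw [Finset.sum_ite_eq]
    split_ifs with h
    · rfl
    · exact Z_zero' K N h e
  | succ n ih =>
    have h1 : Z K N s x (k + (n + 1)) y e =
        (1 + N.η (s + (k + n) + 1) y e) * cc K N s x (k + n) y e := Z_succ K N s x (k + n) y e
    rw [h1]
    have h2 : ∀ z ∈ K.reach x k, Z K N s x k z e * Z K N (s + k) z (n + 1) y e =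
        (1 + N.η (s + (k + n) + 1) y e) *
          ∑ v ∈ K.reach x (k + n), (Z K N s x k z e * Z K N (s + k) z n v e) * K.p v y := by
      intro z hz
      rw [Z_succ]
      have h3 : cc K N (s + k) z n y e =
          ∑ v ∈ K.reach x (k + n), Z K N (s + k) z n v e * K.p v y := by
        unfold cc
        apply Finset.sum_subset (K.reach_add hz n)
        intro v _ hv
        rw [Z_zero' K N hv, zero_mul]
      rw [h3, show s + k + n + 1 = s + (k + n) + 1 by ring]
      simp only [mul_assoc]
      rw [← Finset.mul_sum]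
      ring
    rw [Finset.sum_congr rfl h2, ← Finset.mul_sum, Finset.sum_comm]
    congr 1
    unfold cc
    apply Finset.sum_congr rfl
    intro v _
    rw [ih, Finset.sum_mul]

lemma W_add (s : ℕ) (x : V) (k n : ℕ) (e : Ω) :
    W K N s x (k + n) e = ∑ z ∈ K.reach x k, Z K N s x k z e * W K N (s + k) z n e := by
  unfold W
  simp only [Z_add, Finset.mul_sum]
  rw [Finset.sum_comm]
  apply Finset.sum_congr rfl
  intro z hz
  symm
  apply Finset.sum_subset (K.reach_add hz n)
  intro v _ hv
  rw [Z_zero' K N hv, mul_zero]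

/-- **General criterion**: if the squares of the return probabilities to every reachable site are
not summable, the partition functions tend to zero almost surely. -/
theorem W_tendsto_zero (x : V)
    (hdiv : ∀ n, ∀ z ∈ K.reach x n, ¬ Summable fun i => K.u z (i + 1) ^ 2) :
    ∀ᵐ e ∂P, Tendsto (fun n => W K N 0 x n e) atTop (𝓝 0) := by
  -- conditional expectations of the limit
  have hcond : ∀ k : ℕ, ∀ᵐ e ∂P, (P[Rinf K N 0 x | filt N 0 k]) e ≤ 11 / 12 * W K N 0 x k e := by
    intro k
    have hsum : Rinf K N 0 x =ᵐ[P]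
        fun e => ∑ z ∈ K.reach x k, Z K N 0 x k z e * Rinf K N k z e := by
      have hall : ∀ᵐ e ∂P, ∀ z ∈ K.reach x k,
          Tendsto (fun n => W K N k z n e) atTop (𝓝 (Rinf K N k z e)) := by
        rw [Finset.eventually_all]
        intro z _
        exact Rinf_tendsto K N k z
      filter_upwards [Rinf_tendsto K N 0 x, hall] with e h1 h2
      have h3 : Tendsto (fun n => W K N 0 x (k + n) e) atTop (𝓝 (Rinf K N 0 x e)) :=
        h1.comp (tendsto_add_atTop_nat k |>.congr fun n => by ring)
      have h4 : Tendsto (fun n => W K N 0 x (k + n) e) atTop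
          (𝓝 (∑ z ∈ K.reach x k, Z K N 0 x k z e * Rinf K N k z e)) := by
        have h5 : ∀ n, W K N 0 x (k + n) e =
            ∑ z ∈ K.reach x k, Z K N 0 x k z e * W K N k z n e := by
          intro n
          have := W_add K N 0 x k n e
          rwa [zero_add] at this
        simp only [h5]
        exact tendsto_finsetSum _ fun z hz => (h2 z hz).const_mul _
      exact tendsto_nhds_unique h3 h4
    have hZm : ∀ z, StronglyMeasurable[filt N 0 k] (Z K N 0 x k z) := fun z =>
      (Z_meas_past K N 0 x k z).stronglyMeasurable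
    have hRfut : ∀ z, Measurable[N.fut k] (Rinf K N k z) := fun z =>
      (Linf_meas_fut K N k z).ennreal_toReal
    have hprodint : ∀ z, Integrable (fun e => Z K N 0 x k z e * Rinf K N k z e) P := by
      intro z
      apply N.int_mul (m := k)
      · have := Z_meas_past K N 0 x k z
        rwa [zero_add] at this
      · exact hRfut z
      · exact Z_int K N 0 x k z
      · exact Rinf_integrable K N k z
    have hterm : ∀ z, P[fun e => Z K N 0 x k z e * Rinf K N k z e | filt N 0 k] =ᵐ[P]
        fun e => Z K N 0 x k z e * ∫ e, Rinf K N k z e ∂P := by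
      intro z
      have h1 := condExp_mul_of_stronglyMeasurable_left (μ := P) (hZm z) (hprodint z)
        (Rinf_integrable K N k z)
      have hind : Indep (N.fut k) (filt N 0 k) P := by
        have := (N.indep_past_fut k).symm
        have h2 : (filt N 0 k : MeasurableSpace Ω) = N.past k := by
          show N.past (0 + k) = N.past k
          rw [zero_add]
        rwa [h2]
      have h2 := condExp_indep_eq (μ := P) (N.fut_le k) ((filt N 0).le k)
        (hRfut z).stronglyMeasurable hind
      filter_upwards [h1, h2] with e h3 h4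
      have h5 : (P[fun e => Z K N 0 x k z e * Rinf K N k z e | filt N 0 k]) e =
        (Z K N 0 x k z * P[Rinf K N k z | filt N 0 k]) e := h3
      rw [h5, Pi.mul_apply, h4]
    have h1 : P[Rinf K N 0 x | filt N 0 k] =ᵐ[P]
        fun e => ∑ z ∈ K.reach x k, Z K N 0 x k z e * ∫ e, Rinf K N k z e ∂P := by
      have h2 := condExp_congr_ae (m := filt N 0 k) hsum
      have h3 : P[fun e => ∑ z ∈ K.reach x k, Z K N 0 x k z e * Rinf K N k z e | filt N 0 k]
          =ᵐ[P] ∑ z ∈ K.reach x k, P[fun e => Z K N 0 x k z e * Rinf K N k z e | filt N 0 k] := by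
        have h4 : (fun e => ∑ z ∈ K.reach x k, Z K N 0 x k z e * Rinf K N k z e) =
            ∑ z ∈ K.reach x k, fun e => Z K N 0 x k z e * Rinf K N k z e := by
          ext e; simp
        rw [h4]
        exact condExp_finsetSum (fun z _ => hprodint z) _
      have h5 : ∀ᵐ e ∂P, ∀ z ∈ K.reach x k,
          (P[fun e => Z K N 0 x k z e * Rinf K N k z e | filt N 0 k]) e =
            Z K N 0 x k z e * ∫ e, Rinf K N k z e ∂P := by
        rw [Finset.eventually_all]
        intro z _
        exact hterm z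
      filter_upwards [h2, h3, h5] with e h6 h7 h8
      rw [h6, h7, Finset.sum_apply]
      exact Finset.sum_congr rfl h8
    filter_upwards [h1] with e he
    rw [he]
    have h2 : 11 / 12 * W K N 0 x k e = ∑ z ∈ K.reach x k, Z K N 0 x k z e * (11 / 12) := by
      unfold W
      rw [← Finset.sum_mul]; ring
    rw [h2]
    apply Finset.sum_le_sum
    intro z hz
    apply mul_le_mul_of_nonneg_left _ (Z_nonneg K N 0 x k z e)
    exact Rinf_integral_le K N k z (hdiv k z hz)
  -- Lévy
  have hmeas : StronglyMeasurable[⨆ n, filt N 0 n] (Rinf K N 0 x) :=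
    (Linf_meas_past K N 0 x).ennreal_toReal.stronglyMeasurable
  have hlevy := (Rinf_integrable K N 0 x).tendsto_ae_condExp hmeas
  filter_upwards [hlevy, ae_all_iff.2 hcond, Rinf_tendsto K N 0 x] with e h1 h2 h3
  have h4 : Rinf K N 0 x e ≤ 11 / 12 * Rinf K N 0 x e :=
    le_of_tendsto_of_tendsto' h1 (h3.const_mul (11 / 12)) h2
  have h5 := Rinf_nonneg K N 0 x e
  have h6 : Rinf K N 0 x e = 0 := by linarith
  rwa [h6] at h3

end Pool.Agent.H8.Polymer
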