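import Mathlib

/-!
# Directed polymers and biased random walks on Galton–Watson trees: definitions

Trees are coded by words of natural numbers (Ulam–Harris coding, the most recent index first):
the root is the empty word and the vertex `v`, which has `c v` children, has the children `i :: v`
with `i < c v`.  The parent of `j :: v` is `v`.
-/

open MeasureTheory ProbabilityTheory Filter Topology

namespace Pool.Agent.H8.Polymer

/-- The children of the word `v` when `v` has `c v` children: the words `i :: v`, `i < c v`. -/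
def children (c : List ℕ → ℕ) (v : List ℕ) : Finset (List ℕ) :=
  (Finset.range (c v)).image (fun i => i :: v)

/-- The word `v` is a vertex of the rooted tree with offspring numbers `c`. -/
def IsVertex (c : List ℕ → ℕ) : List ℕ → Prop
  | [] => True
  | i :: v => IsVertex c v ∧ i < c v

/-- One-step probabilities of the `lam`-biased walk on the tree with offspring numbers `c`:
from the root to a uniformly chosen child; from a vertex with `k` children which is not the root,
to the parent with probability `lam / (lam + k)` and to each child with probability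
`1 / (lam + k)`. -/
noncomputable def biasedStep (lam : ℝ) (c : List ℕ → ℕ) : List ℕ → List ℕ → ℝ
  | [], y => if y ∈ children c [] then 1 / (c [] : ℝ) else 0
  | j :: v, y => if y = v then lam / (lam + c (j :: v))
      else if y ∈ children c (j :: v) then 1 / (lam + c (j :: v)) else 0

/-- `S` is (a realisation of) the `lam`-biased random walk on the tree with offspring numbers `c`,
started at the root. -/
structure IsBiasedWalk {Ξ : Type*} [MeasurableSpace Ξ] (lam : ℝ) (c : List ℕ → ℕ) (ν : Measure Ξ)
    (S : ℕ → Ξ → List ℕ) : Prop where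
  /-- the positions are random variables -/
  meas : ∀ n v, MeasurableSet {ξ | S n ξ = v}
  /-- the walk starts at the root -/
  start : ∀ᵐ ξ ∂ν, S 0 ξ = []
  /-- the Markov property with the transition probabilities of the biased walk -/
  markov : ∀ (n : ℕ) (x : ℕ → List ℕ),
    ν {ξ | ∀ i ≤ n + 1, S i ξ = x i} =
      ν {ξ | ∀ i ≤ n, S i ξ = x i} * ENNReal.ofReal (biasedStep lam c (x n) (x (n + 1)))

/-- The environment: i.i.d. real random variables `ω n v`, non-constant, with finite exponential
moments of all orders. -/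
structure IsEnvironment {Ω : Type*} [MeasurableSpace Ω] (P : Measure Ω)
    (ω : ℕ → List ℕ → Ω → ℝ) : Prop where
  meas : ∀ n v, Measurable (ω n v)
  indep : iIndepFun (fun q : ℕ × List ℕ => ω q.1 q.2) P
  ident : ∀ n v, IdentDistrib (ω n v) (ω 1 []) P P
  nonconst : ¬ ∃ a : ℝ, ∀ᵐ e ∂P, ω 1 [] e = a
  expMoments : ∀ t : ℝ, Integrable (fun e => Real.exp (t * ω 1 [] e)) P

/-- `Λ(β) = log E exp (β ω)`. -/
noncomputable def logMoment {Ω : Type*} [MeasurableSpace Ω] (P : Measure Ω)
    (ω : ℕ → List ℕ → Ω → ℝ) (β : ℝ) : ℝ :=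
  Real.log (∫ e, Real.exp (β * ω 1 [] e) ∂P)

/-- The normalised partition function
`W_n(β) = E exp (∑_{i=1}^n (β ω(i, S_i) - Λ(β)))`, the expectation being over the walk only. -/
noncomputable def polymerW {Ω Ξ : Type*} [MeasurableSpace Ω] [MeasurableSpace Ξ] (P : Measure Ω)
    (ω : ℕ → List ℕ → Ω → ℝ) (ν : Measure Ξ) (S : ℕ → Ξ → List ℕ) (β : ℝ) (n : ℕ) (e : Ω) : ℝ :=
  ∫ ξ, Real.exp (∑ i ∈ Finset.Icc 1 n, (β * ω i (S i ξ) e - logMoment P ω β)) ∂ν

/-- Weak disorder at `β`: almost surely `W_n(β)` converges to a positive limit. -/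
def WeakDisorder {Ω Ξ : Type*} [MeasurableSpace Ω] [MeasurableSpace Ξ] (P : Measure Ω)
    (ω : ℕ → List ℕ → Ω → ℝ) (ν : Measure Ξ) (S : ℕ → Ξ → List ℕ) (β : ℝ) : Prop :=
  ∀ᵐ e ∂P, ∃ w : ℝ, 0 < w ∧ Tendsto (fun n => polymerW P ω ν S β n e) atTop (𝓝 w)

/-- The critical inverse temperature `β_c = sup {β ≥ 0 : weak disorder holds at β}`. -/
noncomputable def criticalBeta {Ω Ξ : Type*} [MeasurableSpace Ω] [MeasurableSpace Ξ]
    (P : Measure Ω) (ω : ℕ → List ℕ → Ω → ℝ) (ν : Measure Ξ) (S : ℕ → Ξ → List ℕ) : ℝ :=
  sSup {β : ℝ | 0 ≤ β ∧ WeakDisorder P ω ν S β}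

end Pool.Agent.H8.Polymer
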