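import Pool.Agent.H8.Polymer3
import Pool.Agent.H8.PolymerDefs

/-!
# The biased walk on a tree: a lower bound for the return probabilities
-/

open MeasureTheory ProbabilityTheory Filter Topology Finset

set_option linter.unusedSectionVars false
set_option linter.unusedDecidableInType false

namespace Pool.Agent.H8.Polymer

/-- neighbours -/
def nbr (c : List ℕ → ℕ) : List ℕ → Finset (List ℕ)
  | [] => children c []
  | j :: v => insert v (children c (j :: v))

lemma mem_children {c : List ℕ → ℕ} {v y : List ℕ} :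
    y ∈ children c v ↔ ∃ i < c v, y = i :: v := by
  simp only [children, mem_image, Finset.mem_range]
  constructor
  · rintro ⟨i, hi, rfl⟩; exact ⟨i, hi, rfl⟩
  · rintro ⟨i, hi, rfl⟩; exact ⟨i, hi, rfl⟩

lemma sum_children (c : List ℕ → ℕ) (v : List ℕ) (a : List ℕ → ℝ) :
    ∑ y ∈ children c v, a y = ∑ i ∈ range (c v), a (i :: v) := by
  unfold children
  rw [Finset.sum_image]
  intro i _ j _ h
  simpa using h

lemma card_children (c : List ℕ → ℕ) (v : List ℕ) : (children c v).card = c v := by
  unfold children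
  rw [Finset.card_image_of_injective, card_range]
  intro i j h
  simpa using h

lemma notMem_children {c : List ℕ → ℕ} (j : ℕ) (v : List ℕ) : v ∉ children c (j :: v) := by
  rw [mem_children]
  rintro ⟨i, _, h⟩
  have := congrArg List.length h
  simp at this
  omega

section

variable {lam : ℝ} {c : List ℕ → ℕ}

lemma row_nil (f : List ℕ → ℝ) :
    ∑ y ∈ nbr c [], biasedStep lam c [] y * f y =
      (1 / (c [] : ℝ)) * ∑ i ∈ range (c []), f [i] := by
  have h1 : ∑ y ∈ nbr c [], biasedStep lam c [] y * f y =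
      ∑ y ∈ children c [], (1 / (c [] : ℝ)) * f y := by
    apply Finset.sum_congr rfl
    intro y hy
    have hy' : y ∈ children c [] := hy
    simp only [biasedStep, if_pos hy']
  rw [h1, sum_children, Finset.mul_sum]

lemma row_cons (j : ℕ) (v : List ℕ) (f : List ℕ → ℝ) :
    ∑ y ∈ nbr c (j :: v), biasedStep lam c (j :: v) y * f y =
      lam / (lam + c (j :: v)) * f v +
        1 / (lam + c (j :: v)) * ∑ i ∈ range (c (j :: v)), f (i :: j :: v) := by
  have h0 : nbr c (j :: v) = insert v (children c (j :: v)) := rfl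
  rw [h0, Finset.sum_insert (notMem_children j v)]
  congr 1
  · simp [biasedStep]
  · rw [Finset.mul_sum, ← sum_children c (j :: v) (fun y => 1 / (lam + c (j :: v)) * f y)]
    apply Finset.sum_congr rfl
    intro y hy
    have : y ≠ v := fun h => notMem_children j v (h ▸ hy)
    simp only [biasedStep, if_neg this, if_pos hy]

variable (hlam : 0 < lam) (hc : 0 < c [])

/-- The kernel of the biased walk. -/
noncomputable def treeKern (lam : ℝ) (c : List ℕ → ℕ) (hlam : 0 < lam) (hc : 0 < c []) :
    Kern (List ℕ) where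
  p := biasedStep lam c
  nb := nbr c
  nonneg := by
    intro x y
    cases x with
    | nil => simp only [biasedStep]; split_ifs <;> positivity
    | cons j v => simp only [biasedStep]; split_ifs <;> positivity
  zero := by
    intro x y hy
    cases x with
    | nil =>
      have hy' : y ∉ children c [] := hy
      simp only [biasedStep, if_neg hy']
    | cons j v =>
      have hy' : y ∉ insert v (children c (j :: v)) := hy
      rw [Finset.mem_insert, not_or] at hy'
      simp only [biasedStep, if_neg hy'.1, if_neg hy'.2]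
  sum_one := by
    intro x
    cases x with
    | nil =>
      have := row_nil (lam := lam) (c := c) (fun _ => (1 : ℝ))
      simp only [mul_one, sum_const, card_range, nsmul_eq_mul] at this
      rw [this]
      have : (c [] : ℝ) ≠ 0 := by positivity
      field_simp
    | cons j v =>
      have := row_cons (lam := lam) (c := c) j v (fun _ => (1 : ℝ))
      simp only [mul_one, sum_const, card_range, nsmul_eq_mul] at this
      rw [this]
      have : lam + (c (j :: v) : ℝ) ≠ 0 := by positivity
      field_simp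

/-- levels -/
def lev (c : List ℕ → ℕ) : ℕ → Finset (List ℕ)
  | 0 => {[]}
  | k + 1 => (lev c k).biUnion (children c)

lemma length_of_mem_lev {k : ℕ} {v : List ℕ} (h : v ∈ lev c k) : v.length = k := by
  induction k generalizing v with
  | zero => simp [lev] at h; simp [h]
  | succ k ih =>
    simp only [lev, mem_biUnion, mem_children] at h
    obtain ⟨w, hw, i, _, rfl⟩ := h
    simp [ih hw]

lemma cons_mem_lev {k : ℕ} {j : ℕ} {v : List ℕ} (h : j :: v ∈ lev c (k + 1)) :
    v ∈ lev c k ∧ j < c v := by
  simp only [lev, mem_biUnion, mem_children] at h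
  obtain ⟨w, hw, i, hi, h⟩ := h
  obtain ⟨rfl, rfl⟩ := List.cons.inj h
  exact ⟨hw, hi⟩

lemma sum_lev_succ (k : ℕ) (a : List ℕ → ℝ) :
    ∑ w ∈ lev c (k + 1), a w = ∑ v ∈ lev c k, ∑ i ∈ range (c v), a (i :: v) := by
  simp only [lev]
  rw [Finset.sum_biUnion]
  · exact Finset.sum_congr rfl fun v _ => sum_children c v a
  · intro v _ w _ hvw
    rw [Function.onFun, Finset.disjoint_left]
    intro y hy hy'
    rw [mem_children] at hy hy'
    obtain ⟨i, _, rfl⟩ := hy
    obtain ⟨j, _, h⟩ := hy'
    exact hvw (List.cons.inj h).2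

/-- the union of the levels `0, …, M-1` -/
def ball (c : List ℕ → ℕ) (M : ℕ) : Finset (List ℕ) := (range M).biUnion (lev c)

lemma sum_ball (M : ℕ) (a : List ℕ → ℝ) :
    ∑ v ∈ ball c M, a v = ∑ k ∈ range M, ∑ v ∈ lev c k, a v := by
  unfold ball
  rw [Finset.sum_biUnion]
  intro k _ l _ hkl
  rw [Function.onFun, Finset.disjoint_left]
  intro y hy hy'
  exact hkl ((length_of_mem_lev hy).symm.trans (length_of_mem_lev hy'))

lemma mem_ball {M : ℕ} {v : List ℕ} : v ∈ ball c M ↔ ∃ k < M, v ∈ lev c k := by
  simp [ball]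

lemma ball_mono {M M' : ℕ} (h : M ≤ M') : ball c M ⊆ ball c M' := by
  intro v hv
  rw [mem_ball] at hv ⊢
  obtain ⟨k, hk, hv⟩ := hv
  exact ⟨k, hk.trans_le h, hv⟩

lemma nbr_subset_ball {M : ℕ} {v : List ℕ} (hv : v ∈ ball c M) : nbr c v ⊆ ball c (M + 1) := by
  rw [mem_ball] at hv
  obtain ⟨k, hk, hv⟩ := hv
  have hch : children c v ⊆ ball c (M + 1) := by
    intro y hy
    rw [mem_ball]
    exact ⟨k + 1, by omega, by simp only [lev, mem_biUnion]; exact ⟨v, hv, hy⟩⟩
  cases v with
  | nil => exact hch
  | cons j v =>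
    have h0 : nbr c (j :: v) = insert v (children c (j :: v)) := rfl
    rw [h0, Finset.insert_subset_iff]
    refine ⟨?_, hch⟩
    have hl := length_of_mem_lev hv
    cases k with
    | zero => simp at hl
    | succ k =>
      rw [mem_ball]
      exact ⟨k, by omega, (cons_mem_lev hv).1⟩

lemma reach_subset_ball (n : ℕ) : (treeKern lam c hlam hc).reach [] n ⊆ ball c (n + 1) := by
  induction n with
  | zero => 
    intro y hy
    rw [mem_ball]
    exact ⟨0, by simp, by simpa [Kern.reach, lev] using hy⟩
  | succ n ih =>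
    intro y hy
    simp only [Kern.reach, mem_biUnion] at hy
    obtain ⟨z, hz, hy⟩ := hy
    exact nbr_subset_ball (ih hz) hy

/-- `∑ q_n f` -/
noncomputable def pair (n : ℕ) (f : List ℕ → ℝ) : ℝ :=
  ∑ y ∈ (treeKern lam c hlam hc).reach [] n, (treeKern lam c hlam hc).q [] n y * f y

lemma pair_eq {n M : ℕ} (h : n < M) (f : List ℕ → ℝ) :
    pair hlam hc n f = ∑ y ∈ ball c M, (treeKern lam c hlam hc).q [] n y * f y := by
  unfold pair
  apply Finset.sum_subset
  · exact (reach_subset_ball hlam hc n).trans (ball_mono h)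
  · intro y _ hy
    rw [(treeKern lam c hlam hc).q_zero hy, zero_mul]

/-- the averaging operator -/
noncomputable def Pop (lam : ℝ) (c : List ℕ → ℕ) (f : List ℕ → ℝ) (x : List ℕ) : ℝ :=
  ∑ y ∈ nbr c x, biasedStep lam c x y * f y

lemma pair_succ (n : ℕ) (f : List ℕ → ℝ) :
    pair hlam hc (n + 1) f = pair hlam hc n (Pop lam c f) := by
  unfold pair
  have h1 : ∀ y ∈ (treeKern lam c hlam hc).reach [] (n + 1),
      (treeKern lam c hlam hc).q [] (n + 1) y * f y =
      ∑ z ∈ (treeKern lam c hlam hc).reach [] n,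
        (treeKern lam c hlam hc).q [] n z * ((treeKern lam c hlam hc).p z y * f y) := by
    intro y _
    simp only [Kern.q]
    rw [Finset.sum_mul]
    exact Finset.sum_congr rfl fun z _ => by ring
  rw [Finset.sum_congr rfl h1, Finset.sum_comm]
  apply Finset.sum_congr rfl
  intro z hz
  rw [← Finset.mul_sum]
  congr 1
  symm
  apply Finset.sum_subset
  · exact Kern.nb_subset_reach (K := treeKern lam c hlam hc) hz
  · intro y _ hy
    have : (treeKern lam c hlam hc).p z y = 0 := (treeKern lam c hlam hc).zero z y hy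
    have h2 : biasedStep lam c z y = 0 := this
    rw [h2, zero_mul]

/-- the invariant measure -/
noncomputable def piM (lam : ℝ) (c : List ℕ → ℕ) : List ℕ → ℝ
  | [] => c []
  | j :: v => (lam⁻¹) ^ (v.length + 1) * (lam + c (j :: v))

include hlam hc in
lemma piM_pos (x : List ℕ) : 0 < piM lam c x := by
  cases x with
  | nil => simpa [piM] using hc
  | cons j v => unfold piM; positivity

/-- sum over the edges of the first `M` generations -/
noncomputable def edgeSum (lam : ℝ) (c : List ℕ → ℕ) (M : ℕ) (F : List ℕ → List ℕ → ℝ) : ℝ :=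
  ∑ k ∈ range M, ∑ v ∈ lev c k, ∑ i ∈ range (c v), (lam⁻¹) ^ k * F v (i :: v)

lemma edgeSum_add (M : ℕ) (F G : List ℕ → List ℕ → ℝ) :
    edgeSum lam c M F + edgeSum lam c M G = edgeSum lam c M (fun v w => F v w + G v w) := by
  unfold edgeSum
  simp only [mul_add, Finset.sum_add_distrib]

include hlam hc in
lemma green_identity (s : ℝ) (M : ℕ) (f g : List ℕ → ℝ) (hg : ∀ v ∈ lev c M, g v = 0) :
    ∑ v ∈ ball c (M + 1), piM lam c v * g v * (f v - s * Pop lam c f v) =
      edgeSum lam c M (fun v w => f v * g v + f w * g w - s * (f v * g w + f w * g v)) := by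
  have h0 : piM lam c [] * g [] * (f [] - s * Pop lam c f []) =
      ∑ i ∈ range (c []), (lam⁻¹) ^ 0 * (g [] * (f [] - s * f [i])) := by
    unfold Pop
    rw [row_nil]
    simp only [piM, pow_zero, one_mul]
    rw [← Finset.mul_sum, Finset.sum_sub_distrib, Finset.sum_const, card_range, nsmul_eq_mul,
      ← Finset.mul_sum]
    have : (c [] : ℝ) ≠ 0 := by positivity
    field_simp
  have h1 : ∀ (k : ℕ) (j : ℕ) (v : List ℕ), v.length = k →
      piM lam c (j :: v) * g (j :: v) * (f (j :: v) - s * Pop lam c f (j :: v)) =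
      ∑ i ∈ range (c (j :: v)), (lam⁻¹) ^ (k + 1) *
          (g (j :: v) * (f (j :: v) - s * f (i :: j :: v))) +
        (lam⁻¹) ^ k * (g (j :: v) * (f (j :: v) - s * f v)) := by
    intro k j v hk
    unfold Pop
    rw [row_cons]
    simp only [piM, hk]
    have e1 : ∑ i ∈ range (c (j :: v)), (lam⁻¹) ^ (k + 1) *
          (g (j :: v) * (f (j :: v) - s * f (i :: j :: v))) =
        (lam⁻¹) ^ (k + 1) * g (j :: v) * (c (j :: v) * f (j :: v) -
          s * ∑ i ∈ range (c (j :: v)), f (i :: j :: v)) := by
      rw [← Finset.mul_sum, ← Finset.mul_sum, Finset.sum_sub_distrib, Finset.sum_const, card_range,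
        nsmul_eq_mul, ← Finset.mul_sum]
      ring
    rw [e1]
    have h2 : lam + (c (j :: v) : ℝ) ≠ 0 := by positivity
    have h3 : (lam⁻¹) ^ k = (lam⁻¹) ^ (k + 1) * lam := by
      rw [pow_succ]; field_simp
    rw [h3]
    field_simp
    ring
  have hsum : ∑ v ∈ ball c (M + 1), piM lam c v * g v * (f v - s * Pop lam c f v) =
      ∑ k ∈ range (M + 1), ∑ v ∈ lev c k, ∑ i ∈ range (c v),
        (lam⁻¹) ^ k * (g v * (f v - s * f (i :: v))) +
      ∑ k ∈ range M, ∑ v ∈ lev c k, ∑ i ∈ range (c v),
        (lam⁻¹) ^ k * (g (i :: v) * (f (i :: v) - s * f v)) := by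
    rw [sum_ball, Finset.sum_range_succ', Finset.sum_range_succ' (fun k => ∑ v ∈ lev c k,
      ∑ i ∈ range (c v), (lam⁻¹) ^ k * (g v * (f v - s * f (i :: v))))]
    have e0 : ∑ v ∈ lev c 0, piM lam c v * g v * (f v - s * Pop lam c f v) =
        ∑ v ∈ lev c 0, ∑ i ∈ range (c v), (lam⁻¹) ^ 0 * (g v * (f v - s * f (i :: v))) := by
      simp only [lev, Finset.sum_singleton]
      exact h0
    rw [e0, add_right_comm, ← Finset.sum_add_distrib]
    congr 1
    apply Finset.sum_congr rfl
    intro k _
    rw [sum_lev_succ, sum_lev_succ, ← Finset.sum_add_distrib]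
    apply Finset.sum_congr rfl
    intro v hv
    rw [← Finset.sum_add_distrib]
    apply Finset.sum_congr rfl
    intro j _
    exact h1 k j v (length_of_mem_lev hv)
  rw [hsum, Finset.sum_range_succ]
  have hz : ∑ v ∈ lev c M, ∑ i ∈ range (c v),
        (lam⁻¹) ^ M * (g v * (f v - s * f (i :: v))) = 0 := by
    apply Finset.sum_eq_zero
    intro v hv
    simp [hg v hv]
  rw [hz, add_zero, ← Finset.sum_add_distrib]
  unfold edgeSum
  apply Finset.sum_congr rfl
  intro k _
  rw [← Finset.sum_add_distrib]
  apply Finset.sum_congr rfl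
  intro v _
  rw [← Finset.sum_add_distrib]
  apply Finset.sum_congr rfl
  intro i _
  ring

/-! ### The energy inequality -/

/-- `∑_{n < N} s^n q_n` -/
noncomputable def GG (s : ℝ) (N : ℕ) (v : List ℕ) : ℝ :=
  ∑ n ∈ range N, s ^ n * (treeKern lam c hlam hc).q [] n v

/-- its density with respect to the invariant measure -/
noncomputable def gg (s : ℝ) (N : ℕ) (v : List ℕ) : ℝ := GG hlam hc s N v / piM lam c v

lemma GG_lev (s : ℝ) (N : ℕ) (v : List ℕ) (hv : v ∈ lev c N) : GG hlam hc s N v = 0 := by
  unfold GG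
  apply Finset.sum_eq_zero
  intro n hn
  rw [Finset.mem_range] at hn
  rw [(treeKern lam c hlam hc).q_zero, mul_zero]
  intro h
  have := reach_subset_ball hlam hc n h
  rw [mem_ball] at this
  obtain ⟨k, hk, h2⟩ := this
  have := (length_of_mem_lev h2).symm.trans (length_of_mem_lev hv)
  omega

lemma green_sum (s : ℝ) (N : ℕ) (f : List ℕ → ℝ) :
    edgeSum lam c N (fun v w => f v * gg hlam hc s N v + f w * gg hlam hc s N w -
      s * (f v * gg hlam hc s N w + f w * gg hlam hc s N v)) =
    f [] - s ^ N * pair hlam hc N f := by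
  rw [← green_identity hlam hc s N f (gg hlam hc s N)
    (fun v hv => by unfold gg; rw [GG_lev hlam hc s N v hv, zero_div])]
  have h1 : ∀ v ∈ ball c (N + 1), piM lam c v * gg hlam hc s N v * (f v - s * Pop lam c f v) =
      ∑ n ∈ range N, (s ^ n * ((treeKern lam c hlam hc).q [] n v * f v) -
        s ^ (n + 1) * ((treeKern lam c hlam hc).q [] n v * Pop lam c f v)) := by
    intro v _
    have h2 : piM lam c v * gg hlam hc s N v = GG hlam hc s N v := by
      unfold gg
      rw [mul_div_cancel₀ _ (piM_pos hlam hc v).ne']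
    rw [h2]
    unfold GG
    rw [Finset.sum_mul]
    apply Finset.sum_congr rfl
    intro n _
    ring
  rw [Finset.sum_congr rfl h1, Finset.sum_comm]
  have h3 : ∀ n ∈ range N, ∑ v ∈ ball c (N + 1),
      (s ^ n * ((treeKern lam c hlam hc).q [] n v * f v) -
        s ^ (n + 1) * ((treeKern lam c hlam hc).q [] n v * Pop lam c f v)) =
      s ^ n * pair hlam hc n f - s ^ (n + 1) * pair hlam hc (n + 1) f := by
    intro n hn
    rw [Finset.mem_range] at hn
    rw [Finset.sum_sub_distrib, ← Finset.mul_sum, ← Finset.mul_sum, pair_succ,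
      pair_eq hlam hc (M := N + 1) (by omega) f,
      pair_eq hlam hc (M := N + 1) (by omega) (Pop lam c f)]
  rw [Finset.sum_congr rfl h3]
  rw [Finset.sum_range_sub' (fun n => s ^ n * pair hlam hc n f) N]
  simp [pair, Kern.reach, Kern.q]

lemma pair_nonneg (n : ℕ) {f : List ℕ → ℝ} (hf : ∀ v, 0 ≤ f v) : 0 ≤ pair hlam hc n f :=
  Finset.sum_nonneg fun y _ => mul_nonneg ((treeKern lam c hlam hc).q_nonneg _ _ _) (hf y)

lemma pair_le_one (n : ℕ) {f : List ℕ → ℝ} (hf : ∀ v, f v ≤ 1) : pair hlam hc n f ≤ 1 := by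
  rw [← (treeKern lam c hlam hc).q_sum [] n]
  unfold pair
  apply Finset.sum_le_sum
  intro y _
  exact mul_le_of_le_one_right ((treeKern lam c hlam hc).q_nonneg _ _ _) (hf y)

include hlam in
lemma edgeSum_nonneg (M : ℕ) {F : List ℕ → List ℕ → ℝ} (hF : ∀ v w, 0 ≤ F v w) :
    0 ≤ edgeSum lam c M F := by
  unfold edgeSum
  refine Finset.sum_nonneg fun k _ => Finset.sum_nonneg fun v _ => Finset.sum_nonneg fun i _ => ?_
  have := hF v (i :: v)
  positivity

lemma edgeSum_smul (M : ℕ) (t : ℝ) (F : List ℕ → List ℕ → ℝ) :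
    edgeSum lam c M (fun v w => t * F v w) = t * edgeSum lam c M F := by
  unfold edgeSum
  rw [Finset.mul_sum]
  refine Finset.sum_congr rfl fun k _ => ?_
  rw [Finset.mul_sum]
  refine Finset.sum_congr rfl fun v _ => ?_
  rw [Finset.mul_sum]
  refine Finset.sum_congr rfl fun i _ => ?_
  ring

include hlam in
/-- Cauchy–Schwarz for the energy form. -/
lemma energy_cs {s : ℝ} (hs0 : 0 ≤ s) (hs1 : s ≤ 1) (M : ℕ) (f g : List ℕ → ℝ) :
    (edgeSum lam c M (fun v w => f v * g v + f w * g w - s * (f v * g w + f w * g v))) ^ 2 ≤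
    edgeSum lam c M (fun v w => f v * f v + f w * f w - s * (f v * f w + f w * f v)) *
    edgeSum lam c M (fun v w => g v * g v + g w * g w - s * (g v * g w + g w * g v)) := by
  set A := edgeSum lam c M (fun v w => f v * f v + f w * f w - s * (f v * f w + f w * f v)) with hA
  set B := edgeSum lam c M (fun v w => f v * g v + f w * g w - s * (f v * g w + f w * g v)) with hB
  set D := edgeSum lam c M (fun v w => g v * g v + g w * g w - s * (g v * g w + g w * g v)) with hD
  have key : ∀ t : ℝ, 0 ≤ A * (t * t) + (2 * B) * t + D := by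
    intro t
    have h1 : A * (t * t) + (2 * B) * t + D = edgeSum lam c M (fun v w =>
        (t * f v + g v) * (t * f v + g v) + (t * f w + g w) * (t * f w + g w) -
        s * ((t * f v + g v) * (t * f w + g w) + (t * f w + g w) * (t * f v + g v))) := by
      have e1 : A * (t * t) = edgeSum lam c M (fun v w => (t * t) *
          (f v * f v + f w * f w - s * (f v * f w + f w * f v))) := by
        rw [edgeSum_smul, hA, mul_comm]
      have e2 : (2 * B) * t = edgeSum lam c M (fun v w => (2 * t) *
          (f v * g v + f w * g w - s * (f v * g w + f w * g v))) := by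
        rw [edgeSum_smul, hB]; ring
      rw [e1, e2, hD, edgeSum_add, edgeSum_add]
      congr 1
      funext v w
      ring
    rw [h1]
    apply edgeSum_nonneg hlam
    intro v w
    nlinarith [sq_nonneg ((t * f v + g v) - (t * f w + g w)),
      mul_nonneg (sub_nonneg.2 hs1) (add_nonneg (mul_self_nonneg (t * f v + g v))
        (mul_self_nonneg (t * f w + g w))),
      mul_nonneg hs0 (sq_nonneg ((t * f v + g v) - (t * f w + g w)))]
  have := discrim_le_zero key
  unfold discrim at this
  nlinarith [this]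

/-- the radial test function -/
noncomputable def phi (R : ℕ) (k : ℕ) : ℝ := max 0 (1 - k / R)

lemma phi_nonneg (R k : ℕ) : 0 ≤ phi R k := le_max_left _ _

lemma phi_le_one (R k : ℕ) : phi R k ≤ 1 := by
  unfold phi
  apply max_le (by norm_num)
  have : (0 : ℝ) ≤ k / R := by positivity
  linarith

lemma phi_zero {R : ℕ} : phi R 0 = 1 := by
  unfold phi; simp

lemma phi_ge {R k : ℕ} (hR : 0 < R) (h : R ≤ k) : phi R k = 0 := by
  unfold phi
  apply max_eq_left
  have : (1 : ℝ) ≤ k / R := by
    rw [one_le_div (by positivity)]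
    exact_mod_cast h
  linarith

lemma phi_step {R : ℕ} (hR : 0 < R) (k : ℕ) : (phi R k - phi R (k + 1)) ^ 2 ≤ (1 / R) ^ 2 := by
  have hR' : (0 : ℝ) < R := by positivity
  have h0 : (1 - ((k + 1 : ℕ) : ℝ) / R) = (1 - k / R) - 1 / R := by
    push_cast; field_simp; ring
  have hp : (0 : ℝ) < 1 / R := by positivity
  unfold phi
  rw [h0]
  apply sq_le_sq'
  · rcases le_total 0 (1 - (k : ℝ) / R) with h | h
    · rw [max_eq_right h]
      rcases le_total 0 (1 - (k : ℝ) / R - 1 / R) with h2 | h2
      · rw [max_eq_right h2]; linarith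
      · rw [max_eq_left h2]; linarith
    · rw [max_eq_left h, max_eq_left (by linarith)]; linarith
  · rcases le_total 0 (1 - (k : ℝ) / R) with h | h
    · rw [max_eq_right h]
      rcases le_total 0 (1 - (k : ℝ) / R - 1 / R) with h2 | h2
      · rw [max_eq_right h2]; linarith
      · rw [max_eq_left h2]; linarith
    · rw [max_eq_left h, max_eq_left (by linarith)]; linarith

include hlam in
lemma energy_phi {s : ℝ} (hs1 : s ≤ 1) (M : ℕ) {R : ℕ} (hR : 0 < R) :
    edgeSum lam c M (fun v w => phi R v.length * phi R v.length + phi R w.length * phi R w.length -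
      s * (phi R v.length * phi R w.length + phi R w.length * phi R v.length)) ≤
    (2 * (1 - s) + (1 / R) ^ 2) * ∑ k ∈ range R, (lam⁻¹) ^ k * (lev c (k + 1)).card := by
  have hcard : ∀ k, ((lev c (k + 1)).card : ℝ) = ∑ v ∈ lev c k, ∑ _i ∈ range (c v), (1 : ℝ) := by
    intro k
    rw [← sum_lev_succ k (fun _ => (1 : ℝ))]
    simp
  have hterm : ∀ k, ∑ v ∈ lev c k, ∑ i ∈ range (c v), (lam⁻¹) ^ k *
      (phi R v.length * phi R v.length + phi R (i :: v).length * phi R (i :: v).length -
      s * (phi R v.length * phi R (i :: v).length + phi R (i :: v).length * phi R v.length)) ≤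
      if k < R then (2 * (1 - s) + (1 / R) ^ 2) * ((lam⁻¹) ^ k * (lev c (k + 1)).card) else 0 := by
    intro k
    have hv : ∀ v ∈ lev c k, ∑ i ∈ range (c v), (lam⁻¹) ^ k *
      (phi R v.length * phi R v.length + phi R (i :: v).length * phi R (i :: v).length -
      s * (phi R v.length * phi R (i :: v).length + phi R (i :: v).length * phi R v.length)) =
      ∑ _i ∈ range (c v), (lam⁻¹) ^ k *
        ((1 - s) * (phi R k ^ 2 + phi R (k + 1) ^ 2) + s * (phi R k - phi R (k + 1)) ^ 2) := by
      intro v hv
      apply Finset.sum_congr rfl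
      intro i _
      rw [List.length_cons, length_of_mem_lev hv]
      ring
    rw [Finset.sum_congr rfl hv]
    split_ifs with hk
    · have h1 : (1 - s) * (phi R k ^ 2 + phi R (k + 1) ^ 2) + s * (phi R k - phi R (k + 1)) ^ 2 ≤
          2 * (1 - s) + (1 / R) ^ 2 := by
        have a1 := phi_nonneg R k
        have a2 := phi_le_one R k
        have a3 := phi_nonneg R (k + 1)
        have a4 := phi_le_one R (k + 1)
        have a5 := phi_step hR k
        have a6 : phi R k ^ 2 ≤ 1 := by nlinarith
        have a7 : phi R (k + 1) ^ 2 ≤ 1 := by nlinarith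
        have a8 : s * (phi R k - phi R (k + 1)) ^ 2 ≤ (1 / R) ^ 2 :=
          (mul_le_of_le_one_left (sq_nonneg _) hs1).trans a5
        nlinarith
      rw [hcard k, ← mul_assoc, mul_comm _ ((lam⁻¹) ^ k), mul_assoc, Finset.mul_sum, Finset.mul_sum]
      apply Finset.sum_le_sum
      intro v _
      rw [Finset.mul_sum, Finset.mul_sum]
      apply Finset.sum_le_sum
      intro i _
      have : 0 ≤ (lam⁻¹) ^ k := by positivity
      rw [mul_one]
      exact mul_le_mul_of_nonneg_left h1 this
    · apply le_of_eq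
      apply Finset.sum_eq_zero
      intro v _
      apply Finset.sum_eq_zero
      intro i _
      rw [phi_ge hR (not_lt.1 hk), phi_ge hR (by omega)]
      ring
  unfold edgeSum
  refine (Finset.sum_le_sum fun k _ => hterm k).trans ?_
  rw [Finset.mul_sum, ← Finset.sum_filter]
  apply Finset.sum_le_sum_of_subset_of_nonneg
  · intro k hk
    rw [Finset.mem_filter] at hk
    exact Finset.mem_range.2 hk.2
  · intro k _ _
    have : 0 ≤ 1 - s := sub_nonneg.2 hs1
    positivity

/-- The main inequality -/
lemma main_ineq {s : ℝ} (hs0 : 0 ≤ s) (hs1 : s ≤ 1) (N : ℕ) {R : ℕ} (hR : 0 < R)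
    (hsN : s ^ N ≤ 1 / 2) :
    1 / 4 ≤ (2 * (1 - s) + (1 / R) ^ 2) *
      (∑ k ∈ range R, (lam⁻¹) ^ k * (lev c (k + 1)).card) *
      ((∑ n ∈ range N, (treeKern lam c hlam hc).u [] n) / c []) := by
  have hcs := energy_cs (c := c) hlam hs0 hs1 N (fun v => phi R v.length) (gg hlam hc s N)
  have hfg := green_sum hlam hc s N (fun v => phi R v.length)
  have hgg := green_sum hlam hc s N (gg hlam hc s N)
  have hff := energy_phi (c := c) hlam hs1 N hR
  rw [hfg, hgg] at hcs
  have hgnn : ∀ v, 0 ≤ gg hlam hc s N v := by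
    intro v
    unfold gg GG
    apply div_nonneg _ (piM_pos hlam hc v).le
    exact Finset.sum_nonneg fun n _ =>
      mul_nonneg (pow_nonneg hs0 n) ((treeKern lam c hlam hc).q_nonneg _ _ _)
  have h1 : (1 : ℝ) / 2 ≤ phi R (List.length ([] : List ℕ)) -
      s ^ N * pair hlam hc N (fun v => phi R v.length) := by
    have := pair_le_one hlam hc N (f := fun v => phi R v.length) (fun v => phi_le_one R _)
    have h0 := pair_nonneg hlam hc N (f := fun v => phi R v.length) (fun v => phi_nonneg R _)
    have h2 : 0 ≤ s ^ N := pow_nonneg hs0 N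
    rw [List.length_nil, phi_zero]
    nlinarith
  have h2 : gg hlam hc s N [] - s ^ N * pair hlam hc N (gg hlam hc s N) ≤
      (∑ n ∈ range N, (treeKern lam c hlam hc).u [] n) / c [] := by
    have h3 := pair_nonneg hlam hc N hgnn
    have h4 : 0 ≤ s ^ N := pow_nonneg hs0 N
    have h5 : gg hlam hc s N [] ≤ (∑ n ∈ range N, (treeKern lam c hlam hc).u [] n) / c [] := by
      have : piM lam c [] = c [] := rfl
      unfold gg GG
      rw [this]
      gcongr with n hn
      exact mul_le_of_le_one_left ((treeKern lam c hlam hc).q_nonneg _ _ _) (pow_le_one₀ hs0 hs1)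
    nlinarith
  have h3 : 0 ≤ edgeSum lam c N (fun v w => phi R v.length * phi R v.length +
      phi R w.length * phi R w.length -
      s * (phi R v.length * phi R w.length + phi R w.length * phi R v.length)) := by
    apply edgeSum_nonneg hlam
    intro v w
    nlinarith [mul_nonneg (sub_nonneg.2 hs1) (add_nonneg (mul_self_nonneg (phi R v.length))
        (mul_self_nonneg (phi R w.length))),
      mul_nonneg hs0 (sq_nonneg (phi R v.length - phi R w.length))]
  have h4 : (0 : ℝ) ≤ (∑ n ∈ range N, (treeKern lam c hlam hc).u [] n) / c [] := by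
    apply div_nonneg _ (Nat.cast_nonneg _)
    exact Finset.sum_nonneg fun n _ => (treeKern lam c hlam hc).q_nonneg _ _ _
  calc (1 : ℝ) / 4 ≤ (phi R (List.length ([] : List ℕ)) -
      s ^ N * pair hlam hc N (fun v => phi R v.length)) ^ 2 := by nlinarith
    _ ≤ _ := hcs
    _ ≤ _ := mul_le_mul hff h2 (by
        have := green_sum hlam hc s N (gg hlam hc s N)
        rw [← this]
        apply edgeSum_nonneg hlam
        intro v w
        nlinarith [mul_nonneg (sub_nonneg.2 hs1) (add_nonneg
          (mul_self_nonneg (gg hlam hc s N v)) (mul_self_nonneg (gg hlam hc s N w))),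
          mul_nonneg hs0 (sq_nonneg (gg hlam hc s N v - gg hlam hc s N w))]) (h3.trans hff)

end

end Pool.Agent.H8.Polymer
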