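import Pool.Agent.H8.Polymer4

/-!
# The biased walk on a tree: the squares of the return probabilities are not summable
-/

open MeasureTheory ProbabilityTheory Filter Topology Finset

set_option linter.unusedSectionVars false
set_option linter.unusedDecidableInType false

namespace Pool.Agent.H8.Polymer

section CK

variable {V : Type*} [DecidableEq V] (K : Kern V)

lemma Kern.q_chapman (x y z : V) (m n : ℕ) : K.q x m z * K.q z n y ≤ K.q x (m + n) y := by
  by_cases hz : z ∈ K.reach x m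
  · induction n generalizing y with
    | zero =>
      simp only [Kern.q, add_zero]
      split_ifs with h
      · rw [h, mul_one]
      · rw [mul_zero]; exact K.q_nonneg _ _ _
    | succ n ih =>
      have h1 : K.q z (n + 1) y = ∑ w ∈ K.reach x (m + n), K.q z n w * K.p w y := by
        show ∑ w ∈ K.reach z n, K.q z n w * K.p w y = _
        apply Finset.sum_subset (K.reach_add hz n)
        intro w _ hw
        rw [K.q_zero hw, zero_mul]
      have h2 : K.q x (m + (n + 1)) y = ∑ w ∈ K.reach x (m + n), K.q x (m + n) w * K.p w y := rfl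
      rw [h1, h2, Finset.mul_sum]
      apply Finset.sum_le_sum
      intro w _
      rw [← mul_assoc]
      exact mul_le_mul_of_nonneg_right (ih w) (K.nonneg _ _)
  · rw [K.q_zero hz, zero_mul]; exact K.q_nonneg _ _ _

lemma Kern.q_one (x y : V) : K.q x 1 y = K.p x y := by
  simp [Kern.q, Kern.reach]

lemma Kern.q_le_one (x : V) (n : ℕ) (y : V) : K.q x n y ≤ 1 := by
  by_cases hy : y ∈ K.reach x n
  · rw [← K.q_sum x n]
    exact Finset.single_le_sum (f := fun y => K.q x n y) (fun z _ => K.q_nonneg x n z) hy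
  · rw [K.q_zero hy]; norm_num

/-- If `z` communicates with `x` in both directions then square-summability transfers. -/
lemma Kern.summable_transfer {x z : V} {a : ℕ} (ha : 0 < K.q z a x) (hb : 0 < K.q x a z)
    (h : Summable fun i => K.u z (i + 1) ^ 2) : Summable fun i => K.u x (i + 1) ^ 2 := by
  have h1 : ∀ i, K.q z a x * K.u x i * K.q x a z ≤ K.u z (2 * a + i) := by
    intro i
    have e1 := K.q_chapman z x x a i
    have e2 := K.q_chapman z z x (a + i) a
    have e3 : a + i + a = 2 * a + i := by ring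
    rw [e3] at e2
    exact (mul_le_mul_of_nonneg_right e1 hb.le).trans e2
  have h2 : Summable fun i => K.u z (i + 2 * a + 1) ^ 2 :=
    (summable_nat_add_iff (f := fun i => K.u z (i + 1) ^ 2) (2 * a)).2 h
  set δ := K.q z a x * K.q x a z with hδ
  have hδ0 : 0 < δ := mul_pos ha hb
  apply Summable.of_nonneg_of_le (fun i => sq_nonneg _) _ (h2.mul_left ((δ⁻¹) ^ 2))
  intro i
  have h3 := h1 (i + 1)
  have h4 : 0 ≤ K.u x (i + 1) := K.q_nonneg _ _ _
  have h5 : δ * K.u x (i + 1) ≤ K.u z (i + 2 * a + 1) := by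
    have : 2 * a + (i + 1) = i + 2 * a + 1 := by ring
    rw [this] at h3
    calc _ = K.q z a x * K.u x (i + 1) * K.q x a z := by rw [hδ]; ring
      _ ≤ _ := h3
  have h6 : K.u x (i + 1) ≤ δ⁻¹ * K.u z (i + 2 * a + 1) := by
    rw [← div_eq_inv_mul, le_div_iff₀ hδ0]
    linarith
  rw [← mul_pow]
  exact pow_le_pow_left₀ h4 h6 2

end CK

/-- Cauchy–Schwarz tail argument -/
lemma not_summable_of_sqrt_growth {u : ℕ → ℝ} (hu1 : ∀ n, u n ≤ 1)
    {κ : ℝ} (hκ : 0 < κ) (h : ∃ᶠ R : ℕ in atTop, κ * R ≤ ∑ n ∈ range (R ^ 2), u n) :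
    ¬ Summable fun n => u (n + 1) ^ 2 := by
  intro hs
  have hs' : Summable fun n => u n ^ 2 := (summable_nat_add_iff (f := fun n => u n ^ 2) 1).1 hs
  have htail : Tendsto (fun M => ∑' n, u (n + M) ^ 2) atTop (𝓝 0) :=
    tendsto_sum_nat_add fun n => u n ^ 2
  have hev : ∀ᶠ M in atTop, ∑' n, u (n + M) ^ 2 < (κ / 2) ^ 2 :=
    htail.eventually_lt_const (by positivity)
  obtain ⟨M, hM⟩ := hev.exists
  have hev2 : ∀ᶠ R : ℕ in atTop, (2 * M / κ) < R :=
    tendsto_natCast_atTop_atTop.eventually_gt_atTop _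
  obtain ⟨R, hR1, hR2, hR3⟩ := (h.and_eventually (hev2.and (eventually_ge_atTop (M + 1)))).exists
  have hMR : M ≤ R ^ 2 := by nlinarith
  have h1 : ∑ n ∈ range (R ^ 2), u n = ∑ n ∈ range M, u n + ∑ n ∈ Ico M (R ^ 2), u n := by
    rw [← Finset.sum_range_add_sum_Ico _ hMR]
  have h2 : ∑ n ∈ range M, u n ≤ M := by
    calc _ ≤ ∑ _n ∈ range M, (1 : ℝ) := Finset.sum_le_sum fun n _ => hu1 n
      _ = M := by simp
  have h3 : (∑ n ∈ Ico M (R ^ 2), u n) ^ 2 ≤ (R * (κ / 2)) ^ 2 := by
    have e1 := sq_sum_le_card_mul_sum_sq (s := Ico M (R ^ 2)) (f := u)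
    have e2 : ∑ n ∈ Ico M (R ^ 2), u n ^ 2 ≤ ∑' n, u (n + M) ^ 2 := by
      rw [Finset.sum_Ico_eq_sum_range]
      have hsm : Summable fun n => u (n + M) ^ 2 :=
        (summable_nat_add_iff (f := fun n => u n ^ 2) M).2 hs'
      have := hsm.sum_le_tsum (range (R ^ 2 - M)) (fun n _ => sq_nonneg _)
      simpa [add_comm] using this
    have e3 : ((Ico M (R ^ 2)).card : ℝ) ≤ (R : ℝ) ^ 2 := by
      rw [Nat.card_Ico]
      have : (R ^ 2 - M : ℕ) ≤ R ^ 2 := Nat.sub_le _ _
      exact_mod_cast this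
    have e4 : 0 ≤ ∑ n ∈ Ico M (R ^ 2), u n ^ 2 := Finset.sum_nonneg fun n _ => sq_nonneg _
    calc _ ≤ ((Ico M (R ^ 2)).card : ℝ) * ∑ n ∈ Ico M (R ^ 2), u n ^ 2 := e1
      _ ≤ (R : ℝ) ^ 2 * (κ / 2) ^ 2 := mul_le_mul e3 (e2.trans hM.le) e4 (by positivity)
      _ = _ := by ring
  have h4 : ∑ n ∈ Ico M (R ^ 2), u n ≤ R * (κ / 2) := by
    apply le_of_sq_le_sq _ (by positivity)
    exact h3
  rw [div_lt_iff₀ hκ] at hR2
  have h5 : κ * R ≤ M + R * (κ / 2) := by linarith
  nlinarith

section Tree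

variable {lam : ℝ} {c : List ℕ → ℕ} (hlam : 0 < lam) (hc : 0 < c [])

lemma exp_half : Real.exp (-1) ≤ 1 / 2 := by
  have := Real.add_one_le_exp (1 : ℝ)
  rw [Real.exp_neg]
  rw [one_div]
  gcongr
  linarith

lemma green_growth {C : ℝ} (hC : 0 < C) {R : ℕ} (hR : 0 < R)
    (h : ∑ k ∈ range R, (lam⁻¹) ^ k * ((lev c (k + 1)).card : ℝ) ≤ C * R) :
    c [] / (12 * C) * R ≤ ∑ n ∈ range (R ^ 2), (treeKern lam c hlam hc).u [] n := by
  have hR' : (0 : ℝ) < R := by positivity
  have hR1 : (1 : ℝ) ≤ R := by exact_mod_cast hR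
  set s : ℝ := 1 - 1 / (R : ℝ) ^ 2 with hs
  have h1 : 1 / (R : ℝ) ^ 2 ≤ 1 := by
    rw [div_le_one (by positivity)]
    nlinarith
  have hs0 : 0 ≤ s := by rw [hs]; linarith
  have hs1 : s ≤ 1 := by
    rw [hs]
    have : 0 ≤ 1 / (R : ℝ) ^ 2 := by positivity
    linarith
  have hsN : s ^ (R ^ 2) ≤ 1 / 2 := by
    have := Real.one_sub_div_pow_le_exp_neg (n := R ^ 2) (t := 1) (by
      push_cast; nlinarith)
    push_cast at this
    exact this.trans exp_half
  have hm := main_ineq hlam hc hs0 hs1 (R ^ 2) hR hsN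
  have hU : 0 ≤ ∑ n ∈ range (R ^ 2), (treeKern lam c hlam hc).u [] n :=
    Finset.sum_nonneg fun n _ => (treeKern lam c hlam hc).q_nonneg _ _ _
  set U := ∑ n ∈ range (R ^ 2), (treeKern lam c hlam hc).u [] n with hUdef
  have hc' : (0 : ℝ) < c [] := by exact_mod_cast hc
  have h2 : 2 * (1 - s) + (1 / (R : ℝ)) ^ 2 = 3 / (R : ℝ) ^ 2 := by
    rw [hs]; field_simp; ring
  rw [h2] at hm
  have h3 : 3 / (R : ℝ) ^ 2 * (∑ k ∈ range R, (lam⁻¹) ^ k * ((lev c (k + 1)).card : ℝ)) *
      (U / c []) ≤ 3 / (R : ℝ) ^ 2 * (C * R) * (U / c []) := by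
    gcongr
  have h4 := hm.trans h3
  have h5 : 3 / (R : ℝ) ^ 2 * (C * R) * (U / c []) = (3 * C * U) / (R * c []) := by
    field_simp
  rw [h5, le_div_iff₀ (by positivity)] at h4
  rw [div_mul_eq_mul_div, div_le_iff₀ (by positivity)]
  linarith

lemma not_summable_root {C : ℝ} (hC : 0 < C)
    (h : ∃ᶠ R : ℕ in atTop, ∑ k ∈ range R, (lam⁻¹) ^ k * ((lev c (k + 1)).card : ℝ) ≤ C * R) :
    ¬ Summable fun i => (treeKern lam c hlam hc).u [] (i + 1) ^ 2 := by
  have hc' : (0 : ℝ) < c [] := by exact_mod_cast hc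
  have hu1 : ∀ n, (treeKern lam c hlam hc).u [] n ≤ 1 := fun n =>
    (treeKern lam c hlam hc).q_le_one [] n []
  have hfr : ∃ᶠ R : ℕ in atTop, c [] / (12 * C) * R ≤
      ∑ n ∈ range (R ^ 2), (treeKern lam c hlam hc).u [] n := by
    apply (h.and_eventually (eventually_gt_atTop 0)).mono
    rintro R ⟨h1, h2⟩
    exact green_growth hlam hc hC h2 h1
  exact not_summable_of_sqrt_growth hu1 (by positivity) hfr

include hlam in
lemma step_down (v : List ℕ) (j : ℕ) (hj : j < c v) : 0 < biasedStep lam c v (j :: v) := by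
  have hmem : j :: v ∈ children c v := mem_children.2 ⟨j, hj, rfl⟩
  cases v with
  | nil =>
    simp only [biasedStep, if_pos hmem]
    have : (0 : ℝ) < c [] := by exact_mod_cast (by omega : 0 < c [])
    positivity
  | cons i v =>
    have hne : j :: i :: v ≠ v := by
      intro h
      have := congrArg List.length h
      simp at this
      omega
    simp only [biasedStep, if_neg hne, if_pos hmem]
    positivity

include hlam in
lemma step_up (v : List ℕ) (j : ℕ) : 0 < biasedStep lam c (j :: v) v := by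
  simp only [biasedStep, if_true]
  positivity

lemma communicate (a : ℕ) (v : List ℕ) (hv : v ∈ lev c a) :
    0 < (treeKern lam c hlam hc).q v a [] ∧ 0 < (treeKern lam c hlam hc).q [] a v := by
  induction a generalizing v with
  | zero =>
    simp only [lev, Finset.mem_singleton] at hv
    subst hv
    simp [Kern.q]
  | succ a ih =>
    cases v with
    | nil => have := length_of_mem_lev hv; simp at this
    | cons j v =>
      obtain ⟨h1, h2⟩ := cons_mem_lev hv
      obtain ⟨h3, h4⟩ := ih v h1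
      constructor
      · have e := (treeKern lam c hlam hc).q_chapman (j :: v) [] v 1 a
        rw [Kern.q_one, add_comm 1 a] at e
        exact (mul_pos (step_up hlam v j) h3).trans_le e
      · have e := (treeKern lam c hlam hc).q_chapman [] (j :: v) v a 1
        rw [Kern.q_one] at e
        exact (mul_pos h4 (step_down hlam v j h2)).trans_le e

/-- If the rescaled level sizes have bounded averages along a subsequence, the squares of the
return probabilities to each vertex are not summable. -/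
theorem tree_not_summable {C : ℝ} (hC : 0 < C)
    (h : ∃ᶠ R : ℕ in atTop, ∑ k ∈ range R, (lam⁻¹) ^ k * ((lev c (k + 1)).card : ℝ) ≤ C * R) :
    ∀ n, ∀ z ∈ (treeKern lam c hlam hc).reach [] n,
      ¬ Summable fun i => (treeKern lam c hlam hc).u z (i + 1) ^ 2 := by
  intro n z hz hs
  have hz' := reach_subset_ball hlam hc n hz
  rw [mem_ball] at hz'
  obtain ⟨a, _, ha⟩ := hz'
  obtain ⟨h1, h2⟩ := communicate hlam hc a z ha
  exact not_summable_root hlam hc hC h ((treeKern lam c hlam hc).summable_transfer h1 h2 hs)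

end Tree

end Pool.Agent.H8.Polymer
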