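import Pool.Agent.H8.Polymer5

/-!
# Galton–Watson trees: averages of the rescaled level sizes
-/

open MeasureTheory ProbabilityTheory Filter Topology Finset

set_option linter.unusedSectionVars false
set_option linter.unusedDecidableInType false

namespace Pool.Agent.H8.Polymer

lemma mem_lev_iff {c : List ℕ → ℕ} {k : ℕ} {v : List ℕ} :
    v ∈ lev c k ↔ IsVertex c v ∧ v.length = k := by
  induction v generalizing k with
  | nil =>
    cases k with
    | zero => simp [lev, IsVertex]
    | succ k =>
      simp only [List.length_nil, IsVertex, true_and]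
      constructor
      · intro h; exact absurd (length_of_mem_lev h) (by simp)
      · intro h; omega
  | cons j v ih =>
    cases k with
    | zero => simp [lev]
    | succ k =>
      simp only [IsVertex, List.length_cons, Nat.add_right_cancel_iff]
      constructor
      · intro h
        have h1 := cons_mem_lev h
        have h2 := ih.1 h1.1
        exact ⟨⟨h2.1, h1.2⟩, h2.2⟩
      · rintro ⟨⟨h1, h2⟩, h3⟩
        simp only [lev, mem_biUnion]
        exact ⟨v, ih.2 ⟨h1, h3⟩, mem_children.2 ⟨j, h2, rfl⟩⟩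

open Classical in
/-- indicator of `v` being a vertex -/
noncomputable def ind (c : List ℕ → ℕ) (v : List ℕ) : ENNReal := if IsVertex c v then 1 else 0

lemma ind_cons (c : List ℕ → ℕ) (i : ℕ) (v : List ℕ) :
    ind c (i :: v) = ind c v * (if i < c v then 1 else 0) := by
  unfold ind
  by_cases h1 : IsVertex c v <;> by_cases h2 : i < c v <;> simp [IsVertex, h1, h2]

/-- iterated sum over words of length `k` -/
noncomputable def SS : ℕ → (List ℕ → ENNReal) → ENNReal
  | 0, F => F []
  | k + 1, F => SS k (fun v => ∑' i, F (i :: v))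

lemma SS_mul (k : ℕ) (F : List ℕ → ENNReal) (t : ENNReal) :
    SS k (fun v => F v * t) = SS k F * t := by
  induction k generalizing F with
  | zero => rfl
  | succ k ih =>
    simp only [SS]
    rw [← ih]
    congr 1
    funext v
    rw [ENNReal.tsum_mul_right]

lemma sum_lev_eq_SS (c : List ℕ → ℕ) (k : ℕ) (w : List ℕ → ENNReal) :
    ∑ v ∈ lev c k, w v = SS k (fun v => ind c v * w v) := by
  induction k generalizing w with
  | zero => simp [lev, SS, ind, IsVertex]
  | succ k ih =>
    have h1 : ∑ v ∈ lev c (k + 1), w v = ∑ v ∈ lev c k, ∑ i ∈ range (c v), w (i :: v) := by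
      simp only [lev]
      rw [Finset.sum_biUnion]
      · apply Finset.sum_congr rfl
        intro v _
        unfold children
        rw [Finset.sum_image]
        intro i _ j _ h
        simpa using h
      · intro v _ w _ hvw
        rw [Function.onFun, Finset.disjoint_left]
        intro y hy hy'
        rw [mem_children] at hy hy'
        obtain ⟨i, _, rfl⟩ := hy
        obtain ⟨j, _, h⟩ := hy'
        exact hvw (List.cons.inj h).2
    rw [h1, ih]
    simp only [SS]
    congr 1
    funext v
    have h2 : ∑ i ∈ range (c v), w (i :: v) = ∑' i, (if i < c v then 1 else 0) * w (i :: v) := by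
      rw [tsum_eq_sum (s := range (c v))]
      · apply Finset.sum_congr rfl
        intro i hi
        rw [if_pos (Finset.mem_range.1 hi), one_mul]
      · intro i hi
        rw [if_neg (fun h => hi (Finset.mem_range.2 h)), zero_mul]
    rw [h2, ← ENNReal.tsum_mul_left]
    congr 1
    funext i
    rw [ind_cons, mul_assoc]

lemma card_lev_eq_SS (c : List ℕ → ℕ) (k : ℕ) :
    ((lev c k).card : ENNReal) = SS k (ind c) := by
  have := sum_lev_eq_SS c k (fun _ => 1)
  simpa using this

section

variable {Θ : Type*} {mΘ : MeasurableSpace Θ} {Q : Measure Θ}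

lemma SS_measurable (k : ℕ) {F : List ℕ → Θ → ENNReal} (hF : ∀ v, Measurable (F v)) :
    Measurable fun θ => SS k (fun v => F v θ) := by
  induction k generalizing F with
  | zero => exact hF []
  | succ k ih =>
    simp only [SS]
    exact ih (F := fun v θ => ∑' i, F (i :: v) θ) fun v => Measurable.tsum fun i => hF (i :: v)

lemma lintegral_SS (k : ℕ) {F : List ℕ → Θ → ENNReal} (hF : ∀ v, Measurable (F v)) :
    ∫⁻ θ, SS k (fun v => F v θ) ∂Q = SS k (fun v => ∫⁻ θ, F v θ ∂Q) := by
  induction k generalizing F with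
  | zero => rfl
  | succ k ih =>
    simp only [SS]
    rw [ih (F := fun v θ => ∑' i, F (i :: v) θ) fun v => Measurable.tsum fun i => hF (i :: v)]
    congr 1
    funext v
    exact lintegral_tsum fun i => (hF (i :: v)).aemeasurable

variable [IsProbabilityMeasure Q] {N : List ℕ → Θ → ℕ}

/-- σ-algebra generated by the offspring numbers of the words in `S` -/
@[reducible] def sigN (N : List ℕ → Θ → ℕ) (S : Set (List ℕ)) : MeasurableSpace Θ :=
  ⨆ q ∈ S, MeasurableSpace.comap (N q) inferInstance

lemma sigN_meas {S : Set (List ℕ)} {v : List ℕ} (h : v ∈ S) : Measurable[sigN N S] (N v) := by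
  have h1 : MeasurableSpace.comap (N v) inferInstance ≤ sigN N S :=
    le_iSup₂_of_le v h le_rfl
  exact Measurable.mono (comap_measurable (N v)) h1 le_rfl

lemma ind_meas (v : List ℕ) (S : Set (List ℕ)) (hS : ∀ w : List ℕ, w.length < v.length → w ∈ S) :
    Measurable[sigN N S] (fun θ => ind (fun w => N w θ) v) := by
  induction v with
  | nil =>
    have : (fun θ => ind (fun w => N w θ) []) = fun _ => (1 : ENNReal) := by
      funext θ; simp [ind, IsVertex]
    rw [this]
    exact measurable_const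
  | cons j v ih =>
    have h1 : (fun θ => ind (fun w => N w θ) (j :: v)) =
        fun θ => ind (fun w => N w θ) v * (if j < N v θ then 1 else 0) := by
      funext θ; exact ind_cons _ j v
    rw [h1]
    have h2 := ih (fun w hw => hS w (by simp; omega))
    have h3 : Measurable[sigN N S] (N v) := sigN_meas (hS v (by simp))
    have h4 : Measurable[sigN N S] (fun θ => if j < N v θ then (1 : ENNReal) else 0) :=
      (measurable_from_top (f := fun n : ℕ => if j < n then (1 : ENNReal) else 0)).comp h3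
    exact h2.mul h4

lemma sigN_le (hN : ∀ v, Measurable (N v)) (S : Set (List ℕ)) : sigN N S ≤ mΘ :=
  iSup₂_le fun q _ => (hN q).comap_le

lemma indep_sigN (hN : ∀ v, Measurable (N v)) (hI : iIndepFun N Q) {S T : Set (List ℕ)}
    (h : Disjoint S T) : Indep (sigN N S) (sigN N T) Q :=
  indep_iSup_of_disjoint (m := fun q : List ℕ => MeasurableSpace.comap (N q) inferInstance)
    (fun q => (hN q).comap_le) hI.iIndep h

lemma ind_succ (hN : ∀ v, Measurable (N v)) (hI : iIndepFun N Q)
    (hD : ∀ v, IdentDistrib (N v) (N []) Q Q) (i : ℕ) (v : List ℕ) :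
    ∫⁻ θ, ind (fun w => N w θ) (i :: v) ∂Q =
      (∫⁻ θ, ind (fun w => N w θ) v ∂Q) * ∫⁻ θ, (if i < N [] θ then 1 else 0) ∂Q := by
  have h1 : ∫⁻ θ, ind (fun w => N w θ) (i :: v) ∂Q =
      ∫⁻ θ, ind (fun w => N w θ) v * (if i < N v θ then 1 else 0) ∂Q := by
    congr 1
    funext θ
    exact ind_cons _ i v
  have h2 : Indep (sigN N {w | w.length < v.length}) (sigN N {v}) Q := by
    apply indep_sigN hN hI
    rw [Set.disjoint_singleton_right]
    simp
  have h3 := lintegral_mul_eq_lintegral_mul_lintegral_of_independent_measurableSpace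
    (sigN_le hN {w | w.length < v.length}) (sigN_le hN {v}) h2
    (ind_meas (N := N) v {w | w.length < v.length} (fun w hw => hw))
    ((measurable_from_top (f := fun n : ℕ => if i < n then (1 : ENNReal) else 0)).comp
      (sigN_meas (N := N) (S := {v}) (v := v) rfl))
  have h4 : ∫⁻ θ, (if i < N v θ then 1 else 0) ∂Q =
      ∫⁻ θ, (if i < N [] θ then (1 : ENNReal) else 0) ∂Q :=
    ((hD v).comp (measurable_from_top (f := fun n : ℕ =>
      if i < n then (1 : ENNReal) else 0))).lintegral_eq
  rw [h1, ← h4]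
  exact h3

lemma lintegral_card_lev (hN : ∀ v, Measurable (N v)) (hI : iIndepFun N Q)
    (hD : ∀ v, IdentDistrib (N v) (N []) Q Q) (k : ℕ) :
    ∫⁻ θ, ((lev (fun w => N w θ) k).card : ENNReal) ∂Q =
      (∑' i, ∫⁻ θ, (if i < N [] θ then 1 else 0) ∂Q) ^ k := by
  have hm : ∀ v, Measurable (fun θ => ind (fun w => N w θ) v) := fun v =>
    (ind_meas (N := N) v Set.univ (fun _ _ => trivial)).mono (sigN_le hN _) le_rfl
  have h1 : ∫⁻ θ, ((lev (fun w => N w θ) k).card : ENNReal) ∂Q =
      SS k (fun v => ∫⁻ θ, ind (fun w => N w θ) v ∂Q) := by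
    rw [← lintegral_SS k hm]
    congr 1
    funext θ
    exact card_lev_eq_SS _ k
  rw [h1]
  clear h1
  induction k with
  | zero =>
    simp only [SS, pow_zero]
    simp [ind, IsVertex]
  | succ k ih =>
    simp only [SS]
    have h2 : (fun v => ∑' i, ∫⁻ θ, ind (fun w => N w θ) (i :: v) ∂Q) = fun v =>
        (∫⁻ θ, ind (fun w => N w θ) v ∂Q) * ∑' i, ∫⁻ θ, (if i < N [] θ then 1 else 0) ∂Q := by
      funext v
      rw [← ENNReal.tsum_mul_left]
      congr 1
      funext i
      exact ind_succ hN hI hD i v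
    rw [h2, SS_mul, ih, pow_succ]

lemma mean_eq (hN : ∀ v, Measurable (N v)) :
    ∑' i, ∫⁻ θ, (if i < N [] θ then (1 : ENNReal) else 0) ∂Q = ∫⁻ θ, (N [] θ : ENNReal) ∂Q := by
  rw [← lintegral_tsum]
  · congr 1
    funext θ
    rw [tsum_eq_sum (s := range (N [] θ))]
    · rw [Finset.sum_congr rfl (g := fun _ => (1 : ENNReal))
        (fun i hi => if_pos (Finset.mem_range.1 hi))]
      simp
    · intro i hi
      exact if_neg (fun h => hi (Finset.mem_range.2 h))
  · intro i
    exact ((measurable_from_top (f := fun n : ℕ => if i < n then (1 : ENNReal) else 0)).comp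
      (hN [])).aemeasurable

/-- For a Galton–Watson tree with mean offspring `m`, almost surely the averages of the rescaled
level sizes are bounded along a subsequence. -/
theorem gw_average (hN : ∀ v, Measurable (N v)) (hI : iIndepFun N Q)
    (hD : ∀ v, IdentDistrib (N v) (N []) Q Q) {m : ℝ} (hm : 0 < m)
    (hmean : ∫⁻ θ, (N [] θ : ENNReal) ∂Q = ENNReal.ofReal m) :
    ∀ᵐ θ ∂Q, ∃ C : ℝ, 0 < C ∧ ∃ᶠ R : ℕ in atTop,
      ∑ k ∈ range R, (m⁻¹) ^ k * ((lev (fun w => N w θ) (k + 1)).card : ℝ) ≤ C * R := by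
  have hind : ∀ v, Measurable (fun θ => ind (fun w => N w θ) v) := fun v =>
    (ind_meas (N := N) v Set.univ (fun _ _ => trivial)).mono (sigN_le hN _) le_rfl
  have hcard : ∀ k, Measurable (fun θ => ((lev (fun w => N w θ) k).card : ENNReal)) := by
    intro k
    have : (fun θ => ((lev (fun w => N w θ) k).card : ENNReal)) =
        fun θ => SS k (fun v => ind (fun w => N w θ) v) := by
      funext θ; exact card_lev_eq_SS _ k
    rw [this]
    exact SS_measurable k hind
  let Y : ℕ → Θ → ENNReal := fun R θ =>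
    (R : ENNReal)⁻¹ * ∑ k ∈ range R,
      ENNReal.ofReal ((m⁻¹) ^ k) * ((lev (fun w => N w θ) (k + 1)).card : ENNReal)
  have hYm : ∀ R, Measurable (Y R) := fun R =>
    (Finset.measurable_sum _ fun k _ => (hcard (k + 1)).const_mul _).const_mul _
  have hYint : ∀ R, ∫⁻ θ, Y R θ ∂Q ≤ ENNReal.ofReal m := by
    intro R
    show ∫⁻ θ, (R : ENNReal)⁻¹ * ∑ k ∈ range R,
      ENNReal.ofReal ((m⁻¹) ^ k) * ((lev (fun w => N w θ) (k + 1)).card : ENNReal) ∂Q ≤ _
    rw [lintegral_const_mul _ (Finset.measurable_sum _ fun k _ => (hcard (k + 1)).const_mul _),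
      lintegral_finsetSum _ fun k _ => (hcard (k + 1)).const_mul _]
    have h1 : ∀ k ∈ range R, ∫⁻ θ, ENNReal.ofReal ((m⁻¹) ^ k) *
        ((lev (fun w => N w θ) (k + 1)).card : ENNReal) ∂Q = ENNReal.ofReal m := by
      intro k _
      rw [lintegral_const_mul _ (hcard (k + 1)), lintegral_card_lev hN hI hD, mean_eq hN, hmean,
        ← ENNReal.ofReal_pow hm.le, ← ENNReal.ofReal_mul (by positivity)]
      congr 1
      rw [pow_succ, ← mul_assoc, ← mul_pow, inv_mul_cancel₀ hm.ne', one_pow, one_mul]
    rw [Finset.sum_congr rfl h1, Finset.sum_const, card_range, nsmul_eq_mul, ← mul_assoc]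
    rcases Nat.eq_zero_or_pos R with h | h
    · subst h; simp
    · rw [ENNReal.inv_mul_cancel (by exact_mod_cast h.ne') (ENNReal.natCast_ne_top R), one_mul]
  have hfatou : ∫⁻ θ, liminf (fun R => Y R θ) atTop ∂Q ≤ ENNReal.ofReal m := by
    refine (lintegral_liminf_le hYm).trans ?_
    refine liminf_le_of_frequently_le' ?_
    exact (Eventually.of_forall hYint).frequently
  have hfin : ∀ᵐ θ ∂Q, liminf (fun R => Y R θ) atTop < ⊤ :=
    ae_lt_top (Measurable.liminf hYm) (ne_top_of_le_ne_top ENNReal.ofReal_ne_top hfatou)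
  filter_upwards [hfin] with θ hθ
  obtain ⟨C, hC1, hC2⟩ := exists_between hθ
  have hfreq : ∃ᶠ R in atTop, Y R θ < C := frequently_lt_of_liminf_lt (by isBoundedDefault) hC1
  refine ⟨C.toReal + 1, by positivity, ?_⟩
  apply (hfreq.and_eventually (eventually_gt_atTop 0)).mono
  rintro R ⟨hR, hR0⟩
  have hCr : C = ENNReal.ofReal C.toReal := (ENNReal.ofReal_toReal hC2.ne).symm
  have hYr : Y R θ = ENNReal.ofReal ((R : ℝ)⁻¹ *
      ∑ k ∈ range R, (m⁻¹) ^ k * ((lev (fun w => N w θ) (k + 1)).card : ℝ)) := by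
    show (R : ENNReal)⁻¹ * ∑ k ∈ range R,
      ENNReal.ofReal ((m⁻¹) ^ k) * ((lev (fun w => N w θ) (k + 1)).card : ENNReal) = _
    have hnn : ∀ k ∈ range R, 0 ≤ (m⁻¹) ^ k * ((lev (fun w => N w θ) (k + 1)).card : ℝ) :=
      fun k _ => mul_nonneg (pow_nonneg (inv_nonneg.2 hm.le) k) (Nat.cast_nonneg _)
    rw [ENNReal.ofReal_mul (inv_nonneg.2 (Nat.cast_nonneg _)), ENNReal.ofReal_sum_of_nonneg hnn]
    congr 1
    · rw [ENNReal.ofReal_inv_of_pos (by exact_mod_cast hR0), ENNReal.ofReal_natCast]
    · apply Finset.sum_congr rfl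
      intro k _
      rw [ENNReal.ofReal_mul (pow_nonneg (inv_nonneg.2 hm.le) k), ENNReal.ofReal_natCast]
  rw [hYr, hCr] at hR
  have h2 := (ENNReal.ofReal_le_ofReal_iff ENNReal.toReal_nonneg).1 hR.le
  have hR' : (0 : ℝ) < R := by exact_mod_cast hR0
  rw [inv_mul_le_iff₀ hR'] at h2
  nlinarith

end

end Pool.Agent.H8.Polymer
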