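import Pool.Agent.H8.Polymer6

/-!
# The noise of the polymer, and the partition function as an expectation over the walk
-/

open MeasureTheory ProbabilityTheory Filter Topology Finset

set_option linter.unusedSectionVars false
set_option linter.unusedDecidableInType false

namespace Pool.Agent.H8.Polymer

section Env

variable {Ω : Type*} {mΩ : MeasurableSpace Ω} {P : Measure Ω} [IsProbabilityMeasure P]
  {ω : ℕ → List ℕ → Ω → ℝ}

/-- the weight function -/
noncomputable def wt (P : Measure Ω) (ω : ℕ → List ℕ → Ω → ℝ) (β : ℝ) (t : ℝ) : ℝ :=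
  Real.exp (β * t - logMoment P ω β) - 1

lemma wt_meas (β : ℝ) : Measurable (wt P ω β) := by
  unfold wt
  fun_prop

variable (hE : IsEnvironment P ω)

include hE

lemma moment_pos (β : ℝ) : 0 < ∫ e, Real.exp (β * ω 1 [] e) ∂P := by
  rw [integral_pos_iff_support_of_nonneg (fun e => (Real.exp_pos _).le) (hE.expMoments β)]
  have : Function.support (fun e => Real.exp (β * ω 1 [] e)) = Set.univ := by
    ext e
    simp [Real.exp_ne_zero]
  rw [this]
  simp

lemma exp_shift_int (β : ℝ) (l : ℕ) :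
    Integrable (fun e => Real.exp (β * ω 1 [] e - logMoment P ω β) ^ l) P := by
  have h1 : (fun e => Real.exp (β * ω 1 [] e - logMoment P ω β) ^ l) =
      fun e => Real.exp (-(l * logMoment P ω β)) * Real.exp ((l * β) * ω 1 [] e) := by
    funext e
    rw [← Real.exp_nat_mul, ← Real.exp_add]
    congr 1
    ring
  rw [h1]
  exact (hE.expMoments (l * β)).const_mul _

lemma exp_shift_mean (β : ℝ) :
    ∫ e, Real.exp (β * ω 1 [] e - logMoment P ω β) ∂P = 1 := by
  have h1 : (fun e => Real.exp (β * ω 1 [] e - logMoment P ω β)) =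
      fun e => Real.exp (β * ω 1 [] e) * Real.exp (-logMoment P ω β) := by
    funext e
    rw [← Real.exp_add]
    congr 1
  rw [h1, integral_mul_const]
  have h2 := moment_pos hE β
  unfold logMoment
  rw [Real.exp_neg, Real.exp_log h2, mul_inv_cancel₀ h2.ne']

lemma wt_int (β : ℝ) : Integrable (fun e => wt P ω β (ω 1 [] e)) P := by
  have h1 := (exp_shift_int hE β 1).sub (integrable_const (1 : ℝ))
  refine h1.congr (ae_of_all _ fun e => ?_)
  simp only [Pi.sub_apply, wt, pow_one]

lemma wt_int2 (β : ℝ) : Integrable (fun e => wt P ω β (ω 1 [] e) ^ 2) P := by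
  have h1 := ((exp_shift_int hE β 2).sub ((exp_shift_int hE β 1).const_mul 2)).add
    (integrable_const (1 : ℝ))
  refine h1.congr (ae_of_all _ fun e => ?_)
  simp only [Pi.add_apply, Pi.sub_apply, wt]
  ring

lemma wt_int3 (β : ℝ) : Integrable (fun e => wt P ω β (ω 1 [] e) ^ 3) P := by
  have h1 := (((exp_shift_int hE β 3).sub ((exp_shift_int hE β 2).const_mul 3)).add
    ((exp_shift_int hE β 1).const_mul 3)).sub (integrable_const (1 : ℝ))
  refine h1.congr (ae_of_all _ fun e => ?_)
  simp only [Pi.add_apply, Pi.sub_apply, wt]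
  ring

lemma wt_ident (β : ℝ) (i : ℕ) (x : List ℕ) {g : ℝ → ℝ} (hg : Measurable g) :
    IdentDistrib (fun e => g (wt P ω β (ω i x e))) (fun e => g (wt P ω β (ω 1 [] e))) P P :=
  (hE.ident i x).comp (hg.comp (wt_meas β))

lemma wt_var_pos {β : ℝ} (hβ : β ≠ 0) : 0 < ∫ e, wt P ω β (ω 1 [] e) ^ 2 ∂P := by
  have h0 : 0 ≤ ∫ e, wt P ω β (ω 1 [] e) ^ 2 ∂P := integral_nonneg fun e => sq_nonneg _
  rcases h0.lt_or_eq with h | h
  · exact h
  · exfalso
    have h1 := (integral_eq_zero_iff_of_nonneg (fun e => sq_nonneg _) (wt_int2 hE β)).1 h.symm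
    apply hE.nonconst
    refine ⟨logMoment P ω β / β, ?_⟩
    filter_upwards [h1] with e he
    have h2 : wt P ω β (ω 1 [] e) = 0 := by
      have h3 : wt P ω β (ω 1 [] e) ^ 2 = 0 := he
      exact pow_eq_zero_iff (two_ne_zero) |>.1 h3
    unfold wt at h2
    have h3 : Real.exp (β * ω 1 [] e - logMoment P ω β) = 1 := by linarith
    rw [Real.exp_eq_one_iff] at h3
    rw [eq_div_iff hβ]
    linarith

/-- The noise of the polymer. -/
noncomputable def envNoise {β : ℝ} (hβ : β ≠ 0) : Noise P (List ℕ) where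
  η := fun i x e => wt P ω β (ω i x e)
  meas := fun i x => (wt_meas β).comp (hE.meas i x)
  indep := hE.indep.comp (fun _ => wt P ω β) (fun _ => wt_meas β)
  pos := by
    intro i x e
    unfold wt
    have := Real.exp_pos (β * ω i x e - logMoment P ω β)
    linarith
  int1 := fun i x => (wt_ident hE β i x measurable_id).integrable_iff.2 (wt_int hE β)
  mean := by
    intro i x
    have h1 := (wt_ident hE β i x measurable_id).integral_eq
    simp only [id] at h1
    rw [h1]
    unfold wt
    have h2 := exp_shift_int hE β 1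
    simp only [pow_one] at h2
    rw [integral_sub h2 (integrable_const _), exp_shift_mean hE]
    simp
  int2 := fun i x =>
    (wt_ident hE β i x (g := fun t => t ^ 2) (by fun_prop)).integrable_iff.2 (wt_int2 hE β)
  int3 := fun i x =>
    (wt_ident hE β i x (g := fun t => t ^ 3) (by fun_prop)).integrable_iff.2 (wt_int3 hE β)
  γ := ∫ e, wt P ω β (ω 1 [] e) ^ 2 ∂P
  γpos := wt_var_pos hE hβ
  var := fun i x => (wt_ident hE β i x (g := fun t => t ^ 2) (by fun_prop)).integral_eq
  C := max (∫ e, wt P ω β (ω 1 [] e) ^ 2 ∂P)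
    (∫ e, (1 + wt P ω β (ω 1 [] e)) * wt P ω β (ω 1 [] e) ^ 2 ∂P)
  third := fun i x => by
    have := (wt_ident hE β i x (g := fun t => (1 + t) * t ^ 2) (by fun_prop)).integral_eq
    rw [this]
    exact le_max_right _ _
  γC := le_max_left _ _

end Env

/-! ### The walk -/

section Walk

variable {Ξ : Type*} [MeasurableSpace Ξ] {ν : Measure Ξ} [IsProbabilityMeasure ν]
  {lam : ℝ} {c : List ℕ → ℕ} {S : ℕ → Ξ → List ℕ}

/-- the first `n+1` positions -/
def traj (S : ℕ → Ξ → List ℕ) (n : ℕ) (ξ : Ξ) : Fin (n + 1) → List ℕ := fun i => S i ξ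

lemma traj_preimage (n : ℕ) (x : Fin (n + 1) → List ℕ) :
    traj S n ⁻¹' {x} = {ξ | ∀ i : Fin (n + 1), S i ξ = x i} := by
  ext ξ
  simp only [Set.mem_preimage, Set.mem_singleton_iff]
  constructor
  · intro h i; exact congrFun h i
  · intro h; funext i; exact h i

lemma traj_meas (hS : IsBiasedWalk lam c ν S) (n : ℕ) :
    @Measurable Ξ (Fin (n + 1) → List ℕ) _ ⊤ (traj S n) := by
  let _ : MeasurableSpace (Fin (n + 1) → List ℕ) := ⊤
  apply measurable_to_countable'
  intro x
  rw [traj_preimage]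
  have : {ξ | ∀ i : Fin (n + 1), S i ξ = x i} = ⋂ i : Fin (n + 1), {ξ | S i ξ = x i} := by
    ext ξ; simp
  rw [this]
  exact MeasurableSet.iInter fun i => hS.meas i (x i)

lemma comp_traj_meas (hS : IsBiasedWalk lam c ν S) (n : ℕ)
    (g : (Fin (n + 1) → List ℕ) → ENNReal) : Measurable fun ξ => g (traj S n ξ) := by
  let _ : MeasurableSpace (Fin (n + 1) → List ℕ) := ⊤
  exact (measurable_from_top (f := g)).comp (traj_meas hS n)

lemma lintegral_traj (hS : IsBiasedWalk lam c ν S) (n : ℕ)
    (g : (Fin (n + 1) → List ℕ) → ENNReal) {A : Set Ξ} :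
    ∫⁻ ξ in A, g (traj S n ξ) ∂ν = ∑' x, g x * ν (traj S n ⁻¹' {x} ∩ A) := by
  let _ : MeasurableSpace (Fin (n + 1) → List ℕ) := ⊤
  have hT := traj_meas hS n
  rw [← lintegral_map (f := g) measurable_from_top hT, lintegral_countable']
  congr 1
  funext x
  rw [Measure.map_apply hT trivial, Measure.restrict_apply (hT trivial)]

lemma markov_lintegral (hS : IsBiasedWalk lam c ν S) (n : ℕ)
    (g : (Fin (n + 1) → List ℕ) → ENNReal) (y : List ℕ) :
    ∫⁻ ξ in {ξ | S (n + 1) ξ = y}, g (traj S n ξ) ∂ν =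
      ∫⁻ ξ, g (traj S n ξ) * ENNReal.ofReal (biasedStep lam c (S n ξ) y) ∂ν := by
  rw [lintegral_traj hS]
  have h1 : ∫⁻ ξ, g (traj S n ξ) * ENNReal.ofReal (biasedStep lam c (S n ξ) y) ∂ν =
      ∫⁻ ξ in Set.univ, (fun x : Fin (n + 1) → List ℕ =>
        g x * ENNReal.ofReal (biasedStep lam c (x (Fin.last n)) y)) (traj S n ξ) ∂ν := by
    rw [setLIntegral_univ]
    rfl
  rw [h1, lintegral_traj hS n (fun x : Fin (n + 1) → List ℕ =>
        g x * ENNReal.ofReal (biasedStep lam c (x (Fin.last n)) y))]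
  congr 1
  funext x
  rw [Set.inter_univ, mul_assoc]
  congr 1
  let x' : ℕ → List ℕ := fun i => if h : i < n + 1 then x ⟨i, h⟩ else y
  have h2 := hS.markov n x'
  have h3 : traj S n ⁻¹' {x} ∩ {ξ | S (n + 1) ξ = y} = {ξ | ∀ i ≤ n + 1, S i ξ = x' i} := by
    rw [traj_preimage]
    ext ξ
    simp only [Set.mem_inter_iff]
    constructor
    · rintro ⟨h4, h5⟩ i hi
      by_cases hi' : i < n + 1
      · have : x' i = x ⟨i, hi'⟩ := dif_pos hi'
        rw [this]
        exact h4 ⟨i, hi'⟩
      · have : i = n + 1 := by omega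
        subst this
        have : x' (n + 1) = y := dif_neg hi'
        rw [this]
        exact h5
    · intro h4
      constructor
      · intro i
        have := h4 i (by omega)
        have h5 : x' i = x i := dif_pos i.2
        rwa [h5] at this
      · have := h4 (n + 1) le_rfl
        have h5 : x' (n + 1) = y := dif_neg (lt_irrefl _)
        rwa [h5] at this
  have h4 : traj S n ⁻¹' {x} = {ξ | ∀ i ≤ n, S i ξ = x' i} := by
    rw [traj_preimage]
    ext ξ
    constructor
    · intro h5 i hi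
      have : x' i = x ⟨i, by omega⟩ := dif_pos (by omega)
      rw [this]
      exact h5 ⟨i, by omega⟩
    · intro h5 i
      have := h5 i (by omega)
      have h6 : x' i = x i := dif_pos i.2
      rwa [h6] at this
  have h5 : x' n = x (Fin.last n) := dif_pos (Nat.lt_succ_self n)
  have h6 : x' (n + 1) = y := dif_neg (lt_irrefl _)
  rw [h3, h2, h4, h5, h6, mul_comm]

variable {Ω : Type*} {mΩ : MeasurableSpace Ω} {P : Measure Ω} [IsProbabilityMeasure P]
  (N : Noise P (List ℕ)) (hlam : 0 < lam) (hc : 0 < c [])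

/-- product weights -/
noncomputable def pw (N : Noise P (List ℕ)) (S : ℕ → Ξ → List ℕ) (e : Ω) (n : ℕ) (ξ : Ξ) :
    ENNReal := ∏ i ∈ Icc 1 n, ENNReal.ofReal (1 + N.η i (S i ξ) e)

/-- product weights as a function of the path -/
noncomputable def pwF (N : Noise P (List ℕ)) (e : Ω) (n : ℕ) (x : Fin (n + 1) → List ℕ) :
    ENNReal := ∏ i ∈ Icc 1 n, ENNReal.ofReal (1 + N.η i (if h : i < n + 1 then x ⟨i, h⟩ else []) e)

lemma pw_traj (e : Ω) (n : ℕ) (ξ : Ξ) : pw N S e n ξ = pwF N e n (traj S n ξ) := by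
  unfold pw pwF
  apply Finset.prod_congr rfl
  intro i hi
  rw [Finset.mem_Icc] at hi
  simp only [traj]
  rw [dif_pos (by omega)]

lemma setLIntegral_pw (hS : IsBiasedWalk lam c ν S) (e : Ω) (n : ℕ) (y : List ℕ) :
    ∫⁻ ξ in {ξ | S n ξ = y}, pw N S e n ξ ∂ν =
      ENNReal.ofReal (Z (treeKern lam c hlam hc) N 0 [] n y e) := by
  induction n generalizing y with
  | zero =>
    have h1 : ∀ ξ, pw N S e 0 ξ = 1 := by intro ξ; simp [pw]
    simp only [h1]
    rw [setLIntegral_one]
    simp only [Z]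
    by_cases hy : y = []
    · subst hy
      have : ν {ξ | S 0 ξ = []} = 1 := prob_compl_eq_zero_iff (hS.meas 0 []) |>.1 hS.start
      rw [this]; simp
    · have : ν {ξ | S 0 ξ = y} = 0 := by
        rw [measure_eq_zero_iff_ae_notMem]
        filter_upwards [hS.start] with ξ hξ h
        have h' : S 0 ξ = y := h
        exact hy (h'.symm.trans hξ)
      rw [this]; simp [hy]
  | succ n ih =>
    -- pull out the last weight
    have h1 : ∫⁻ ξ in {ξ | S (n + 1) ξ = y}, pw N S e (n + 1) ξ ∂ν =
        ENNReal.ofReal (1 + N.η (n + 1) y e) *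
          ∫⁻ ξ in {ξ | S (n + 1) ξ = y}, pw N S e n ξ ∂ν := by
      rw [← lintegral_const_mul]
      · apply setLIntegral_congr_fun (hS.meas (n + 1) y)
        intro ξ hξ
        have hξ' : S (n + 1) ξ = y := hξ
        show pw N S e (n + 1) ξ = ENNReal.ofReal (1 + N.η (n + 1) y e) * pw N S e n ξ
        unfold pw
        rw [Finset.prod_Icc_succ_top (by omega), hξ', mul_comm]
      · have h0 : pw N S e n = fun ξ => pwF N e n (traj S n ξ) := by
          funext ξ; exact pw_traj N e n ξ
        rw [h0]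
        exact comp_traj_meas hS n (pwF N e n)
    have h2 : ∫⁻ ξ in {ξ | S (n + 1) ξ = y}, pw N S e n ξ ∂ν =
        ∑' z, (∫⁻ ξ in {ξ | S n ξ = z}, pw N S e n ξ ∂ν) *
          ENNReal.ofReal (biasedStep lam c z y) := by
      simp only [pw_traj N e n]
      rw [markov_lintegral hS n (pwF N e n) y]
      have h3 : ∀ z, (∫⁻ ξ in {ξ | S n ξ = z}, pwF N e n (traj S n ξ) ∂ν) *
          ENNReal.ofReal (biasedStep lam c z y) =
          ∫⁻ ξ, (if S n ξ = z then pwF N e n (traj S n ξ) *
          ENNReal.ofReal (biasedStep lam c z y) else 0) ∂ν := by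
        intro z
        rw [← lintegral_mul_const _ (comp_traj_meas hS n (pwF N e n)),
          ← lintegral_indicator (hS.meas n z)]
        congr 1
        funext ξ
        by_cases h : S n ξ = z
        · rw [if_pos h, Set.indicator_of_mem (by exact h)]
        · rw [if_neg h, Set.indicator_of_notMem (by exact h)]
      rw [tsum_congr h3, ← lintegral_tsum]
      · congr 1
        funext ξ
        rw [tsum_eq_single (S n ξ)]
        · rw [if_pos rfl]
        · intro z hz
          rw [if_neg (fun h => hz h.symm)]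
      · intro z
        exact (comp_traj_meas hS n (fun x => if x (Fin.last n) = z then
            pwF N e n x * ENNReal.ofReal (biasedStep lam c z y) else 0)).aemeasurable
    rw [h1, h2]
    have h3 : ∀ z, (∫⁻ ξ in {ξ | S n ξ = z}, pw N S e n ξ ∂ν) *
        ENNReal.ofReal (biasedStep lam c z y) =
        ENNReal.ofReal (Z (treeKern lam c hlam hc) N 0 [] n z e * biasedStep lam c z y) := by
      intro z
      rw [ih z, ENNReal.ofReal_mul (Z_nonneg _ _ _ _ _ _ _)]
    rw [tsum_congr h3, tsum_eq_sum (s := (treeKern lam c hlam hc).reach [] n)]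
    · rw [← ENNReal.ofReal_sum_of_nonneg, ← ENNReal.ofReal_mul (N.pos _ _ _)]
      · congr 1
        rw [Z_succ, zero_add]
        rfl
      · intro z _
        exact mul_nonneg (Z_nonneg _ _ _ _ _ _ _) ((treeKern lam c hlam hc).nonneg z y)
    · intro z hz
      rw [Z_zero' _ _ hz, zero_mul, ENNReal.ofReal_zero]

lemma lintegral_pw (hS : IsBiasedWalk lam c ν S) (e : Ω) (n : ℕ) :
    ∫⁻ ξ, pw N S e n ξ ∂ν = ENNReal.ofReal (W (treeKern lam c hlam hc) N 0 [] n e) := by
  have h1 : ∫⁻ ξ, pw N S e n ξ ∂ν = ∑' y, ∫⁻ ξ in {ξ | S n ξ = y}, pw N S e n ξ ∂ν := by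
    have h3 : ∀ y, ∫⁻ ξ in {ξ | S n ξ = y}, pw N S e n ξ ∂ν =
        ∫⁻ ξ, (if S n ξ = y then pw N S e n ξ else 0) ∂ν := by
      intro y
      rw [← lintegral_indicator (hS.meas n y)]
      congr 1
      funext ξ
      by_cases h : S n ξ = y
      · rw [if_pos h, Set.indicator_of_mem (by exact h)]
      · rw [if_neg h, Set.indicator_of_notMem (by exact h)]
    rw [tsum_congr h3, ← lintegral_tsum]
    · congr 1
      funext ξ
      rw [tsum_eq_single (S n ξ)]
      · rw [if_pos rfl]
      · intro z hz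
        rw [if_neg (fun h => hz h.symm)]
    · intro y
      simp only [pw_traj N e n]
      exact (comp_traj_meas hS n (fun x => if x (Fin.last n) = y then
            pwF N e n x else 0)).aemeasurable
  rw [h1, tsum_congr (fun y => setLIntegral_pw N hlam hc hS e n y),
    tsum_eq_sum (s := (treeKern lam c hlam hc).reach [] n)]
  · rw [← ENNReal.ofReal_sum_of_nonneg]
    · rfl
    · intro z _
      exact Z_nonneg _ _ _ _ _ _ _
  · intro z hz
    rw [Z_zero' _ _ hz, ENNReal.ofReal_zero]

lemma polymerW_eq {ω : ℕ → List ℕ → Ω → ℝ} (hE : IsEnvironment P ω)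
    (hS : IsBiasedWalk lam c ν S) {β : ℝ} (hβ : β ≠ 0) (n : ℕ) (e : Ω) :
    polymerW P ω ν S β n e = W (treeKern lam c hlam hc) (envNoise hE hβ) 0 [] n e := by
  unfold polymerW
  have h1 : ∀ ξ, ENNReal.ofReal (Real.exp (∑ i ∈ Icc 1 n,
      (β * ω i (S i ξ) e - logMoment P ω β))) = pw (envNoise hE hβ) S e n ξ := by
    intro ξ
    unfold pw
    rw [Real.exp_sum, ENNReal.ofReal_prod_of_nonneg (fun i _ => (Real.exp_pos _).le)]
    apply Finset.prod_congr rfl
    intro i _
    congr 1
    show _ = 1 + wt P ω β (ω i (S i ξ) e)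
    unfold wt
    ring
  have hpm : Measurable (fun ξ => pw (envNoise hE hβ) S e n ξ) := by
    simp only [pw_traj (envNoise hE hβ) e n]
    exact comp_traj_meas hS n (pwF (envNoise hE hβ) e n)
  have hm : Measurable (fun ξ => Real.exp (∑ i ∈ Icc 1 n,
      (β * ω i (S i ξ) e - logMoment P ω β))) := by
    have h2 : (fun ξ => Real.exp (∑ i ∈ Icc 1 n,
      (β * ω i (S i ξ) e - logMoment P ω β))) = fun ξ =>
      (pw (envNoise hE hβ) S e n ξ).toReal := by
      funext ξ
      rw [← h1, ENNReal.toReal_ofReal (Real.exp_pos _).le]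
    rw [h2]
    exact hpm.ennreal_toReal
  rw [integral_eq_lintegral_of_nonneg_ae (ae_of_all _ fun ξ => (Real.exp_pos _).le)
    hm.aestronglyMeasurable, lintegral_congr h1, lintegral_pw (envNoise hE hβ) hlam hc hS e n,
    ENNReal.toReal_ofReal]
  exact W_nonneg _ _ _ _ _ _

end Walk

end Pool.Agent.H8.Polymer
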